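import Pool.Agent.H96.BB.Cut

/-! (E2): law of the Poisson kernel along hyperbolic Brownian motion. -/

set_option autoImplicit false

namespace Pool.Agent.H96.BB

open MeasureTheory ProbabilityTheory Filter Topology Set
open scoped ENNReal NNReal

namespace Chr

theorem dd {f : ℂ → ℝ} (hf : ContDiff ℝ (⊤ : ℕ∞) f) (v z : ℂ) :
    deriv (deriv fun s : ℝ => f (z + s * v)) 0 = fderiv ℝ (fun w => fderiv ℝ f w v) z v := by
  have hl : ∀ s : ℝ, HasDerivAt (fun s : ℝ => z + (s:ℂ) * v) v s := fun s => by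
    have h1 : HasDerivAt (fun s : ℝ => (s:ℂ)) 1 s := Complex.ofRealCLM.hasDerivAt (x := s)
    have := h1.mul_const v
    rw [one_mul] at this
    exact this.const_add z
  have h1 : deriv (fun s : ℝ => f (z + s * v)) = fun s : ℝ => fderiv ℝ f (z + s * v) v := by
    funext s
    have hf' := (hf.differentiable (by simp) (z + s * v)).hasFDerivAt
    exact (hf'.comp_hasDerivAt s (hl s)).deriv
  rw [h1]
  have hg : ContDiff ℝ (⊤ : ℕ∞) (fun w => fderiv ℝ f w v) :=
    (hf.fderiv_right (m := (⊤ : ℕ∞)) (by simp)).clm_apply contDiff_const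
  have hf' := (hg.differentiable (by simp) (z + ((0:ℝ):ℂ) * v)).hasFDerivAt
  have := (hf'.comp_hasDerivAt (0:ℝ) (hl 0)).deriv
  have e0 : z + ((0:ℝ):ℂ) * v = z := by simp
  rw [e0] at this
  exact this

theorem lap_cont {f : ℂ → ℝ} (hf : ContDiff ℝ (⊤ : ℕ∞) f) : Continuous (hypLap f) := by
  have e : hypLap f = fun z => (1 - ‖z‖ ^ 2) ^ 2 / 4 *
      (fderiv ℝ (fun w => fderiv ℝ f w 1) z 1 +
        fderiv ℝ (fun w => fderiv ℝ f w Complex.I) z Complex.I) := by
    funext z
    unfold hypLap
    rw [← dd hf 1 z, ← dd hf Complex.I z]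
    simp only [mul_one]
  rw [e]
  have hc : ∀ v : ℂ, Continuous fun z => fderiv ℝ (fun w => fderiv ℝ f w v) z v := fun v => by
    have hg : ContDiff ℝ (⊤ : ℕ∞) (fun w => fderiv ℝ f w v) :=
      (hf.fderiv_right (m := (⊤ : ℕ∞)) (by simp)).clm_apply contDiff_const
    exact (hg.continuous_fderiv (by simp)).clm_apply continuous_const
  have h1 := hc 1
  have h2 := hc Complex.I
  fun_prop

variable {E : Type*} [MeasurableSpace E]

theorem joint {Q : Measure E} {B : ℝ≥0 → E → ℂ} (hB : IsHypBM Q B) :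
    Measurable fun p : ℝ × E => B p.1.toNNReal p.2 := by
  have : Measurable (Function.uncurry fun (s : ℝ) (e : E) => B s.toNNReal e) :=
    measurable_uncurry_of_continuous_of_measurable
      (fun e => (hB.cont e).comp continuous_real_toNNReal) (fun s => hB.meas _)
  exact this

/-- the Dynkin formula in the limit -/
theorem dyn {Q : Measure E} [IsProbabilityMeasure Q] {B : ℝ≥0 → E → ℂ} (hB : IsHypBM Q B)
    {a La : ℂ → ℝ} (ham : Measurable a) (hLm : Measurable La) {C : ℝ} {f : ℕ → ℂ → ℝ}
    (hf1 : ∀ n, ContDiff ℝ (⊤ : ℕ∞) (f n)) (hf2 : ∀ n, HasCompactSupport (f n))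
    (hf3 : ∀ n, tsupport (f n) ⊆ Metric.ball 0 1)
    (hf4 : ∀ n z, ‖z‖ < 1 → |f n z| ≤ 1) (hf5 : ∀ n z, ‖z‖ < 1 → |hypLap (f n) z| ≤ C)
    (hf6 : ∀ z, ‖z‖ < 1 → Tendsto (fun n => f n z) atTop (𝓝 (a z)))
    (hf7 : ∀ z, ‖z‖ < 1 → Tendsto (fun n => hypLap (f n) z) atTop (𝓝 (La z))) (t : ℝ≥0) :
    ∫ e, a (B t e) ∂Q = a 0 + ∫ s in (0:ℝ)..t, 1 / 2 * ∫ e, La (B s.toNNReal e) ∂Q := by
  have hC : 0 ≤ C := (abs_nonneg _).trans (hf5 0 0 (by simp))
  have ht : (0:ℝ) ≤ t := t.2
  have hab : ∀ z, ‖z‖ < 1 → |a z| ≤ 1 := fun z hz =>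
    le_of_tendsto (hf6 z hz).abs (Eventually.of_forall fun n => hf4 n z hz)
  have hLb : ∀ z, ‖z‖ < 1 → |La z| ≤ C := fun z hz =>
    le_of_tendsto (hf7 z hz).abs (Eventually.of_forall fun n => hf5 n z hz)
  obtain ⟨F, hF, hM⟩ := hB.mart
  -- Dynkin
  have h1 : ∀ n, ∫ e, (f n (B t e) - ∫ s in (0 : ℝ)..t, 1 / 2 * hypLap (f n) (B s.toNNReal e)) ∂Q =
      f n 0 := by
    intro n
    have hm := hM (f n) (hf1 n) (hf2 n) (hf3 n)
    have e1 := hm.2 0 t zero_le
    have e2 := integral_congr_ae e1
    rw [integral_condExp (F.le 0)] at e2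
    have e3 : (fun e : E => f n (B 0 e) - ∫ s in (0:ℝ)..((0:ℝ≥0):ℝ),
        1 / 2 * hypLap (f n) (B s.toNNReal e)) = fun _ => f n 0 := by
      funext e
      rw [hB.zero e]; simp
    rw [e3] at e2
    rw [e2]; simp
  have hmn : ∀ n, AEStronglyMeasurable (fun e : E => f n (B t e) -
      ∫ s in (0 : ℝ)..t, 1 / 2 * hypLap (f n) (B s.toNNReal e)) Q := fun n =>
    ((hM (f n) (hf1 n) (hf2 n) (hf3 n)).integrable t).aestronglyMeasurable
  have hin : ∀ (φ : ℂ → ℝ), (∀ z, ‖z‖ < 1 → |φ z| ≤ C) → ∀ e : E,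
      |∫ s in (0 : ℝ)..t, 1 / 2 * φ (B s.toNNReal e)| ≤ C * t := by
    intro φ hφ e
    have := intervalIntegral.norm_integral_le_of_norm_le_const (a := (0:ℝ)) (b := (t:ℝ)) (C := C)
      (f := fun s : ℝ => 1 / 2 * φ (B s.toNNReal e)) (fun s _ => by
        rw [Real.norm_eq_abs, abs_mul]
        have := hφ _ (hB.disk s.toNNReal e)
        have h2 : |(1:ℝ) / 2| = 1 / 2 := abs_of_pos (by norm_num)
        rw [h2]
        have := abs_nonneg (φ (B s.toNNReal e))
        linarith)
    rwa [Real.norm_eq_abs, sub_zero, abs_of_nonneg ht] at this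
  have h2 : Tendsto (fun n => ∫ e, (f n (B t e) -
      ∫ s in (0 : ℝ)..t, 1 / 2 * hypLap (f n) (B s.toNNReal e)) ∂Q) atTop
      (𝓝 (∫ e, (a (B t e) - ∫ s in (0 : ℝ)..t, 1 / 2 * La (B s.toNNReal e)) ∂Q)) := by
    refine tendsto_integral_of_dominated_convergence (fun _ => 1 + C * t) hmn
      (integrable_const _) (fun n => Eventually.of_forall fun e => ?_)
      (Eventually.of_forall fun e => ?_)
    · rw [Real.norm_eq_abs]
      refine (abs_sub _ _).trans ?_
      exact add_le_add (hf4 n _ (hB.disk _ _)) (hin _ (hf5 n) e)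
    · refine (hf6 _ (hB.disk _ _)).sub ?_
      refine intervalIntegral.tendsto_integral_filter_of_dominated_convergence (fun _ => C)
        (Eventually.of_forall fun n => ?_) (Eventually.of_forall fun n => ?_)
        intervalIntegrable_const ?_
      · refine Continuous.aestronglyMeasurable ?_
        exact continuous_const.mul ((lap_cont (hf1 n)).comp
          ((hB.cont e).comp continuous_real_toNNReal))
      · refine Eventually.of_forall fun s _ => ?_
        rw [Real.norm_eq_abs, abs_mul]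
        have := hf5 n _ (hB.disk s.toNNReal e)
        have h2 : |(1:ℝ) / 2| = 1 / 2 := abs_of_pos (by norm_num)
        rw [h2]
        have := abs_nonneg (hypLap (f n) (B s.toNNReal e))
        linarith
      · exact Eventually.of_forall fun s _ => (hf7 _ (hB.disk _ _)).const_mul _
  have h3 : ∫ e, (a (B t e) - ∫ s in (0 : ℝ)..t, 1 / 2 * La (B s.toNNReal e)) ∂Q = a 0 := by
    refine tendsto_nhds_unique h2 ?_
    simp only [h1]
    exact hf6 0 (by simp)
  -- Fubini
  have hj := joint hB
  have hint : Integrable (Function.uncurry fun (s : ℝ) (e : E) => 1 / 2 * La (B s.toNNReal e))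
      ((volume.restrict (Ioc (0:ℝ) t)).prod Q) := by
    refine Integrable.of_bound (C := C) ?_ ?_
    · exact (measurable_const.mul (hLm.comp hj)).aestronglyMeasurable
    · refine Eventually.of_forall fun p => ?_
      simp only [Function.uncurry]
      rw [Real.norm_eq_abs, abs_mul]
      have := hLb _ (hB.disk p.1.toNNReal p.2)
      have h2 : |(1:ℝ) / 2| = 1 / 2 := abs_of_pos (by norm_num)
      rw [h2]
      have := abs_nonneg (La (B p.1.toNNReal p.2))
      linarith
  have hi1 : Integrable (fun e => a (B t e)) Q := by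
    refine Integrable.of_bound (C := 1) (ham.comp (hB.meas t)).aestronglyMeasurable ?_
    exact Eventually.of_forall fun e => hab _ (hB.disk _ _)
  have hi2 : Integrable (fun e => ∫ s in (0 : ℝ)..t, 1 / 2 * La (B s.toNNReal e)) Q := by
    have := hint.integral_prod_right
    simp only [intervalIntegral.integral_of_le ht]
    exact this
  rw [integral_sub hi1 hi2] at h3
  have h4 : ∫ e, (∫ s in (0 : ℝ)..t, 1 / 2 * La (B s.toNNReal e)) ∂Q =
      ∫ s in (0:ℝ)..t, 1 / 2 * ∫ e, La (B s.toNNReal e) ∂Q := by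
    simp only [intervalIntegral.integral_of_le ht]
    rw [← integral_integral_swap hint]
    refine integral_congr_ae (Eventually.of_forall fun s => ?_)
    simp only
    rw [integral_const_mul]
  linarith

/-- uniqueness for the linear equation -/
theorem ode {U : ℝ → ℂ} (hU : Continuous U) (c : ℂ)
    (h : ∀ t : ℝ, 0 ≤ t → U t = 1 + ∫ s in (0:ℝ)..t, c * U s) (t : ℝ) (ht : 0 ≤ t) :
    U t = Complex.exp (c * t) := by
  have hV : ∀ x : ℝ, 0 ≤ x → x < t → HasDerivWithinAt
      (fun x : ℝ => Complex.exp (-(c * x)) * (1 + ∫ s in (0:ℝ)..x, c * U s)) 0 (Ici x) x := by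
    intro x hx _
    have d1 : HasDerivAt (fun x : ℝ => 1 + ∫ s in (0:ℝ)..x, c * U s) (c * U x) x :=
      (((continuous_const.mul hU).integral_hasStrictDerivAt 0 x).hasDerivAt).const_add 1
    have d2 : HasDerivAt (fun x : ℝ => Complex.exp (-(c * x)))
        (Complex.exp (-(c * x)) * -c) x := by
      have h1 : HasDerivAt (fun s : ℝ => (s:ℂ)) 1 x := Complex.ofRealCLM.hasDerivAt (x := x)
      have h2 := ((h1.const_mul c).neg).cexp
      rw [mul_one] at h2
      exact h2
    have d3 := d2.mul d1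
    have e : Complex.exp (-(c * x)) * -c * (1 + ∫ s in (0:ℝ)..x, c * U s) +
        Complex.exp (-(c * x)) * (c * U x) = 0 := by
      rw [← h x hx]; ring
    rw [e] at d3
    exact d3.hasDerivWithinAt
  have hcont : ContinuousOn
      (fun x : ℝ => Complex.exp (-(c * x)) * (1 + ∫ s in (0:ℝ)..x, c * U s)) (Icc 0 t) := by
    refine Continuous.continuousOn ?_
    refine Continuous.mul (by fun_prop) (continuous_const.add ?_)
    exact intervalIntegral.continuous_primitive
      (fun a b => (continuous_const.mul hU).intervalIntegrable a b) 0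
  have := constant_of_has_deriv_right_zero hcont (fun x hx => hV x hx.1 hx.2) t ⟨ht, le_rfl⟩
  simp only [Complex.ofReal_zero, mul_zero, neg_zero, Complex.exp_zero,
    intervalIntegral.integral_same, add_zero, mul_one] at this
  rw [← h t ht, Complex.exp_neg] at this
  have hne : Complex.exp (c * t) ≠ 0 := Complex.exp_ne_zero _
  field_simp at this
  exact this

theorem pk_meas (η : ℂ) : Measurable fun z : ℂ => pk z η := by
  unfold pk
  fun_prop

theorem pk_cont {η : ℂ} (hη : ‖η‖ = 1) {X : Type*} [TopologicalSpace X] {w : X → ℂ}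
    (hw : Continuous w) (hw1 : ∀ x, ‖w x‖ < 1) : Continuous fun x => Real.log (pk (w x) η) := by
  have h1 : ∀ x, ‖η - w x‖ ^ 2 ≠ 0 := fun x => by
    have : 0 < ‖η - w x‖ := by
      rw [norm_pos_iff, sub_ne_zero]
      intro h
      have := hw1 x
      rw [← h, hη] at this
      exact lt_irrefl _ this
    positivity
  have h2 : ∀ x, pk (w x) η ≠ 0 := fun x => by
    unfold pk
    refine div_ne_zero ?_ (h1 x)
    have := hw1 x
    have := norm_nonneg (w x)
    nlinarith
  refine Continuous.log ?_ h2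
  unfold pk
  exact Continuous.div (by fun_prop) (by fun_prop) h1

end Chr

open Chr in
theorem char_pk {E : Type*} [MeasurableSpace E] (Q : Measure E) [IsProbabilityMeasure Q]
    (B : ℝ≥0 → E → ℂ) (hB : IsHypBM Q B)
    (η : ℂ) (hη : ‖η‖ = 1) (t : ℝ≥0) (θ : ℝ) :
    ∫ e, Complex.exp (Complex.I * (θ * Real.log (pk (B t e) η) : ℝ)) ∂Q =
      Complex.exp (-(Complex.I * θ + θ ^ 2) * t / 2) := by
  obtain ⟨C, f, g, hfg, hbd, hlim⟩ := cutoff η hη θ
  set L : ℂ → ℝ := fun z => θ * Real.log (pk z η) with hL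
  have hLm : Measurable L := (Real.measurable_log.comp (pk_meas η)).const_mul θ
  have hcm : Measurable fun z => Real.cos (L z) := Real.measurable_cos.comp hLm
  have hsm : Measurable fun z => Real.sin (L z) := Real.measurable_sin.comp hLm
  have hA := dyn hB (a := fun z => Real.cos (L z))
    (La := fun z => -θ ^ 2 * Real.cos (L z) + θ * Real.sin (L z)) hcm
    ((hcm.const_mul _).add (hsm.const_mul _)) (C := C) (f := f)
    (fun n => (hfg n).1) (fun n => (hfg n).2.1) (fun n => (hfg n).2.2.1)
    (fun n z hz => (hbd n z hz).1) (fun n z hz => (hbd n z hz).2.2.1)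
    (fun z hz => (hlim z hz).1) (fun z hz => (hlim z hz).2.2.1)
  have hS := dyn hB (a := fun z => Real.sin (L z))
    (La := fun z => -θ ^ 2 * Real.sin (L z) - θ * Real.cos (L z)) hsm
    ((hsm.const_mul _).sub (hcm.const_mul _)) (C := C) (f := g)
    (fun n => (hfg n).2.2.2.1) (fun n => (hfg n).2.2.2.2.1) (fun n => (hfg n).2.2.2.2.2)
    (fun n z hz => (hbd n z hz).2.1) (fun n z hz => (hbd n z hz).2.2.2)
    (fun z hz => (hlim z hz).2.1) (fun z hz => (hlim z hz).2.2.2)
  set u : ℂ → ℂ := fun z => Complex.exp (Complex.I * (L z : ℝ)) with hu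
  have hum : Measurable u := by
    rw [hu]
    exact Complex.measurable_exp.comp
      ((Complex.measurable_ofReal.comp hLm).const_mul Complex.I)
  have hun : ∀ z, ‖u z‖ = 1 := fun z => by
    rw [hu]; simp only
    rw [mul_comm]
    exact Complex.norm_exp_ofReal_mul_I _
  have hucs : ∀ z, u z = (Real.cos (L z) : ℂ) + (Real.sin (L z) : ℂ) * Complex.I := fun z => by
    rw [hu]; simp only
    rw [mul_comm, Complex.exp_mul_I, Complex.ofReal_cos, Complex.ofReal_sin]
  set U : ℝ → ℂ := fun s => ∫ e, u (B s.toNNReal e) ∂Q with hU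
  have hUc : Continuous U := by
    refine continuous_of_dominated (bound := fun _ => 1)
      (fun s => (hum.comp (hB.meas _)).aestronglyMeasurable)
      (fun s => Eventually.of_forall fun e => (hun _).le) (integrable_const _)
      (Eventually.of_forall fun e => ?_)
    have h1 := pk_cont hη ((hB.cont e).comp continuous_real_toNNReal) (fun s => hB.disk _ e)
    have h2 : Continuous fun s : ℝ => L (B s.toNNReal e) := continuous_const.mul h1
    exact Complex.continuous_exp.comp
      (continuous_const.mul (Complex.continuous_ofReal.comp h2))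
  have hci : ∀ s : ℝ≥0, Integrable (fun e => Real.cos (L (B s e))) Q := fun s =>
    Integrable.of_bound (C := 1) (hcm.comp (hB.meas s)).aestronglyMeasurable
      (Eventually.of_forall fun e => Real.abs_cos_le_one _)
  have hsi : ∀ s : ℝ≥0, Integrable (fun e => Real.sin (L (B s e))) Q := fun s =>
    Integrable.of_bound (C := 1) (hsm.comp (hB.meas s)).aestronglyMeasurable
      (Eventually.of_forall fun e => Real.abs_sin_le_one _)
  have hUcs : ∀ s : ℝ≥0, ∫ e, u (B s e) ∂Q = ((∫ e, Real.cos (L (B s e)) ∂Q : ℝ) : ℂ) +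
      ((∫ e, Real.sin (L (B s e)) ∂Q : ℝ) : ℂ) * Complex.I := fun s => by
    simp only [hucs]
    rw [integral_add (hci s).ofReal ((hsi s).ofReal.mul_const _), integral_mul_const,
      integral_complex_ofReal, integral_complex_ofReal]
  set c : ℂ := -(Complex.I * θ + θ ^ 2) / 2 with hc
  have hre : ∀ s : ℝ, ((1 / 2 * ∫ e, (-θ ^ 2 * Real.cos (L (B s.toNNReal e)) +
        θ * Real.sin (L (B s.toNNReal e))) ∂Q : ℝ) : ℂ) +
      ((1 / 2 * ∫ e, (-θ ^ 2 * Real.sin (L (B s.toNNReal e)) -
        θ * Real.cos (L (B s.toNNReal e))) ∂Q : ℝ) : ℂ) * Complex.I = c * U s := fun s => by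
    rw [hU]; simp only
    rw [hUcs, integral_add ((hci _).const_mul _) ((hsi _).const_mul _),
      integral_sub ((hsi _).const_mul _) ((hci _).const_mul _), integral_const_mul,
      integral_const_mul, integral_const_mul, integral_const_mul, hc]
    push_cast
    linear_combination (θ / 2 * ((∫ e, Real.sin (L (B s.toNNReal e)) ∂Q : ℝ) : ℂ)) *
      (Complex.I_sq)
  have hcc : Continuous fun s : ℝ => c * U s := continuous_const.mul hUc
  have hUeq : ∀ t : ℝ, 0 ≤ t → U t = 1 + ∫ s in (0:ℝ)..t, c * U s := by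
    intro t ht
    have h1 := hA t.toNNReal
    have h2 := hS t.toNNReal
    rw [Real.coe_toNNReal t ht] at h1 h2
    have hp0 : L 0 = 0 := by
      rw [hL]; simp only
      unfold pk
      simp [hη]
    have e1 : (∫ s in (0:ℝ)..t, c * U s) =
        ((∫ s in (0:ℝ)..t, 1 / 2 * ∫ e, (-θ ^ 2 * Real.cos (L (B s.toNNReal e)) +
          θ * Real.sin (L (B s.toNNReal e))) ∂Q : ℝ) : ℂ) +
        ((∫ s in (0:ℝ)..t, 1 / 2 * ∫ e, (-θ ^ 2 * Real.sin (L (B s.toNNReal e)) -
          θ * Real.cos (L (B s.toNNReal e))) ∂Q : ℝ) : ℂ) * Complex.I := by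
      have r1 : (fun s : ℝ => 1 / 2 * ∫ e, (-θ ^ 2 * Real.cos (L (B s.toNNReal e)) +
          θ * Real.sin (L (B s.toNNReal e))) ∂Q) = fun s => (c * U s).re := by
        funext s
        rw [← hre s]; simp
      have r2 : (fun s : ℝ => 1 / 2 * ∫ e, (-θ ^ 2 * Real.sin (L (B s.toNNReal e)) -
          θ * Real.cos (L (B s.toNNReal e))) ∂Q) = fun s => (c * U s).im := by
        funext s
        rw [← hre s]; simp
      rw [r1, r2]
      have i1 : IntervalIntegrable (fun s : ℝ => (((c * U s).re : ℝ) : ℂ)) volume 0 t :=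
        (Complex.continuous_ofReal.comp (Complex.continuous_re.comp hcc)).intervalIntegrable _ _
      have i2 : IntervalIntegrable (fun s : ℝ => (((c * U s).im : ℝ) : ℂ) * Complex.I)
          volume 0 t :=
        ((Complex.continuous_ofReal.comp
          (Complex.continuous_im.comp hcc)).mul continuous_const).intervalIntegrable _ _
      rw [← intervalIntegral.integral_ofReal, ← intervalIntegral.integral_ofReal,
        ← intervalIntegral.integral_mul_const, ← intervalIntegral.integral_add i1 i2]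
      refine intervalIntegral.integral_congr fun s _ => ?_
      exact (Complex.re_add_im _).symm
    rw [e1]
    have e2 : U t = _ := hUcs t.toNNReal
    rw [e2, h1, h2, hp0]
    push_cast
    simp
    ring
  have := ode hUc c hUeq t t.2
  rw [hU] at this
  simp only [Real.toNNReal_coe] at this
  rw [hu] at this
  simp only at this
  rw [hL] at this
  simp only at this
  rw [this, hc]
  congr 1
  ring

end Pool.Agent.H96.BB
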