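import Pool.Agent.H96.BB.Defs

/-! Task H: bounded solutions of the convolution inequality vanish. -/

set_option autoImplicit false

namespace Pool.Agent.H96.BB

open MeasureTheory ProbabilityTheory Filter Topology Set
open scoped ENNReal NNReal

namespace Conv

theorem c_pos : 0 < Real.sqrt 2 := Real.sqrt_pos.2 (by norm_num)

theorem c_sq : Real.sqrt 2 * Real.sqrt 2 = 2 := Real.mul_self_sqrt (by norm_num)

theorem int_right {G : ℝ → ℝ} {C : ℝ} (hG : Measurable G) (h0 : ∀ x, 0 ≤ G x) (hC : ∀ x, G x ≤ C)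
    (a : ℝ) : IntegrableOn (fun z => G z * Real.exp (-Real.sqrt 2 * z)) (Ioi a) := by
  have h1 := (integrableOn_exp_mul_Ioi (a := -Real.sqrt 2) (neg_lt_zero.2 c_pos) a).const_mul C
  refine Integrable.mono' h1 ?_ (Eventually.of_forall fun z => ?_)
  · exact (hG.mul (by fun_prop)).aestronglyMeasurable
  · rw [Real.norm_eq_abs, abs_mul, abs_of_nonneg (h0 z), abs_of_pos (Real.exp_pos _)]
    exact mul_le_mul_of_nonneg_right (hC z) (Real.exp_pos _).le

theorem int_left {G : ℝ → ℝ} {C : ℝ} (hG : Measurable G) (h0 : ∀ x, 0 ≤ G x) (hC : ∀ x, G x ≤ C)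
    (a : ℝ) : IntegrableOn (fun z => G z * Real.exp (Real.sqrt 2 * z)) (Iic a) := by
  have h1 := (integrableOn_exp_mul_Iic (a := Real.sqrt 2) c_pos a).const_mul C
  refine Integrable.mono' h1 ?_ (Eventually.of_forall fun z => ?_)
  · exact (hG.mul (by fun_prop)).aestronglyMeasurable
  · rw [Real.norm_eq_abs, abs_mul, abs_of_nonneg (h0 z), abs_of_pos (Real.exp_pos _)]
    exact mul_le_mul_of_nonneg_right (hC z) (Real.exp_pos _).le

/-- The convolution with the two-sided exponential law. -/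
noncomputable def TT (G : ℝ → ℝ) (x : ℝ) : ℝ := ∫ y, G (x + y) ∂Lap

/-- right part -/
noncomputable def ra (G : ℝ → ℝ) (x : ℝ) : ℝ := Real.exp (Real.sqrt 2 * x) *
  ((∫ z in Ioi 0, G z * Real.exp (-Real.sqrt 2 * z)) -
    ∫ z in (0 : ℝ)..x, G z * Real.exp (-Real.sqrt 2 * z))

/-- left part -/
noncomputable def lb (G : ℝ → ℝ) (x : ℝ) : ℝ := Real.exp (-Real.sqrt 2 * x) *
  ((∫ z in Iic 0, G z * Real.exp (Real.sqrt 2 * z)) +
    ∫ z in (0 : ℝ)..x, G z * Real.exp (Real.sqrt 2 * z))

theorem TT_density (G : ℝ → ℝ) (x : ℝ) : TT G x =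
    ∫ y, (Real.sqrt 2 / 2 * Real.exp (-(Real.sqrt 2 * |y|))) * G (x + y) := by
  unfold TT Lap
  rw [integral_withDensity_eq_integral_toReal_smul (by fun_prop)
    (Eventually.of_forall fun _ => ENNReal.ofReal_lt_top)]
  refine integral_congr_ae (Eventually.of_forall fun y => ?_)
  simp only [smul_eq_mul]
  rw [ENNReal.toReal_ofReal (by have := c_pos; positivity)]

theorem rep {G : ℝ → ℝ} {C : ℝ} (hG : Measurable G) (h0 : ∀ x, 0 ≤ G x) (hC : ∀ x, G x ≤ C)
    (x : ℝ) : TT G x = Real.sqrt 2 / 2 * (ra G x + lb G x) := by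
  have i1 := int_right hG h0 hC
  have i2 := int_left hG h0 hC
  have e1 : TT G x = ∫ z, (Real.sqrt 2 / 2 * Real.exp (-(Real.sqrt 2 * |z - x|))) * G z := by
    rw [TT_density, ← integral_sub_right_eq_self _ x]
    refine integral_congr_ae (Eventually.of_forall fun z => ?_)
    simp only
    rw [add_sub_cancel]
  have k1 : ∀ z ∈ Iic x, (Real.sqrt 2 / 2 * Real.exp (-(Real.sqrt 2 * |z - x|))) * G z =
      Real.sqrt 2 / 2 * Real.exp (-Real.sqrt 2 * x) * (G z * Real.exp (Real.sqrt 2 * z)) := by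
    intro z hz
    rw [abs_of_nonpos (sub_nonpos.2 hz)]
    have : Real.exp (-(Real.sqrt 2 * -(z - x))) = Real.exp (-Real.sqrt 2 * x) *
        Real.exp (Real.sqrt 2 * z) := by
      rw [← Real.exp_add]
      congr 1
      ring
    rw [this]
    ring
  have k2 : ∀ z ∈ Ioi x, (Real.sqrt 2 / 2 * Real.exp (-(Real.sqrt 2 * |z - x|))) * G z =
      Real.sqrt 2 / 2 * Real.exp (Real.sqrt 2 * x) * (G z * Real.exp (-Real.sqrt 2 * z)) := by
    intro z hz
    rw [abs_of_pos (sub_pos.2 hz)]
    have : Real.exp (-(Real.sqrt 2 * (z - x))) = Real.exp (Real.sqrt 2 * x) *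
        Real.exp (-Real.sqrt 2 * z) := by
      rw [← Real.exp_add]
      congr 1
      ring
    rw [this]
    ring
  rw [e1, ← intervalIntegral.integral_Iic_add_Ioi (b := x),
    setIntegral_congr_fun measurableSet_Iic k1, setIntegral_congr_fun measurableSet_Ioi k2,
    integral_const_mul, integral_const_mul]
  · have e2 := intervalIntegral.integral_Iic_sub_Iic (i2 0) (i2 x)
    have e3 := intervalIntegral.integral_Ioi_sub_Ioi' (i1 0) (i1 x)
    unfold ra lb
    rw [← e2, ← e3]
    ring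
  · exact IntegrableOn.congr_fun (Integrable.const_mul (i2 x)
      (Real.sqrt 2 / 2 * Real.exp (-Real.sqrt 2 * x))) (fun z hz => (k1 z hz).symm) measurableSet_Iic
  · exact IntegrableOn.congr_fun (Integrable.const_mul (i1 x)
      (Real.sqrt 2 / 2 * Real.exp (Real.sqrt 2 * x))) (fun z hz => (k2 z hz).symm) measurableSet_Ioi

theorem ii_right {G : ℝ → ℝ} {C : ℝ} (hG : Measurable G) (h0 : ∀ x, 0 ≤ G x) (hC : ∀ x, G x ≤ C)
    (a b : ℝ) : IntervalIntegrable (fun z => G z * Real.exp (-Real.sqrt 2 * z)) volume a b := by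
  rw [intervalIntegrable_iff]
  refine (int_right hG h0 hC (min a b)).mono_set fun z hz => ?_
  exact hz.1

theorem ii_left {G : ℝ → ℝ} {C : ℝ} (hG : Measurable G) (h0 : ∀ x, 0 ≤ G x) (hC : ∀ x, G x ≤ C)
    (a b : ℝ) : IntervalIntegrable (fun z => G z * Real.exp (Real.sqrt 2 * z)) volume a b := by
  rw [intervalIntegrable_iff]
  refine (int_left hG h0 hC (max a b)).mono_set fun z hz => ?_
  exact hz.2

theorem TT_cont {G : ℝ → ℝ} {C : ℝ} (hG : Measurable G) (h0 : ∀ x, 0 ≤ G x) (hC : ∀ x, G x ≤ C) :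
    Continuous (TT G) := by
  have h1 : TT G = fun x => Real.sqrt 2 / 2 * (ra G x + lb G x) := funext (rep hG h0 hC)
  rw [h1]
  have h2 := intervalIntegral.continuous_primitive (ii_right hG h0 hC) 0
  have h3 := intervalIntegral.continuous_primitive (ii_left hG h0 hC) 0
  unfold ra lb
  fun_prop

theorem ra_deriv {G : ℝ → ℝ} (hG : Continuous G) (x : ℝ) :
    HasDerivAt (ra G) (Real.sqrt 2 * ra G x - G x) x := by
  have h1 : HasDerivAt (fun x : ℝ => Real.exp (Real.sqrt 2 * x))
      (Real.exp (Real.sqrt 2 * x) * (Real.sqrt 2 * 1)) x :=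
    ((hasDerivAt_id x).const_mul (Real.sqrt 2)).exp
  have h2 : HasDerivAt (fun x => ∫ z in (0 : ℝ)..x, G z * Real.exp (-Real.sqrt 2 * z))
      (G x * Real.exp (-Real.sqrt 2 * x)) x :=
    (Continuous.integral_hasStrictDerivAt (f := fun z => G z * Real.exp (-Real.sqrt 2 * z))
      (by fun_prop) 0 x).hasDerivAt
  have h3 := h1.mul (h2.const_sub (∫ z in Ioi 0, G z * Real.exp (-Real.sqrt 2 * z)))
  refine h3.congr_deriv ?_
  have h4 : Real.exp (Real.sqrt 2 * x) * Real.exp (-Real.sqrt 2 * x) = 1 := by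
    rw [← Real.exp_add, ← Real.exp_zero]
    congr 1
    ring
  unfold ra
  linear_combination (-G x) * h4

theorem lb_deriv {G : ℝ → ℝ} (hG : Continuous G) (x : ℝ) :
    HasDerivAt (lb G) (-(Real.sqrt 2) * lb G x + G x) x := by
  have h1 : HasDerivAt (fun x : ℝ => Real.exp (-Real.sqrt 2 * x))
      (Real.exp (-Real.sqrt 2 * x) * (-Real.sqrt 2 * 1)) x :=
    ((hasDerivAt_id x).const_mul (-Real.sqrt 2)).exp
  have h2 : HasDerivAt (fun x => ∫ z in (0 : ℝ)..x, G z * Real.exp (Real.sqrt 2 * z))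
      (G x * Real.exp (Real.sqrt 2 * x)) x :=
    (Continuous.integral_hasStrictDerivAt (f := fun z => G z * Real.exp (Real.sqrt 2 * z))
      (by fun_prop) 0 x).hasDerivAt
  have h3 := h1.mul (h2.const_add (∫ z in Iic 0, G z * Real.exp (Real.sqrt 2 * z)))
  refine h3.congr_deriv ?_
  have h4 : Real.exp (Real.sqrt 2 * x) * Real.exp (-Real.sqrt 2 * x) = 1 := by
    rw [← Real.exp_add, ← Real.exp_zero]
    congr 1
    ring
  unfold lb
  linear_combination (G x) * h4

instance : IsFiniteMeasure Lap := by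
  unfold Lap
  refine isFiniteMeasure_withDensity_ofReal ?_
  have h1 : Integrable (fun y : ℝ => Real.sqrt 2 / 2 * Real.exp (-(Real.sqrt 2 * |y|))) := by
    rw [← integrableOn_univ, ← Iic_union_Ioi (a := (0 : ℝ))]
    refine IntegrableOn.union ?_ ?_
    · refine IntegrableOn.congr_fun (Integrable.const_mul
        (integrableOn_exp_mul_Iic (a := Real.sqrt 2) c_pos 0) (Real.sqrt 2 / 2))
        (fun z hz => ?_) measurableSet_Iic
      rw [abs_of_nonpos hz]
      congr 2
      ring
    · refine IntegrableOn.congr_fun (Integrable.const_mul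
        (integrableOn_exp_mul_Ioi (a := -Real.sqrt 2) (neg_lt_zero.2 c_pos) 0) (Real.sqrt 2 / 2))
        (fun z hz => ?_) measurableSet_Ioi
      rw [abs_of_pos hz]
      congr 2
      ring
  exact h1.2

theorem integrable_shift {G : ℝ → ℝ} {C : ℝ} (hG : Measurable G) (h0 : ∀ x, 0 ≤ G x)
    (hC : ∀ x, G x ≤ C) (x : ℝ) : Integrable (fun y => G (x + y)) Lap := by
  refine Integrable.mono' (integrable_const C) ?_ (Eventually.of_forall fun y => ?_)
  · exact (hG.comp (measurable_const_add x)).aestronglyMeasurable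
  · rw [Real.norm_eq_abs, abs_of_nonneg (h0 _)]
    exact hC _

theorem TT_nonneg {G : ℝ → ℝ} (h0 : ∀ x, 0 ≤ G x) (x : ℝ) : 0 ≤ TT G x :=
  integral_nonneg fun _ => h0 _

theorem TT_le {G : ℝ → ℝ} {C : ℝ} (hG : Measurable G) (h0 : ∀ x, 0 ≤ G x) (hC : ∀ x, G x ≤ C)
    (x : ℝ) : TT G x ≤ C * (Lap univ).toReal := by
  have h1 : TT G x ≤ ∫ _y, C ∂Lap :=
    integral_mono (integrable_shift hG h0 hC x) (integrable_const C) fun _ => hC _
  rw [integral_const, smul_eq_mul, mul_comm] at h1
  exact h1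

end Conv

open Conv in
theorem conv_zero (F : ℝ → ℝ) (C : ℝ) (h0 : ∀ x, 0 ≤ F x) (hC : ∀ x, F x ≤ C) (hF : Antitone F)
    (hlim : Tendsto F atTop (𝓝 0)) (hF2 : ∀ x, F x ≤ ∫ y, F (x + y) ∂Lap) : ∀ x, F x = 0 := by
  have hFm : Measurable F := hF.measurable
  -- first convolution
  obtain ⟨H, hH⟩ : ∃ H, H = TT F := ⟨_, rfl⟩
  have hHc : Continuous H := by rw [hH]; exact TT_cont hFm h0 hC
  have hH0 : ∀ x, 0 ≤ H x := fun x => by rw [hH]; exact TT_nonneg h0 x
  obtain ⟨C1, hC1⟩ : ∃ C1, ∀ x, H x ≤ C1 := ⟨_, fun x => by rw [hH]; exact TT_le hFm h0 hC x⟩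
  have hFH : ∀ x, F x ≤ H x := fun x => by rw [hH]; exact hF2 x
  -- second convolution
  obtain ⟨K, hK⟩ : ∃ K, K = TT H := ⟨_, rfl⟩
  have hK0 : ∀ x, 0 ≤ K x := fun x => by rw [hK]; exact TT_nonneg hH0 x
  obtain ⟨C2, hC2⟩ : ∃ C2, ∀ x, K x ≤ C2 :=
    ⟨_, fun x => by rw [hK]; exact TT_le hHc.measurable hH0 hC1 x⟩
  have hHK : ∀ x, H x ≤ K x := by
    intro x
    rw [hK]
    have h1 : H x = TT F x := by rw [hH]
    rw [h1]
    exact integral_mono (integrable_shift hFm h0 hC x)
      (integrable_shift hHc.measurable hH0 hC1 x) fun y => hFH _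
  have hKrep : K = fun x => Real.sqrt 2 / 2 * (ra H x + lb H x) := by
    rw [hK]
    exact funext (rep hHc.measurable hH0 hC1)
  obtain ⟨D, hD⟩ : ∃ D : ℝ → ℝ, D = fun x => ra H x - lb H x := ⟨_, rfl⟩
  have hKD : ∀ x, HasDerivAt K (D x) x := by
    intro x
    rw [hKrep, hD]
    refine (((ra_deriv hHc x).add (lb_deriv hHc x)).const_mul (Real.sqrt 2 / 2)).congr_deriv ?_
    simp only
    linear_combination (1 / 2 * (ra H x - lb H x)) * c_sq
  have hDD : ∀ x, HasDerivAt D (2 * (K x - H x)) x := by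
    intro x
    rw [hKrep, hD]
    refine ((ra_deriv hHc x).sub (lb_deriv hHc x)).congr_deriv ?_
    ring
  have hmono : Monotone D := by
    refine monotone_of_deriv_nonneg (fun x => (hDD x).differentiableAt) fun x => ?_
    rw [(hDD x).deriv]
    have := hHK x
    linarith
  have hKcont : ∀ s, ContinuousOn K s := fun s x _ => (hKD x).continuousAt.continuousWithinAt
  have hC2' : 0 ≤ C2 := (hK0 0).trans (hC2 0)
  have hDz : ∀ x, D x = 0 := by
    intro x
    by_contra hne
    rcases lt_or_gt_of_ne hne with h | h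
    · have hlt : x - (C2 + 1) / (-D x) < x := by
        have : 0 < (C2 + 1) / (-D x) := div_pos (by linarith) (by linarith)
        linarith
      obtain ⟨c, hc, hc2⟩ := exists_hasDerivAt_eq_slope K D hlt (hKcont _) fun z _ => hKD z
      have h1 : D c ≤ D x := hmono hc.2.le
      rw [hc2, sub_sub_cancel, div_le_iff₀ (div_pos (by linarith) (by linarith))] at h1
      have h2 : D x * ((C2 + 1) / (-D x)) = -(C2 + 1) := by
        field_simp
      rw [h2] at h1
      have h3 := hC2 (x - (C2 + 1) / (-D x))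
      have h4 := hK0 x
      linarith
    · have hlt : x < x + (C2 + 1) / D x := by
        have : 0 < (C2 + 1) / D x := div_pos (by linarith) h
        linarith
      obtain ⟨c, hc, hc2⟩ := exists_hasDerivAt_eq_slope K D hlt (hKcont _) fun z _ => hKD z
      have h1 : D x ≤ D c := hmono hc.1.le
      rw [hc2, add_sub_cancel_left, le_div_iff₀ (div_pos (by linarith) h)] at h1
      have h2 : D x * ((C2 + 1) / D x) = C2 + 1 := by
        field_simp
      rw [h2] at h1
      have h3 := hC2 (x + (C2 + 1) / D x)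
      have h4 := hK0 x
      linarith
  have hKH : ∀ x, K x = H x := by
    intro x
    have h1 : D = fun _ => 0 := funext hDz
    have h2 := hDD x
    rw [h1] at h2
    have h3 := h2.unique (hasDerivAt_const x (0 : ℝ))
    linarith
  have hconst : ∀ x y, K x = K y := by
    refine is_const_of_deriv_eq_zero (fun x => (hKD x).differentiableAt) fun x => ?_
    rw [(hKD x).deriv, hDz]
  have hHlim : Tendsto H atTop (𝓝 0) := by
    rw [hH]
    have h1 : Tendsto (fun x => ∫ y, F (x + y) ∂Lap) atTop (𝓝 (∫ _y, (0 : ℝ) ∂Lap)) := by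
      refine tendsto_integral_filter_of_dominated_convergence (fun _ => C) ?_ ?_
        (integrable_const C) ?_
      · exact Eventually.of_forall fun x => (hFm.comp (measurable_const_add x)).aestronglyMeasurable
      · refine Eventually.of_forall fun x => Eventually.of_forall fun y => ?_
        rw [Real.norm_eq_abs, abs_of_nonneg (h0 _)]
        exact hC _
      · refine Eventually.of_forall fun y => ?_
        exact hlim.comp (tendsto_atTop_add_const_right _ y tendsto_id)
    rw [integral_zero] at h1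
    exact h1
  intro x
  have h1 : Tendsto H atTop (𝓝 (H x)) := by
    have h2 : H = fun _ => H x := funext fun y => by rw [← hKH y, ← hKH x]; exact hconst y x
    rw [h2]
    exact tendsto_const_nhds
  have h2 := tendsto_nhds_unique h1 hHlim
  have h3 := hFH x
  have h4 := h0 x
  linarith

end Pool.Agent.H96.BB
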