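import Pool.Agent.H96.BB.Defs

/-! (E1): test functions of compact support. -/

set_option autoImplicit false

namespace Pool.Agent.H96.BB

open MeasureTheory ProbabilityTheory Filter Topology
open scoped ENNReal NNReal

namespace Cut

/-- the cutoff -/
noncomputable def S (t : ℝ) : ℝ := Real.smoothTransition (t - 1)

lemma S_smooth : ContDiff ℝ (⊤ : ℕ∞) S :=
  Real.smoothTransition.contDiff.comp (contDiff_id.sub contDiff_const)

lemma S_zero {t : ℝ} (h : t ≤ 1) : S t = 0 :=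
  Real.smoothTransition.zero_of_nonpos (by linarith)

lemma S_one {t : ℝ} (h : 2 ≤ t) : S t = 1 :=
  Real.smoothTransition.one_of_one_le (by linarith)

lemma S_abs (t : ℝ) : |S t| ≤ 1 := by
  unfold S
  rw [abs_of_nonneg (Real.smoothTransition.nonneg _)]
  exact Real.smoothTransition.le_one _

lemma S1_smooth : ContDiff ℝ (⊤ : ℕ∞) (deriv S) := (contDiff_infty_iff_deriv.1 S_smooth).2

lemma S2_smooth : ContDiff ℝ (⊤ : ℕ∞) (deriv (deriv S)) :=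
  (contDiff_infty_iff_deriv.1 S1_smooth).2

lemma S_deriv (t : ℝ) : HasDerivAt S (deriv S t) t :=
  ((contDiff_infty_iff_deriv.1 S_smooth).1 t).hasDerivAt

lemma S1_deriv (t : ℝ) : HasDerivAt (deriv S) (deriv (deriv S) t) t :=
  ((contDiff_infty_iff_deriv.1 S1_smooth).1 t).hasDerivAt

lemma S1_zero {t : ℝ} (h : t < 1 ∨ 2 < t) : deriv S t = 0 := by
  rcases h with h | h
  · have h1 : S =ᶠ[𝓝 t] fun _ => 0 := by
      filter_upwards [eventually_lt_nhds h] with s hs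
      exact S_zero hs.le
    rw [h1.deriv_eq]
    simp
  · have h1 : S =ᶠ[𝓝 t] fun _ => 1 := by
      filter_upwards [eventually_gt_nhds h] with s hs
      exact S_one hs.le
    rw [h1.deriv_eq]
    simp

lemma S2_zero {t : ℝ} (h : t < 1 ∨ 2 < t) : deriv (deriv S) t = 0 := by
  have h1 : deriv S =ᶠ[𝓝 t] fun _ => 0 := by
    rcases h with h | h
    · filter_upwards [eventually_lt_nhds h] with s hs
      exact S1_zero (Or.inl hs)
    · filter_upwards [eventually_gt_nhds h] with s hs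
      exact S1_zero (Or.inr hs)
  rw [h1.deriv_eq]
  simp

lemma S_bound : ∃ K : ℝ, 0 ≤ K ∧ ∀ t, |t * deriv S t| ≤ K ∧ |t ^ 2 * deriv (deriv S) t| ≤ K := by
  obtain ⟨K1, h1⟩ := (isCompact_Icc (a := (1 : ℝ)) (b := 2)).exists_bound_of_continuousOn
    (f := fun t => t * deriv S t) (continuous_id.mul S1_smooth.continuous).continuousOn
  obtain ⟨K2, h2⟩ := (isCompact_Icc (a := (1 : ℝ)) (b := 2)).exists_bound_of_continuousOn
    (f := fun t => t ^ 2 * deriv (deriv S) t)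
    ((continuous_pow 2).mul S2_smooth.continuous).continuousOn
  refine ⟨max 0 (max K1 K2), le_max_left _ _, fun t => ?_⟩
  by_cases ht : t ∈ Set.Icc (1 : ℝ) 2
  · exact ⟨(h1 t ht).trans ((le_max_left _ _).trans (le_max_right _ _)),
      (h2 t ht).trans ((le_max_right _ _).trans (le_max_right _ _))⟩
  · have h3 : t < 1 ∨ 2 < t := by
      rw [Set.mem_Icc, not_and_or, not_le, not_le] at ht
      exact ht
    rw [S1_zero h3, S2_zero h3]
    simp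

lemma second {S S1 S2 Y Y1 Y2 : ℝ → ℝ} (hS : ∀ t, HasDerivAt S (S1 t) t)
    (hS1 : ∀ t, HasDerivAt S1 (S2 t) t) (hY : ∀ t, HasDerivAt Y (Y1 t) t)
    (hY1 : ∀ t, HasDerivAt Y1 (Y2 t) t) {W W1 P P1 : ℝ → ℝ} {w2 p2 : ℝ}
    (hW : ∀ᶠ s in 𝓝 (0 : ℝ), HasDerivAt W (W1 s) s) (hW1 : HasDerivAt W1 w2 0)
    (hP : ∀ᶠ s in 𝓝 (0 : ℝ), HasDerivAt P (P1 s) s) (hP1 : HasDerivAt P1 p2 0) (n : ℝ) :
    deriv (deriv fun s => S (n * W s) * Y (P s)) 0 =
      (n * w2 * S1 (n * W 0) + n ^ 2 * W1 0 ^ 2 * S2 (n * W 0)) * Y (P 0) +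
      2 * (n * W1 0 * S1 (n * W 0)) * (Y1 (P 0) * P1 0) +
      S (n * W 0) * (Y2 (P 0) * P1 0 ^ 2 + Y1 (P 0) * p2) := by
  have h1 : (deriv fun s => S (n * W s) * Y (P s)) =ᶠ[𝓝 0]
      fun s => (S1 (n * W s) * (n * W1 s)) * Y (P s) + S (n * W s) * (Y1 (P s) * P1 s) := by
    filter_upwards [hW, hP] with s h2 h3
    have h4 : HasDerivAt (fun s => S (n * W s)) (S1 (n * W s) * (n * W1 s)) s :=
      (hS _).comp s (h2.const_mul n)
    have h5 : HasDerivAt (fun s => Y (P s)) (Y1 (P s) * P1 s) s := (hY _).comp s h3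
    have h6 : HasDerivAt (fun s => S (n * W s) * Y (P s))
      ((S1 (n * W s) * (n * W1 s)) * Y (P s) + S (n * W s) * (Y1 (P s) * P1 s)) s := h4.mul h5
    exact h6.deriv
  rw [h1.deriv_eq]
  have hW0 := hW.self_of_nhds
  have hP0 := hP.self_of_nhds
  have e1 : HasDerivAt (fun s => S1 (n * W s)) (S2 (n * W 0) * (n * W1 0)) 0 :=
    (hS1 _).comp 0 (hW0.const_mul n)
  have e2 : HasDerivAt (fun s => n * W1 s) (n * w2) 0 := hW1.const_mul n
  have e3 : HasDerivAt (fun s => Y (P s)) (Y1 (P 0) * P1 0) 0 := (hY _).comp 0 hP0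
  have e4 : HasDerivAt (fun s => S (n * W s)) (S1 (n * W 0) * (n * W1 0)) 0 :=
    (hS _).comp 0 (hW0.const_mul n)
  have e5 : HasDerivAt (fun s => Y1 (P s)) (Y2 (P 0) * P1 0) 0 := (hY1 _).comp 0 hP0
  have e : HasDerivAt
      (fun s => (S1 (n * W s) * (n * W1 s)) * Y (P s) + S (n * W s) * (Y1 (P s) * P1 s))
      (((S2 (n * W 0) * (n * W1 0)) * (n * W1 0) + S1 (n * W 0) * (n * w2)) * Y (P 0) +
        (S1 (n * W 0) * (n * W1 0)) * (Y1 (P 0) * P1 0) +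
        ((S1 (n * W 0) * (n * W1 0)) * (Y1 (P 0) * P1 0) +
          S (n * W 0) * ((Y2 (P 0) * P1 0) * P1 0 + Y1 (P 0) * p2))) 0 :=
    ((e1.mul e2).mul e3).add (e4.mul (e5.mul hP1))
  rw [e.deriv]
  ring

/-- the second derivative on a line -/
lemma line {S S1 S2 Y Y1 Y2 : ℝ → ℝ} (hS : ∀ t, HasDerivAt S (S1 t) t)
    (hS1 : ∀ t, HasDerivAt S1 (S2 t) t) (hY : ∀ t, HasDerivAt Y (Y1 t) t)
    (hY1 : ∀ t, HasDerivAt Y1 (Y2 t) t) (n x u c0 c1 w q : ℝ) (hw : c0 - x ^ 2 = w)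
    (hq : (u - x) ^ 2 + c1 = q) (hw0 : 0 < w) (hq0 : 0 < q) :
    deriv (deriv fun s => S (n * (c0 - (x + s) ^ 2)) *
      Y (Real.log (c0 - (x + s) ^ 2) - Real.log ((u - (x + s)) ^ 2 + c1))) 0 =
      (n * (-2) * S1 (n * w) + n ^ 2 * (-2 * x) ^ 2 * S2 (n * w)) *
        Y (Real.log w - Real.log q) +
      2 * (n * (-2 * x) * S1 (n * w)) * (Y1 (Real.log w - Real.log q) *
        (-2 * x / w - -2 * (u - x) / q)) +
      S (n * w) * (Y2 (Real.log w - Real.log q) * (-2 * x / w - -2 * (u - x) / q) ^ 2 +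
        Y1 (Real.log w - Real.log q) *
          ((-2 * w - (-2 * x) * (-2 * x)) / w ^ 2 -
            (2 * q - (-2 * (u - x)) * (-2 * (u - x))) / q ^ 2)) := by
  have hx : ∀ s : ℝ, HasDerivAt (fun s : ℝ => x + s) 1 s := fun s => (hasDerivAt_id s).const_add x
  have hW : ∀ s : ℝ, HasDerivAt (fun s : ℝ => c0 - (x + s) ^ 2) (-2 * (x + s)) s := fun s => by
    have h1 := ((hx s).pow 2).const_sub c0
    refine HasDerivAt.congr_deriv (f := fun s : ℝ => c0 - (x + s) ^ 2) h1 ?_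
    push_cast
    ring
  have hW1 : ∀ s : ℝ, HasDerivAt (fun s : ℝ => -2 * (x + s)) (-2) s := fun s => by
    have h1 := (hx s).const_mul (-2)
    refine HasDerivAt.congr_deriv (f := fun s : ℝ => -2 * (x + s)) h1 ?_
    ring
  have hQ : ∀ s : ℝ, HasDerivAt (fun s : ℝ => (u - (x + s)) ^ 2 + c1) (-2 * (u - (x + s))) s :=
    fun s => by
    have h1 := (((hx s).const_sub u).pow 2).add_const c1
    refine HasDerivAt.congr_deriv (f := fun s : ℝ => (u - (x + s)) ^ 2 + c1) h1 ?_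
    push_cast
    ring
  have hQ1 : ∀ s : ℝ, HasDerivAt (fun s : ℝ => -2 * (u - (x + s))) 2 s := fun s => by
    have h1 := ((hx s).const_sub u).const_mul (-2)
    refine HasDerivAt.congr_deriv (f := fun s : ℝ => -2 * (u - (x + s))) h1 ?_
    ring
  have hWp : ∀ᶠ s in 𝓝 (0 : ℝ), c0 - (x + s) ^ 2 ≠ 0 := by
    have h1 : ContinuousAt (fun s : ℝ => c0 - (x + s) ^ 2) 0 := (hW 0).continuousAt
    apply h1.eventually_ne
    simp only [add_zero]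
    rw [hw]
    exact hw0.ne'
  have hQp : ∀ᶠ s in 𝓝 (0 : ℝ), (u - (x + s)) ^ 2 + c1 ≠ 0 := by
    have h1 : ContinuousAt (fun s : ℝ => (u - (x + s)) ^ 2 + c1) 0 := (hQ 0).continuousAt
    apply h1.eventually_ne
    simp only [add_zero]
    rw [hq]
    exact hq0.ne'
  have hP : ∀ᶠ s in 𝓝 (0 : ℝ), HasDerivAt
      (fun s : ℝ => Real.log (c0 - (x + s) ^ 2) - Real.log ((u - (x + s)) ^ 2 + c1))
      (-2 * (x + s) / (c0 - (x + s) ^ 2) - -2 * (u - (x + s)) / ((u - (x + s)) ^ 2 + c1)) s := by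
    filter_upwards [hWp, hQp] with s h1 h2
    exact ((hW s).log h1).sub ((hQ s).log h2)
  have hP1 : HasDerivAt
      (fun s : ℝ => -2 * (x + s) / (c0 - (x + s) ^ 2) -
        -2 * (u - (x + s)) / ((u - (x + s)) ^ 2 + c1))
      ((-2 * w - (-2 * x) * (-2 * x)) / w ^ 2 -
            (2 * q - (-2 * (u - x)) * (-2 * (u - x))) / q ^ 2) 0 := by
    have h1 := ((hW1 0).div (hW 0) hWp.self_of_nhds).sub ((hQ1 0).div (hQ 0) hQp.self_of_nhds)
    refine HasDerivAt.congr_deriv (f := fun s : ℝ => -2 * (x + s) / (c0 - (x + s) ^ 2) -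
        -2 * (u - (x + s)) / ((u - (x + s)) ^ 2 + c1)) h1 ?_
    simp only [add_zero]
    rw [hw, hq]
  have h := second hS hS1 hY hY1 (Eventually.of_forall hW) (hW1 0) hP hP1 n
  simp only [add_zero] at h
  rw [hw, hq] at h
  exact h

section main

variable (η : ℂ) (Y : ℝ → ℝ)

/-- the test functions -/
noncomputable def F (n : ℕ) (z : ℂ) : ℝ :=
  S (n * (1 - ‖z‖ ^ 2)) * Y (Real.log (1 - ‖z‖ ^ 2) - Real.log (‖η - z‖ ^ 2))

lemma F_zero {n : ℕ} {z : ℂ} (h : n * (1 - ‖z‖ ^ 2) ≤ 1) : F η Y n z = 0 := by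
  unfold F
  rw [S_zero h, zero_mul]

lemma big {n : ℕ} {z : ℂ} (hz : 1 ≤ ‖z‖) : (n : ℝ) * (1 - ‖z‖ ^ 2) ≤ 0 := by
  have h1 : 1 ≤ ‖z‖ ^ 2 := by nlinarith
  have h2 : (0 : ℝ) ≤ n := Nat.cast_nonneg n
  nlinarith

lemma F_smooth (hη : ‖η‖ = 1) (hY : ContDiff ℝ (⊤ : ℕ∞) Y) (n : ℕ) :
    ContDiff ℝ (⊤ : ℕ∞) (F η Y n) := by
  rw [contDiff_iff_contDiffAt]
  intro z
  have hsq : ContDiff ℝ (⊤ : ℕ∞) fun z : ℂ => 1 - ‖z‖ ^ 2 :=
    contDiff_const.sub (contDiff_norm_sq ℝ)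
  have hsq2 : ContDiff ℝ (⊤ : ℕ∞) fun z : ℂ => ‖η - z‖ ^ 2 :=
    (contDiff_norm_sq ℝ).comp (contDiff_const.sub contDiff_id)
  rcases lt_or_ge ‖z‖ 1 with hz | hz
  · have h1 : 1 - ‖z‖ ^ 2 ≠ 0 := by
      have : 0 < 1 - ‖z‖ ^ 2 := by nlinarith [norm_nonneg z]
      exact this.ne'
    have h2 : ‖η - z‖ ^ 2 ≠ 0 := by
      have h3 : η - z ≠ 0 := by
        intro h
        rw [sub_eq_zero] at h
        rw [h] at hη
        linarith
      exact pow_ne_zero 2 (norm_ne_zero_iff.2 h3)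
    exact (S_smooth.contDiffAt.comp z (contDiffAt_const.mul hsq.contDiffAt)).mul
      (hY.contDiffAt.comp z ((hsq.contDiffAt.log h1).sub (hsq2.contDiffAt.log h2)))
  · have h1 : F η Y n =ᶠ[𝓝 z] fun _ => 0 := by
      have h2 : ∀ᶠ z' in 𝓝 z, (n : ℝ) * (1 - ‖z'‖ ^ 2) < 1 := by
        have h3 : ContinuousAt (fun z' : ℂ => (n : ℝ) * (1 - ‖z'‖ ^ 2)) z := by fun_prop
        exact h3.eventually_lt_const (lt_of_le_of_lt (big hz) one_pos)
      filter_upwards [h2] with z' hz'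
      exact F_zero η Y hz'.le
    exact contDiffAt_const.congr_of_eventuallyEq h1

lemma F_tsupport (n : ℕ) : tsupport (F η Y n) ⊆ {z : ℂ | 1 ≤ (n : ℝ) * (1 - ‖z‖ ^ 2)} := by
  refine closure_minimal (fun z hz => ?_) (isClosed_le continuous_const (by fun_prop))
  by_contra h
  exact hz (F_zero η Y (le_of_lt (not_le.1 h)))

lemma F_ball (n : ℕ) : tsupport (F η Y n) ⊆ Metric.ball 0 1 := by
  intro z hz
  have h1 := F_tsupport η Y n hz
  change 1 ≤ (n : ℝ) * (1 - ‖z‖ ^ 2) at h1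
  rw [mem_ball_zero_iff]
  by_contra h
  have h2 := big (n := n) (not_lt.1 h)
  linarith

lemma F_cpt (n : ℕ) : HasCompactSupport (F η Y n) :=
  (isCompact_closedBall (0 : ℂ) 1).of_isClosed_subset (isClosed_tsupport _)
    ((F_ball η Y n).trans Metric.ball_subset_closedBall)

lemma F_abs (hY : ∀ t, |Y t| ≤ 1) (n : ℕ) (z : ℂ) : |F η Y n z| ≤ 1 := by
  unfold F
  rw [abs_mul]
  exact mul_le_one₀ (S_abs _) (abs_nonneg _) (hY _)

/-- the hyperbolic Laplacian of the test functions -/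
lemma F_lap (hη : ‖η‖ = 1) {Y1 Y2 : ℝ → ℝ} (hY : ∀ t, HasDerivAt Y (Y1 t) t)
    (hY1 : ∀ t, HasDerivAt Y1 (Y2 t) t) (n : ℕ) {z : ℂ} (hz : ‖z‖ < 1) :
    ∃ T : ℝ, |T| ≤ 4 / (1 - ‖z‖ ^ 2) ∧ hypLap (F η Y n) z =
      (-(1 - ‖z‖ ^ 2) * (n * (1 - ‖z‖ ^ 2) * deriv S (n * (1 - ‖z‖ ^ 2))) +
        ‖z‖ ^ 2 * ((n * (1 - ‖z‖ ^ 2)) ^ 2 * deriv (deriv S) (n * (1 - ‖z‖ ^ 2)))) *
          Y (Real.log (pk z η)) +
      (1 - ‖z‖ ^ 2) / 2 * T * (n * (1 - ‖z‖ ^ 2) * deriv S (n * (1 - ‖z‖ ^ 2))) *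
        Y1 (Real.log (pk z η)) +
      S (n * (1 - ‖z‖ ^ 2)) * (Y2 (Real.log (pk z η)) - Y1 (Real.log (pk z η))) := by
  obtain ⟨x, y⟩ := z
  obtain ⟨u, v⟩ := η
  have hn : ∀ a b : ℝ, ‖(⟨a, b⟩ : ℂ)‖ ^ 2 = a ^ 2 + b ^ 2 := fun a b => by
    rw [Complex.sq_norm, Complex.normSq_apply]
    ring
  have huv : u ^ 2 + v ^ 2 = 1 := by rw [← hn, hη]; norm_num
  have hr : x ^ 2 + y ^ 2 < 1 := by
    rw [← hn]
    nlinarith [norm_nonneg (⟨x, y⟩ : ℂ)]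
  have hsub : (⟨u, v⟩ : ℂ) - ⟨x, y⟩ = ⟨u - x, v - y⟩ := rfl
  obtain ⟨w, hw⟩ : ∃ w, w = 1 - (x ^ 2 + y ^ 2) := ⟨_, rfl⟩
  obtain ⟨q, hq⟩ : ∃ q, q = (u - x) ^ 2 + (v - y) ^ 2 := ⟨_, rfl⟩
  have hw0 : 0 < w := by rw [hw]; linarith
  have hq0 : 0 < q := by
    rw [hq]
    by_contra h
    have h1 : u - x = 0 := by nlinarith [sq_nonneg (u - x), sq_nonneg (v - y)]
    have h2 : v - y = 0 := by nlinarith [sq_nonneg (u - x), sq_nonneg (v - y)]
    have h3 : u = x := by linarith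
    have h4 : v = y := by linarith
    rw [h3, h4] at huv
    linarith
  have hpk : Real.log (pk ⟨x, y⟩ ⟨u, v⟩) = Real.log w - Real.log q := by
    unfold pk
    rw [hsub, hn, hn, ← hw, ← hq, Real.log_div hw0.ne' hq0.ne']
  have ex : (fun s : ℝ => F ⟨u, v⟩ Y n ((⟨x, y⟩ : ℂ) + s)) = fun s : ℝ =>
      S (n * ((1 - y ^ 2) - (x + s) ^ 2)) *
        Y (Real.log ((1 - y ^ 2) - (x + s) ^ 2) - Real.log ((u - (x + s)) ^ 2 + (v - y) ^ 2)) := by
    funext s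
    have h1 : (⟨x, y⟩ : ℂ) + s = ⟨x + s, y⟩ := by
      apply Complex.ext <;> simp
    have h2 : (⟨u, v⟩ : ℂ) - ⟨x + s, y⟩ = ⟨u - (x + s), v - y⟩ := rfl
    unfold F
    rw [h1, h2, hn, hn, show 1 - ((x + s) ^ 2 + y ^ 2) = (1 - y ^ 2) - (x + s) ^ 2 by ring]
  have ey : (fun s : ℝ => F ⟨u, v⟩ Y n ((⟨x, y⟩ : ℂ) + s * Complex.I)) = fun s : ℝ =>
      S (n * ((1 - x ^ 2) - (y + s) ^ 2)) *
        Y (Real.log ((1 - x ^ 2) - (y + s) ^ 2) - Real.log ((v - (y + s)) ^ 2 + (u - x) ^ 2)) := by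
    funext s
    have h1 : (⟨x, y⟩ : ℂ) + s * Complex.I = ⟨x, y + s⟩ := by
      apply Complex.ext <;> simp
    have h2 : (⟨u, v⟩ : ℂ) - ⟨x, y + s⟩ = ⟨u - x, v - (y + s)⟩ := rfl
    unfold F
    rw [h1, h2, hn, hn, show 1 - (x ^ 2 + (y + s) ^ 2) = (1 - x ^ 2) - (y + s) ^ 2 by ring,
      add_comm ((u - x) ^ 2)]
  have Lx := line S_deriv S1_deriv hY hY1 n x u (1 - y ^ 2) ((v - y) ^ 2) w q
    (by rw [hw]; ring) (by rw [hq]) hw0 hq0
  have Ly := line S_deriv S1_deriv hY hY1 n y v (1 - x ^ 2) ((u - x) ^ 2) w q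
    (by rw [hw]; ring) (by rw [hq]; ring) hw0 hq0
  have key : q = w - 2 * (x * (u - x) + y * (v - y)) := by
    rw [hq, hw]
    linear_combination huv
  have hPP : (-2 * x / w - -2 * (u - x) / q) ^ 2 + (-2 * y / w - -2 * (v - y) / q) ^ 2 =
      4 / w ^ 2 := by
    have h1 : -2 * x / w - -2 * (u - x) / q = 2 * ((u - x) * w - x * q) / (w * q) := by
      field_simp
      ring
    have h2 : -2 * y / w - -2 * (v - y) / q = 2 * ((v - y) * w - y * q) / (w * q) := by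
      field_simp
      ring
    have h3 : ((u - x) * w - x * q) ^ 2 + ((v - y) * w - y * q) ^ 2 = q ^ 2 := by
      have h4 : ((u - x) * w - x * q) ^ 2 + ((v - y) * w - y * q) ^ 2 =
          ((u - x) ^ 2 + (v - y) ^ 2) * w ^ 2 - 2 * w * q * (x * (u - x) + y * (v - y)) +
            (x ^ 2 + y ^ 2) * q ^ 2 := by ring
      have h5 : x ^ 2 + y ^ 2 = 1 - w := by rw [hw]; ring
      have h6 : 2 * (x * (u - x) + y * (v - y)) = w - q := by linarith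
      rw [h4, ← hq, h5]
      linear_combination (-w * q) * h6
    rw [h1, h2, div_pow, div_pow, ← add_div]
    have h7 : (2 * ((u - x) * w - x * q)) ^ 2 + (2 * ((v - y) * w - y * q)) ^ 2 = 4 * q ^ 2 := by
      linear_combination 4 * h3
    rw [h7]
    field_simp
  have hp2 : ((-2 * w - (-2 * x) * (-2 * x)) / w ^ 2 -
        (2 * q - (-2 * (u - x)) * (-2 * (u - x))) / q ^ 2) +
      ((-2 * w - (-2 * y) * (-2 * y)) / w ^ 2 -
        (2 * q - (-2 * (v - y)) * (-2 * (v - y))) / q ^ 2) = -4 / w ^ 2 := by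
    have h5 : x ^ 2 + y ^ 2 = 1 - w := by rw [hw]; ring
    have h6 : ((-2 * w - (-2 * x) * (-2 * x)) / w ^ 2 -
        (2 * q - (-2 * (u - x)) * (-2 * (u - x))) / q ^ 2) +
      ((-2 * w - (-2 * y) * (-2 * y)) / w ^ 2 -
        (2 * q - (-2 * (v - y)) * (-2 * (v - y))) / q ^ 2) =
        (-4 * w - 4 * (x ^ 2 + y ^ 2)) / w ^ 2 -
          (4 * q - 4 * ((u - x) ^ 2 + (v - y) ^ 2)) / q ^ 2 := by ring
    rw [h6, ← hq, h5]
    ring
  obtain ⟨T, hT⟩ : ∃ T, T = (-2 * x) * (-2 * x / w - -2 * (u - x) / q) +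
      (-2 * y) * (-2 * y / w - -2 * (v - y) / q) := ⟨_, rfl⟩
  refine ⟨T, ?_, ?_⟩
  · rw [hn, ← hw]
    apply abs_le_of_sq_le_sq _ (by positivity)
    have h1 : T ^ 2 ≤ ((-2 * x) ^ 2 + (-2 * y) ^ 2) *
        ((-2 * x / w - -2 * (u - x) / q) ^ 2 + (-2 * y / w - -2 * (v - y) / q) ^ 2) := by
      rw [hT]
      nlinarith [sq_nonneg ((-2 * x) * (-2 * y / w - -2 * (v - y) / q) -
        (-2 * y) * (-2 * x / w - -2 * (u - x) / q))]
    rw [hPP] at h1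
    refine h1.trans ?_
    have h2 : (-2 * x) ^ 2 + (-2 * y) ^ 2 ≤ 4 := by nlinarith
    calc ((-2 * x) ^ 2 + (-2 * y) ^ 2) * (4 / w ^ 2) ≤ 4 * (4 / w ^ 2) := by gcongr
      _ = (4 / w) ^ 2 := by rw [div_pow]; ring
  · unfold hypLap
    rw [ex, ey, Lx, Ly, hpk, hn, ← hw]
    have h5 : x ^ 2 + y ^ 2 = 1 - w := by rw [hw]; ring
    generalize Real.log w - Real.log q = p
    generalize deriv S (n * w) = s1
    generalize deriv (deriv S) (n * w) = s2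
    generalize S (n * w) = s0
    generalize -2 * x / w - -2 * (u - x) / q = px at *
    generalize -2 * y / w - -2 * (v - y) / q = py at *
    generalize ((-2 * w - (-2 * x) * (-2 * x)) / w ^ 2 -
        (2 * q - (-2 * (u - x)) * (-2 * (u - x))) / q ^ 2) = pxx at *
    generalize ((-2 * w - (-2 * y) * (-2 * y)) / w ^ 2 -
        (2 * q - (-2 * (v - y)) * (-2 * (v - y))) / q ^ 2) = pyy at *
    have h8 : w ^ 2 * (px ^ 2 + py ^ 2) = 4 := by rw [hPP]; field_simp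
    have h9 : w ^ 2 * (pxx + pyy) = -4 := by rw [hp2]; field_simp
    rw [hT]
    linear_combination (s0 * Y2 p / 4) * h8 + (s0 * Y1 p / 4) * h9 +
      (w ^ 2 * n ^ 2 * s2 * Y p) * h5 - (w ^ 2 * n ^ 2 * s2 * Y p) * h5

lemma log_pk (hη : ‖η‖ = 1) {z : ℂ} (hz : ‖z‖ < 1) :
    Real.log (pk z η) = Real.log (1 - ‖z‖ ^ 2) - Real.log (‖η - z‖ ^ 2) := by
  have h1 : 0 < 1 - ‖z‖ ^ 2 := by nlinarith [norm_nonneg z]
  have h2 : ‖η - z‖ ^ 2 ≠ 0 := by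
    have h3 : η - z ≠ 0 := by
      intro h
      rw [sub_eq_zero] at h
      rw [h] at hη
      linarith
    exact pow_ne_zero 2 (norm_ne_zero_iff.2 h3)
  unfold pk
  rw [Real.log_div h1.ne' h2]

lemma F_lap_bd (hη : ‖η‖ = 1) {Y1 Y2 : ℝ → ℝ} (hY : ∀ t, HasDerivAt Y (Y1 t) t)
    (hY1 : ∀ t, HasDerivAt Y1 (Y2 t) t) {K θ : ℝ}
    (hK : ∀ t, |t * deriv S t| ≤ K ∧ |t ^ 2 * deriv (deriv S) t| ≤ K)
    (b0 : ∀ t, |Y t| ≤ 1) (b1 : ∀ t, |Y1 t| ≤ |θ|) (b2 : ∀ t, |Y2 t| ≤ θ ^ 2)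
    (n : ℕ) {z : ℂ} (hz : ‖z‖ < 1) :
    |hypLap (F η Y n) z| ≤ 2 * K + 2 * K * |θ| + (θ ^ 2 + |θ|) := by
  obtain ⟨T, hT, h⟩ := F_lap η Y hη hY hY1 n hz
  rw [h]
  obtain ⟨w, hw⟩ : ∃ w, w = 1 - ‖z‖ ^ 2 := ⟨_, rfl⟩
  have hr : ‖z‖ ^ 2 = 1 - w := by rw [hw]; ring
  have hw0 : 0 < w := by rw [hw]; nlinarith [norm_nonneg z]
  have hw1 : w ≤ 1 := by rw [hw]; nlinarith [sq_nonneg ‖z‖]
  rw [← hw] at hT ⊢
  rw [hr]
  obtain ⟨hA, hB⟩ := hK (n * w)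
  generalize (n : ℝ) * w * deriv S (n * w) = A at *
  generalize ((n : ℝ) * w) ^ 2 * deriv (deriv S) (n * w) = B at *
  generalize Real.log (pk z η) = p
  have hK0 : 0 ≤ K := (abs_nonneg A).trans hA
  have e1 : |(-w * A + (1 - w) * B) * Y p| ≤ 2 * K := by
    rw [abs_mul]
    have h1 : |-w * A + (1 - w) * B| ≤ 2 * K := by
      refine (abs_add_le _ _).trans ?_
      rw [abs_mul, abs_mul, abs_neg, abs_of_pos hw0, abs_of_nonneg (by linarith : 0 ≤ 1 - w)]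
      have h2 : w * |A| ≤ 1 * K := by gcongr
      have h3 : (1 - w) * |B| ≤ 1 * K := by
        apply mul_le_mul _ hB (abs_nonneg _) (by norm_num)
        linarith
      linarith
    calc |-w * A + (1 - w) * B| * |Y p| ≤ (2 * K) * 1 := by
          apply mul_le_mul h1 (b0 p) (abs_nonneg _) (by positivity)
      _ = 2 * K := by ring
  have e2 : |w / 2 * T * A * Y1 p| ≤ 2 * K * |θ| := by
    rw [abs_mul, abs_mul, abs_mul, abs_of_pos (by positivity : 0 < w / 2)]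
    have h1 : w / 2 * |T| ≤ 2 := by
      calc w / 2 * |T| ≤ w / 2 * (4 / w) := by gcongr
        _ = 2 := by field_simp; norm_num
    exact mul_le_mul (mul_le_mul h1 hA (abs_nonneg _) (by norm_num)) (b1 p) (abs_nonneg _)
      (by positivity)
  have e3 : |S (n * w) * (Y2 p - Y1 p)| ≤ θ ^ 2 + |θ| := by
    rw [abs_mul]
    have h0 : |Y2 p - Y1 p| ≤ |Y2 p| + |Y1 p| := by
      rw [sub_eq_add_neg, ← abs_neg (Y1 p)]
      exact abs_add_le _ _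
    have h1 : |Y2 p - Y1 p| ≤ θ ^ 2 + |θ| := h0.trans (add_le_add (b2 p) (b1 p))
    have h2 : |S (n * w)| * |Y2 p - Y1 p| ≤ 1 * (θ ^ 2 + |θ|) :=
      mul_le_mul (S_abs _) h1 (abs_nonneg _) (by norm_num)
    rw [one_mul] at h2
    exact h2
  exact (abs_add_le _ _).trans (add_le_add ((abs_add_le _ _).trans (add_le_add e1 e2)) e3)

lemma F_lim (hη : ‖η‖ = 1) {Y1 Y2 : ℝ → ℝ} (hY : ∀ t, HasDerivAt Y (Y1 t) t)
    (hY1 : ∀ t, HasDerivAt Y1 (Y2 t) t) {z : ℂ} (hz : ‖z‖ < 1) :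
    Tendsto (fun n => F η Y n z) atTop (𝓝 (Y (Real.log (pk z η)))) ∧
    Tendsto (fun n => hypLap (F η Y n) z) atTop
      (𝓝 (Y2 (Real.log (pk z η)) - Y1 (Real.log (pk z η)))) := by
  have hw0 : 0 < 1 - ‖z‖ ^ 2 := by nlinarith [norm_nonneg z]
  have hev : ∀ᶠ n : ℕ in atTop, 2 < (n : ℝ) * (1 - ‖z‖ ^ 2) :=
    (tendsto_natCast_atTop_atTop.atTop_mul_const hw0).eventually_gt_atTop 2
  constructor
  · refine tendsto_const_nhds.congr' ?_
    filter_upwards [hev] with n hn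
    unfold F
    rw [S_one hn.le, one_mul, log_pk η hη hz]
  · refine tendsto_const_nhds.congr' ?_
    filter_upwards [hev] with n hn
    obtain ⟨T, hT, h⟩ := F_lap η Y hη hY hY1 n hz
    rw [h, S1_zero (Or.inr hn), S2_zero (Or.inr hn), S_one hn.le]
    ring

end main

end Cut

open Cut in
theorem cutoff (η : ℂ) (hη : ‖η‖ = 1) (θ : ℝ) :
    ∃ (C : ℝ) (f g : ℕ → ℂ → ℝ), (∀ n, ContDiff ℝ (⊤ : ℕ∞) (f n) ∧ HasCompactSupport (f n) ∧
        tsupport (f n) ⊆ Metric.ball 0 1 ∧ ContDiff ℝ (⊤ : ℕ∞) (g n) ∧ HasCompactSupport (g n) ∧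
        tsupport (g n) ⊆ Metric.ball 0 1) ∧
      (∀ n z, ‖z‖ < 1 → |f n z| ≤ 1 ∧ |g n z| ≤ 1 ∧ |hypLap (f n) z| ≤ C ∧ |hypLap (g n) z| ≤ C) ∧
      ∀ z, ‖z‖ < 1 →
        Tendsto (fun n => f n z) atTop (𝓝 (Real.cos (θ * Real.log (pk z η)))) ∧
        Tendsto (fun n => g n z) atTop (𝓝 (Real.sin (θ * Real.log (pk z η)))) ∧
        Tendsto (fun n => hypLap (f n) z) atTop (𝓝 (-θ ^ 2 * Real.cos (θ * Real.log (pk z η))
          + θ * Real.sin (θ * Real.log (pk z η)))) ∧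
        Tendsto (fun n => hypLap (g n) z) atTop (𝓝 (-θ ^ 2 * Real.sin (θ * Real.log (pk z η))
          - θ * Real.cos (θ * Real.log (pk z η)))) := by
  obtain ⟨K, hK0, hK⟩ := S_bound
  have hl : ∀ t : ℝ, HasDerivAt (fun t : ℝ => θ * t) θ t := fun t => by
    simpa using (hasDerivAt_id t).const_mul θ
  have c0 : ∀ t : ℝ, HasDerivAt (fun t : ℝ => Real.cos (θ * t)) (-θ * Real.sin (θ * t)) t :=
    fun t => by
    refine HasDerivAt.congr_deriv (f := fun t : ℝ => Real.cos (θ * t)) ((hl t).cos) ?_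
    ring
  have s0 : ∀ t : ℝ, HasDerivAt (fun t : ℝ => Real.sin (θ * t)) (θ * Real.cos (θ * t)) t :=
    fun t => by
    refine HasDerivAt.congr_deriv (f := fun t : ℝ => Real.sin (θ * t)) ((hl t).sin) ?_
    ring
  have c1 : ∀ t : ℝ, HasDerivAt (fun t : ℝ => -θ * Real.sin (θ * t))
      (-θ ^ 2 * Real.cos (θ * t)) t := fun t => by
    refine HasDerivAt.congr_deriv (f := fun t : ℝ => -θ * Real.sin (θ * t))
      ((s0 t).const_mul (-θ)) ?_
    ring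
  have s1 : ∀ t : ℝ, HasDerivAt (fun t : ℝ => θ * Real.cos (θ * t))
      (-θ ^ 2 * Real.sin (θ * t)) t := fun t => by
    refine HasDerivAt.congr_deriv (f := fun t : ℝ => θ * Real.cos (θ * t))
      ((c0 t).const_mul θ) ?_
    ring
  have cs : ContDiff ℝ (⊤ : ℕ∞) (fun t : ℝ => Real.cos (θ * t)) :=
    Real.contDiff_cos.comp (contDiff_const.mul contDiff_id)
  have ss : ContDiff ℝ (⊤ : ℕ∞) (fun t : ℝ => Real.sin (θ * t)) :=
    Real.contDiff_sin.comp (contDiff_const.mul contDiff_id)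
  have bc : ∀ t : ℝ, |Real.cos (θ * t)| ≤ 1 := fun t => Real.abs_cos_le_one _
  have bs : ∀ t : ℝ, |Real.sin (θ * t)| ≤ 1 := fun t => Real.abs_sin_le_one _
  have bc1 : ∀ t : ℝ, |-θ * Real.sin (θ * t)| ≤ |θ| := fun t => by
    rw [abs_mul, abs_neg]
    exact mul_le_of_le_one_right (abs_nonneg _) (bs t)
  have bs1 : ∀ t : ℝ, |θ * Real.cos (θ * t)| ≤ |θ| := fun t => by
    rw [abs_mul]
    exact mul_le_of_le_one_right (abs_nonneg _) (bc t)
  have bc2 : ∀ t : ℝ, |-θ ^ 2 * Real.cos (θ * t)| ≤ θ ^ 2 := fun t => by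
    rw [abs_mul, abs_neg, abs_of_nonneg (sq_nonneg θ)]
    exact mul_le_of_le_one_right (sq_nonneg _) (bc t)
  have bs2 : ∀ t : ℝ, |-θ ^ 2 * Real.sin (θ * t)| ≤ θ ^ 2 := fun t => by
    rw [abs_mul, abs_neg, abs_of_nonneg (sq_nonneg θ)]
    exact mul_le_of_le_one_right (sq_nonneg _) (bs t)
  refine ⟨2 * K + 2 * K * |θ| + (θ ^ 2 + |θ|), F η (fun t => Real.cos (θ * t)),
    F η (fun t => Real.sin (θ * t)), fun n => ⟨F_smooth η _ hη cs n, F_cpt η _ n, F_ball η _ n,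
      F_smooth η _ hη ss n, F_cpt η _ n, F_ball η _ n⟩,
    fun n z hz => ⟨F_abs η _ bc n z, F_abs η _ bs n z,
      F_lap_bd η _ hη c0 c1 hK bc bc1 bc2 n hz, F_lap_bd η _ hη s0 s1 hK bs bs1 bs2 n hz⟩,
    fun z hz => ?_⟩
  obtain ⟨h1, h2⟩ := F_lim η _ hη c0 c1 hz
  obtain ⟨h3, h4⟩ := F_lim η _ hη s0 s1 hz
  refine ⟨h1, h3, ?_, h4⟩
  have h5 : -θ ^ 2 * Real.cos (θ * Real.log (pk z η)) + θ * Real.sin (θ * Real.log (pk z η)) =
      -θ ^ 2 * Real.cos (θ * Real.log (pk z η)) - -θ * Real.sin (θ * Real.log (pk z η)) := by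
    ring
  rw [h5]
  exact h2

end Pool.Agent.H96.BB
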