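import Mathlib

/-!
# Hyperbolic branching Brownian motion (branching rate `1/2`): definitions
-/

namespace Pool.Agent.H96.BB

open MeasureTheory ProbabilityTheory Filter Topology
open scoped ENNReal NNReal

/-- The hyperbolic Laplacian of the Poincare disk, `(1 - |z|^2)^2 / 4 (∂_x^2 + ∂_y^2)`. -/
noncomputable def hypLap (f : ℂ → ℝ) (z : ℂ) : ℝ :=
  (1 - ‖z‖ ^ 2) ^ 2 / 4 *
    (deriv (deriv fun s : ℝ => f (z + s)) 0 + deriv (deriv fun s : ℝ => f (z + s * Complex.I)) 0)

/-- `B` is a hyperbolic Brownian motion in the Poincare disk started at `0`: it has continuous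
paths in the open disk and solves the martingale problem for `1/2` times the hyperbolic Laplacian
with the smooth test functions of compact support in the disk. -/
structure IsHypBM {E : Type*} [mE : MeasurableSpace E] (Q : Measure E) (B : ℝ≥0 → E → ℂ) :
    Prop where
  meas : ∀ t, Measurable (B t)
  cont : ∀ e, Continuous fun t => B t e
  disk : ∀ t e, ‖B t e‖ < 1
  zero : ∀ e, B 0 e = 0
  mart : ∃ F : Filtration ℝ≥0 mE, (∀ t, StronglyMeasurable[F t] (B t)) ∧
    ∀ f : ℂ → ℝ, ContDiff ℝ (⊤ : ℕ∞) f → HasCompactSupport f → tsupport f ⊆ Metric.ball 0 1 →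
      Martingale (fun (t : ℝ≥0) e => f (B t e) -
        ∫ s in (0 : ℝ)..t, 1 / 2 * hypLap f (B s.toNNReal e)) F Q

/-- The isometry `w ↦ (w + z) / (1 + conj z w)` of the disk, which takes `0` to `z`. -/
noncomputable def mob (z w : ℂ) : ℂ := (w + z) / (1 + (starRingEnd ℂ) z * w)

/-- A sample: every label `u` (a word in two letters) has a lifetime and a point of `E`, which
determines the displacement path. -/
abbrev Smp (E : Type*) := List Bool → ℝ × E

/-- The sample of the subtree of the child `b` of the first particle. -/
def shift {E : Type*} (b : Bool) (ω : Smp E) : Smp E := fun u => ω (b :: u)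

/-- The joint law of the lifetime (exponential with rate `1/2`) and of the displacement path
(given by `Q`) of one particle. -/
noncomputable def one {E : Type*} [MeasurableSpace E] (Q : Measure E) : Measure (ℝ × E) :=
  (expMeasure (1 / 2)).prod Q

instance {E : Type*} [MeasurableSpace E] (Q : Measure E) [IsProbabilityMeasure Q] :
    IsProbabilityMeasure (one Q) := by
  haveI : IsProbabilityMeasure (expMeasure (1 / 2)) := isProbabilityMeasure_expMeasure (by norm_num)
  unfold one
  infer_instance

/-- The law of the samples: the pairs (lifetime, path) of the particles are independent with the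
same law `one Q`. -/
noncomputable def law {E : Type*} [MeasurableSpace E] (Q : Measure E) [IsProbabilityMeasure Q] :
    Measure (Smp E) :=
  Measure.infinitePi fun _ : List Bool => one Q

instance {E : Type*} [MeasurableSpace E] (Q : Measure E) [IsProbabilityMeasure Q] :
    IsProbabilityMeasure (law Q) := by
  unfold law
  infer_instance

/-- Particle `u` is alive at time `t`: the first particle is alive during `[0, τ)`, where `τ` is
its lifetime, and then the subtrees of its two children start. -/
def Alive {E : Type*} : List Bool → Smp E → ℝ → Prop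
  | [], ω, t => 0 ≤ t ∧ t < (ω []).1
  | b :: u, ω, t => Alive u (shift b ω) (t - (ω []).1)

/-- The position of particle `u` at time `t`: the first particle follows its path `B`; the
subtrees of its two children are independent branching motions started at `0`, transported by
the isometry which takes `0` to the position at which the first particle splits. -/
noncomputable def pos {E : Type*} (B : ℝ≥0 → E → ℂ) : List Bool → Smp E → ℝ → ℂ
  | [], ω, t => B t.toNNReal (ω []).2
  | b :: u, ω, t => mob (B (ω []).1.toNNReal (ω []).2) (pos B u (shift b ω) (t - (ω []).1))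

open Classical in
/-- The number of particles alive at time `t`. -/
noncomputable def cnt {E : Type*} (ω : Smp E) (t : ℝ) : ℝ≥0∞ :=
  ∑' u : List Bool, if Alive u ω t then 1 else 0

open Classical in
/-- The sum of the unit masses at the positions of the particles alive at time `t`. -/
noncomputable def raw {E : Type*} (B : ℝ≥0 → E → ℂ) (ω : Smp E) (t : ℝ) : Measure ℂ :=
  Measure.sum fun u : List Bool => if Alive u ω t then Measure.dirac (pos B u ω t) else 0

/-- The normalised empirical measure `μ_t` of the particles alive at time `t`. -/
noncomputable def emp {E : Type*} (B : ℝ≥0 → E → ℂ) (ω : Smp E) (t : ℝ) : Measure ℂ :=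
  (cnt ω t)⁻¹ • raw B ω t

/-- Weak convergence of measures on the plane (as `t → ∞` over the reals). -/
def WeakLim (μ : ℝ → Measure ℂ) (ν : Measure ℂ) : Prop :=
  ∀ φ : ℂ → ℝ, Continuous φ → (∃ C, ∀ z, |φ z| ≤ C) →
    Tendsto (fun t => ∫ z, φ z ∂(μ t)) atTop (𝓝 (∫ z, φ z ∂ν))

/-- Arc length on the unit circle, as a measure on the plane. -/
noncomputable def arc : Measure ℂ :=
  Measure.map (circleMap 0 1) (volume.restrict (Set.Ioc 0 (2 * Real.pi)))

/-- The Poisson kernel. -/
noncomputable def pk (z η : ℂ) : ℝ := (1 - ‖z‖ ^ 2) / ‖η - z‖ ^ 2

/-- The two-sided exponential law with variance `1`. -/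
noncomputable def Lap : Measure ℝ :=
  volume.withDensity fun y => ENNReal.ofReal (Real.sqrt 2 / 2 * Real.exp (-(Real.sqrt 2 * |y|)))

end Pool.Agent.H96.BB
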