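import Pool.Agent.H96.BB.Mob

/-!
# Recursion of densities
-/

namespace Pool.Agent.H96.BB

open MeasureTheory ProbabilityTheory Filter Topology
open scoped ENNReal NNReal

theorem dens_circle : ∀ᵐ ξ ∂arc, ‖ξ‖ = 1 := by
  unfold arc
  rw [ae_map_iff (continuous_circleMap 0 1).aemeasurable
    (measurableSet_eq_fun measurable_norm measurable_const)]
  exact ae_of_all _ fun θ => by simp

theorem dens_finite : IsFiniteMeasure arc := by
  unfold arc
  infer_instance

theorem dens_pk_meas (z : ℂ) : Measurable (pk z) := by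
  unfold pk
  fun_prop

theorem dens_pk_pos {z : ℂ} (hz : ‖z‖ < 1) {w : ℂ} (hw : ‖w‖ = 1) : 0 < pk z w := by
  unfold pk
  apply div_pos
  · nlinarith [norm_nonneg z]
  · apply pow_pos
    rw [norm_pos_iff, sub_ne_zero]
    rintro rfl
    linarith

theorem dens_ae_mob {z : ℂ} (hz : ‖z‖ < 1) {p : ℂ → Prop} (h : ∀ᵐ ξ ∂arc, p ξ) :
    ∀ᵐ ξ ∂arc, p (mob z ξ) := by
  set N := toMeasurable arc {ξ | ¬ p ξ} with hN
  have hNm : MeasurableSet N := measurableSet_toMeasurable _ _
  have hN0 : arc N = 0 := by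
    rw [hN, measure_toMeasurable]
    exact h
  have h1 := arc_mob z hz (N.indicator 1) (measurable_one.indicator hNm)
  rw [lintegral_indicator_one hNm, hN0] at h1
  have h2 : Measurable fun ξ => N.indicator (1 : ℂ → ℝ≥0∞) (mob z ξ) * ENNReal.ofReal (pk (-z) ξ) :=
    ((measurable_one.indicator hNm).comp (mob_meas z)).mul (dens_pk_meas (-z)).ennreal_ofReal
  have h3 := (lintegral_eq_zero_iff h2).1 h1.symm
  filter_upwards [h3, dens_circle] with ξ hξ hc
  by_contra hp
  have h4 : mob z ξ ∈ N := subset_toMeasurable _ _ hp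
  have h5 : N.indicator (1 : ℂ → ℝ≥0∞) (mob z ξ) * ENNReal.ofReal (pk (-z) ξ) = 0 := hξ
  rw [Set.indicator_of_mem h4, Pi.one_apply, one_mul, ENNReal.ofReal_eq_zero] at h5
  exact absurd (dens_pk_pos (by rwa [norm_neg]) hc) (not_lt.2 h5)

theorem dens_pk_mob_pos {z : ℂ} (hz : ‖z‖ < 1) {w : ℂ} (hw : ‖w‖ = 1) : 0 < pk z (mob z w) := by
  have h1 := pk_mob z hz w hw
  have h2 : 0 < pk (-z) w := dens_pk_pos (by rwa [norm_neg]) hw
  by_contra h
  push Not at h
  nlinarith [mul_nonneg (neg_nonneg.2 h) h2.le]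

theorem dens_rec (z : ℂ) (hz : ‖z‖ < 1) (c : ℝ) (hc : 0 < c) (ν₀ ν₁ : Measure ℂ)
    [IsFiniteMeasure ν₀] [IsFiniteMeasure ν₁] (h₀ : ν₀ (Metric.sphere 0 1)ᶜ = 0)
    (h₁ : ν₁ (Metric.sphere 0 1)ᶜ = 0) :
    ∀ᵐ ξ ∂arc, (ENNReal.ofReal c • (ν₀ + ν₁).map (mob z)).rnDeriv arc (mob z ξ) *
        ENNReal.ofReal (pk (-z) ξ) =
      ENNReal.ofReal c * (ν₀.rnDeriv arc ξ + ν₁.rnDeriv arc ξ) := by
  have := dens_finite
  have hz' : ‖-z‖ < 1 := by rwa [norm_neg]
  set ν := ν₀ + ν₁ with hν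
  have hνc : ν (Metric.sphere 0 1)ᶜ = 0 := by
    rw [hν, Measure.add_apply, h₀, h₁, add_zero]
  set f := ν.rnDeriv arc with hf
  have hfm : Measurable f := Measure.measurable_rnDeriv _ _
  set σ := ν.singularPart arc with hσ
  have hdec : ν = σ + arc.withDensity f := Measure.haveLebesgueDecomposition_add ν arc
  set g : ℂ → ℝ≥0∞ := fun η => f (mob (-z) η) * ENNReal.ofReal (pk z η) with hg
  have hgm : Measurable g := (hfm.comp (mob_meas _)).mul (dens_pk_meas z).ennreal_ofReal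
  -- the singular part
  have hsing : σ.map (mob z) ⟂ₘ arc := by
    obtain ⟨s, hs, hs1, hs2⟩ := Measure.mutuallySingular_singularPart ν arc
    refine ⟨mob (-z) ⁻¹' s, mob_meas _ hs, ?_, ?_⟩
    · rw [Measure.map_apply (mob_meas z) (mob_meas _ hs)]
      have hσc : σ (Metric.sphere 0 1)ᶜ = 0 :=
        le_antisymm ((Measure.singularPart_le ν arc _).trans hνc.le) bot_le
      apply measure_eq_zero_iff_ae_notMem.2
      filter_upwards [measure_eq_zero_iff_ae_notMem.1 hσc, measure_eq_zero_iff_ae_notMem.1 hs1]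
        with w hw hws hmem
      apply hws
      have hw1 : ‖w‖ = 1 := by
        rw [Set.notMem_compl_iff, mem_sphere_zero_iff_norm] at hw
        exact hw
      have h2 : mob (-z) (mob z w) ∈ s := hmem
      rwa [mob_inv z hz w hw1.le] at h2
    · have h1 : ∀ᵐ w ∂arc, w ∈ s := hs2
      exact dens_ae_mob hz' h1
  -- the absolutely continuous part
  have hac : (arc.withDensity f).map (mob z) = arc.withDensity g := by
    ext t ht
    rw [Measure.map_apply (mob_meas z) ht, withDensity_apply _ (mob_meas z ht),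
      withDensity_apply _ ht, ← lintegral_indicator (mob_meas z ht), ← lintegral_indicator ht,
      arc_mob z hz (t.indicator g) (hgm.indicator ht)]
    apply lintegral_congr_ae
    filter_upwards [dens_circle] with ξ hξ
    by_cases hm : mob z ξ ∈ t
    · rw [Set.indicator_of_mem (show ξ ∈ mob z ⁻¹' t from hm), Set.indicator_of_mem hm]
      change f ξ = f (mob (-z) (mob z ξ)) * ENNReal.ofReal (pk z (mob z ξ)) * _
      rw [mob_inv z hz ξ hξ.le, mul_assoc, ← ENNReal.ofReal_mul (dens_pk_mob_pos hz hξ).le,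
        pk_mob z hz ξ hξ, ENNReal.ofReal_one, mul_one]
    · rw [Set.indicator_of_notMem (show ξ ∉ mob z ⁻¹' t from hm), Set.indicator_of_notMem hm,
        zero_mul]
  have hadd : ENNReal.ofReal c • ν.map (mob z) =
      ENNReal.ofReal c • σ.map (mob z) + arc.withDensity (ENNReal.ofReal c • g) := by
    rw [withDensity_smul _ hgm, ← hac, ← smul_add, ← Measure.map_add _ _ (mob_meas z), ← hdec]
  have h3 := Measure.eq_rnDeriv (hgm.const_smul (ENNReal.ofReal c))
    (hsing.smul (ENNReal.ofReal c)) hadd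
  have h4 := dens_ae_mob hz h3
  have h5 := Measure.rnDeriv_add ν₀ ν₁ arc
  filter_upwards [h4, h5, dens_circle] with ξ h6 h7 hξ
  rw [← h6]
  have h8 : f ξ = ν₀.rnDeriv arc ξ + ν₁.rnDeriv arc ξ := h7
  rw [← h8]
  change ENNReal.ofReal c * (f (mob (-z) (mob z ξ)) * ENNReal.ofReal (pk z (mob z ξ))) * _ = _
  rw [mob_inv z hz ξ hξ.le, mul_assoc, mul_assoc, ← ENNReal.ofReal_mul (dens_pk_mob_pos hz hξ).le,
    pk_mob z hz ξ hξ, ENNReal.ofReal_one, mul_one]

end Pool.Agent.H96.BB
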