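import Pool.Agent.H96.BB.Defs

/-!
# Hyperbolic branching Brownian motion: splitting at the first branching
-/

set_option autoImplicit false

namespace Pool.Agent.H96.BB

open MeasureTheory ProbabilityTheory Filter Topology
open scoped ENNReal NNReal

section Tsum

/-- A sum over the words in two letters, split according to the first letter. -/
theorem tsum_words (f : List Bool → ℝ≥0∞) :
    ∑' u, f u = f [] + (∑' u, f (false :: u) + ∑' u, f (true :: u)) := by
  classical
  rw [ENNReal.tsum_eq_add_tsum_ite ([] : List Bool)]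
  congr 1
  have hinj : Function.Injective fun p : Bool × List Bool => p.1 :: p.2 := by
    rintro ⟨a, u⟩ ⟨b, v⟩ h
    simp only [List.cons.injEq] at h
    exact Prod.ext h.1 h.2
  rw [← hinj.tsum_eq]
  · refine (tsum_congr fun c => if_neg (List.cons_ne_nil _ _)).trans ?_
    rw [ENNReal.tsum_prod (f := fun (b : Bool) (u : List Bool) => f (b :: u)), tsum_bool]
  · intro u hu
    cases u with
    | nil => simp at hu
    | cons b u => exact ⟨(b, u), rfl⟩

end Tsum

variable {E : Type*} [MeasurableSpace E]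

omit [MeasurableSpace E] in
theorem alive_nil (ω : Smp E) (t : ℝ) : Alive [] ω t ↔ 0 ≤ t ∧ t < (ω []).1 := Iff.rfl

omit [MeasurableSpace E] in
theorem alive_cons (b : Bool) (u : List Bool) (ω : Smp E) (t : ℝ) :
    Alive (b :: u) ω t ↔ Alive u (shift b ω) (t - (ω []).1) := Iff.rfl

omit [MeasurableSpace E] in
theorem alive_nonneg {u : List Bool} : ∀ {ω : Smp E} {t : ℝ}, (∀ u, 0 ≤ (ω u).1) →
    Alive u ω t → 0 ≤ t := by
  induction u with
  | nil => intro ω t _ h; exact h.1
  | cons b u ih =>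
    intro ω t hτ h
    have h1 := ih (ω := shift b ω) (t := t - (ω []).1) (fun v => hτ (b :: v)) h
    have h2 := hτ []
    linarith

omit [MeasurableSpace E] in
theorem cnt_words (ω : Smp E) (t : ℝ) (h : ¬ Alive [] ω t) :
    cnt ω t = cnt (shift false ω) (t - (ω []).1) + cnt (shift true ω) (t - (ω []).1) := by
  classical
  unfold cnt
  rw [tsum_words, if_neg h, zero_add]
  rfl

omit [MeasurableSpace E] in
theorem cnt_split (ω : Smp E) (t : ℝ) (h : (ω []).1 ≤ t) :
    cnt ω t = cnt (shift false ω) (t - (ω []).1) + cnt (shift true ω) (t - (ω []).1) :=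
  cnt_words ω t fun h1 => absurd h1.2 (not_lt.2 h)

omit [MeasurableSpace E] in
theorem cnt_neg (ω : Smp E) (t : ℝ) (h0 : t < 0) (hτ : ∀ u, 0 ≤ (ω u).1) :
    cnt ω t = 0 := by
  classical
  unfold cnt
  rw [ENNReal.tsum_eq_zero]
  intro u
  rw [if_neg]
  intro h
  exact absurd (alive_nonneg hτ h) (not_le.2 h0)

omit [MeasurableSpace E] in
theorem cnt_before (ω : Smp E) (t : ℝ) (h0 : 0 ≤ t) (hτ : ∀ u, 0 ≤ (ω u).1) (h : t < (ω []).1) :
    cnt ω t = 1 := by
  classical
  unfold cnt
  rw [tsum_words, if_pos ⟨h0, h⟩]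
  have h1 : ∀ b : Bool, ∑' u : List Bool, (if Alive (b :: u) ω t then (1 : ℝ≥0∞) else 0) = 0 := by
    intro b
    exact cnt_neg (shift b ω) (t - (ω []).1) (by linarith) fun v => hτ (b :: v)
  rw [h1, h1, add_zero, add_zero]

theorem mob_measurable (z : ℂ) : Measurable (mob z) := by
  unfold mob
  fun_prop

omit [MeasurableSpace E] in
theorem raw_apply (B : ℝ≥0 → E → ℂ) (ω : Smp E) (t : ℝ) {s : Set ℂ} (hs : MeasurableSet s) :
    raw B ω t s = ∑' u : List Bool, open Classical in
      if Alive u ω t then (if pos B u ω t ∈ s then 1 else 0) else 0 := by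
  classical
  unfold raw
  rw [Measure.sum_apply _ hs]
  refine tsum_congr fun u => ?_
  by_cases h : Alive u ω t
  · rw [if_pos h, if_pos h, Measure.dirac_apply' _ hs]
    by_cases h1 : pos B u ω t ∈ s
    · rw [if_pos h1, Set.indicator_of_mem h1]
      rfl
    · rw [if_neg h1, Set.indicator_of_notMem h1]
  · rw [if_neg h, if_neg h]
    rfl

omit [MeasurableSpace E] in
theorem raw_split (B : ℝ≥0 → E → ℂ) (ω : Smp E) (t : ℝ) (h : (ω []).1 ≤ t) :
    raw B ω t = (raw B (shift false ω) (t - (ω []).1)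
      + raw B (shift true ω) (t - (ω []).1)).map (mob (B (ω []).1.toNNReal (ω []).2)) := by
  classical
  have h0 : ¬ Alive [] ω t := fun h1 => absurd h1.2 (not_lt.2 h)
  ext s hs
  have hm := mob_measurable (B (ω []).1.toNNReal (ω []).2)
  rw [Measure.map_apply hm hs, Measure.add_apply, raw_apply B ω t hs,
    raw_apply B _ _ (hm hs), raw_apply B _ _ (hm hs), tsum_words, if_neg h0, zero_add]
  rfl

omit [MeasurableSpace E] in
theorem raw_univ (B : ℝ≥0 → E → ℂ) (ω : Smp E) (t : ℝ) : raw B ω t Set.univ = cnt ω t := by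
  classical
  rw [raw_apply B ω t MeasurableSet.univ]
  unfold cnt
  refine tsum_congr fun u => ?_
  by_cases h : Alive u ω t
  · rw [if_pos h, if_pos h, if_pos (Set.mem_univ _)]
  · rw [if_neg h, if_neg h]

theorem mob_lt_one {z w : ℂ} (hz : ‖z‖ < 1) (hw : ‖w‖ < 1) : ‖mob z w‖ < 1 := by
  have e1 : ‖w + z‖ ^ 2 = ‖w‖ ^ 2 + ‖z‖ ^ 2 + 2 * (z.re * w.re + z.im * w.im) := by
    rw [Complex.sq_norm, Complex.sq_norm, Complex.sq_norm, Complex.normSq_apply,
      Complex.normSq_apply, Complex.normSq_apply, Complex.add_re, Complex.add_im]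
    ring
  have e2 : ‖1 + (starRingEnd ℂ) z * w‖ ^ 2 =
      1 + ‖z‖ ^ 2 * ‖w‖ ^ 2 + 2 * (z.re * w.re + z.im * w.im) := by
    rw [Complex.sq_norm, Complex.sq_norm, Complex.sq_norm, Complex.normSq_apply,
      Complex.normSq_apply, Complex.normSq_apply]
    simp only [Complex.add_re, Complex.add_im, Complex.one_re, Complex.one_im, Complex.mul_re,
      Complex.mul_im, Complex.conj_re, Complex.conj_im]
    ring
  have hz2 : ‖z‖ ^ 2 < 1 := by nlinarith [norm_nonneg z]
  have hw2 : ‖w‖ ^ 2 < 1 := by nlinarith [norm_nonneg w]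
  have h3 : ‖w + z‖ ^ 2 < ‖1 + (starRingEnd ℂ) z * w‖ ^ 2 := by
    rw [e1, e2]
    nlinarith [mul_pos (sub_pos.2 hz2) (sub_pos.2 hw2)]
  have h4 : ‖w + z‖ < ‖1 + (starRingEnd ℂ) z * w‖ := lt_of_pow_lt_pow_left₀ 2 (norm_nonneg _) h3
  unfold mob
  rw [norm_div, div_lt_one ((norm_nonneg _).trans_lt h4)]
  exact h4

omit [MeasurableSpace E] in
theorem pos_disk (B : ℝ≥0 → E → ℂ) (hB : ∀ t e, ‖B t e‖ < 1) :
    ∀ (u : List Bool) (ω : Smp E) (t : ℝ), ‖pos B u ω t‖ < 1 := by
  intro u
  induction u with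
  | nil => intro ω t; exact hB _ _
  | cons b u ih => intro ω t; exact mob_lt_one (hB _ _) (ih _ _)

omit [MeasurableSpace E] in
theorem raw_disk (B : ℝ≥0 → E → ℂ) (hB : ∀ t e, ‖B t e‖ < 1) (ω : Smp E) (t : ℝ) :
    raw B ω t (Metric.ball 0 1)ᶜ = 0 := by
  classical
  rw [raw_apply B ω t Metric.isOpen_ball.measurableSet.compl, ENNReal.tsum_eq_zero]
  intro u
  split_ifs with h1 h2
  · exact absurd (mem_ball_zero_iff.2 (pos_disk B hB u ω t)) h2
  · rfl
  · rfl

theorem shift_measurable (b : Bool) : Measurable (shift b : Smp E → Smp E) := by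
  unfold shift
  exact measurable_pi_lambda _ fun u => measurable_pi_apply (b :: u)

theorem alive_meas (u : List Bool) : MeasurableSet {p : Smp E × ℝ | Alive u p.1 p.2} := by
  induction u with
  | nil =>
    have h1 : Measurable fun p : Smp E × ℝ => (p.1 []).1 :=
      measurable_fst.comp ((measurable_pi_apply ([] : List Bool)).comp measurable_fst)
    exact (measurableSet_le measurable_const measurable_snd).inter
      (measurableSet_lt measurable_snd h1)
  | cons b u ih =>
    have h1 : Measurable fun p : Smp E × ℝ => (p.1 []).1 :=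
      measurable_fst.comp ((measurable_pi_apply ([] : List Bool)).comp measurable_fst)
    have h2 : Measurable fun p : Smp E × ℝ => (shift b p.1, p.2 - (p.1 []).1) :=
      ((shift_measurable b).comp measurable_fst).prodMk (measurable_snd.sub h1)
    exact h2 ih

theorem cnt_meas : Measurable (fun p : Smp E × ℝ => cnt p.1 p.2) := by
  classical
  unfold cnt
  exact Measurable.tsum fun u =>
    Measurable.ite (alive_meas u) measurable_const measurable_const

theorem exp_life : (expMeasure (1 / 2)) (Set.Iic 0) = 0 := by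
  have : IsProbabilityMeasure (expMeasure (1 / 2)) := isProbabilityMeasure_expMeasure (by norm_num)
  have h := cdf_expMeasure_eq (r := 1 / 2) (by norm_num) 0
  rw [cdf_eq_real, if_pos le_rfl, mul_zero, neg_zero, Real.exp_zero, sub_self] at h
  exact (measureReal_eq_zero_iff (measure_ne_top _ _)).1 h

theorem life_pos (Q : Measure E) [IsProbabilityMeasure Q] :
    ∀ᵐ ω ∂(law Q), ∀ u, 0 < (ω u).1 := by
  rw [ae_all_iff]
  intro u
  have h1 : ∀ᵐ p ∂(one Q), 0 < p.1 := by
    have : IsProbabilityMeasure (expMeasure (1 / 2)) :=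
      isProbabilityMeasure_expMeasure (by norm_num)
    have h2 : ∀ᵐ x ∂(expMeasure (1 / 2)), 0 < x := by
      rw [ae_iff]
      convert exp_life using 2
      ext x
      simp
    exact Measure.quasiMeasurePreserving_fst.ae h2
  exact (measurePreserving_eval_infinitePi (fun _ : List Bool => one Q) u).quasiMeasurePreserving.ae
    h1

end Pool.Agent.H96.BB
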