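import Pool.Agent.H96.BB.Defs

/-! # Elementary facts about the transform `x ↦ (1 - exp (-(e^x f))) e^(-x)` -/

namespace Pool.Agent.H96.BB

open MeasureTheory ProbabilityTheory Filter Topology
open scoped ENNReal NNReal

theorem tr_nonneg (x f : ℝ) (hf : 0 ≤ f) : 0 ≤ (1 - Real.exp (-(Real.exp x * f))) * Real.exp (-x) := by
  have h : Real.exp (-(Real.exp x * f)) ≤ 1 := by
    rw [Real.exp_le_one_iff]
    have := mul_nonneg (Real.exp_pos x).le hf
    linarith
  exact mul_nonneg (by linarith) (Real.exp_pos _).le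

theorem tr_le_exp (x f : ℝ) : (1 - Real.exp (-(Real.exp x * f))) * Real.exp (-x) ≤ Real.exp (-x) := by
  have h : 0 < Real.exp (-(Real.exp x * f)) := Real.exp_pos _
  have h2 : 0 < Real.exp (-x) := Real.exp_pos _
  nlinarith

theorem tr_le (x f : ℝ) : (1 - Real.exp (-(Real.exp x * f))) * Real.exp (-x) ≤ f := by
  have h : 1 - Real.exp (-(Real.exp x * f)) ≤ Real.exp x * f := by
    have := Real.add_one_le_exp (-(Real.exp x * f))
    linarith
  have h2 : Real.exp x * Real.exp (-x) = 1 := by rw [← Real.exp_add]; simp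
  calc (1 - Real.exp (-(Real.exp x * f))) * Real.exp (-x)
      ≤ (Real.exp x * f) * Real.exp (-x) := mul_le_mul_of_nonneg_right h (Real.exp_pos _).le
    _ = f * (Real.exp x * Real.exp (-x)) := by ring
    _ = f := by rw [h2, mul_one]

theorem tr_anti (f : ℝ) (hf : 0 ≤ f) {x y : ℝ} (hxy : x ≤ y) :
    (1 - Real.exp (-(Real.exp y * f))) * Real.exp (-y) ≤
      (1 - Real.exp (-(Real.exp x * f))) * Real.exp (-x) := by
  set s := Real.exp x with hs
  set t := Real.exp y with ht
  have hs0 : 0 < s := Real.exp_pos _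
  have ht0 : 0 < t := Real.exp_pos _
  have hst : s ≤ t := Real.exp_le_exp.mpr hxy
  have ha : 0 ≤ 1 - s / t := by
    have : s / t ≤ 1 := (div_le_one ht0).mpr hst
    linarith
  have hb : 0 ≤ s / t := by positivity
  have hconv : Real.exp ((1 - s / t) • (0 : ℝ) + (s / t) • (-(t * f))) ≤
      (1 - s / t) • Real.exp 0 + (s / t) • Real.exp (-(t * f)) :=
    convexOn_exp.2 (Set.mem_univ (0 : ℝ)) (Set.mem_univ (-(t * f))) ha hb (by ring)
  simp only [smul_eq_mul, mul_zero, zero_add, Real.exp_zero, mul_one] at hconv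
  have e1 : s / t * -(t * f) = -(s * f) := by field_simp
  rw [e1] at hconv
  rw [Real.exp_neg y, Real.exp_neg x, ← hs, ← ht]
  rw [← div_eq_mul_inv, ← div_eq_mul_inv, div_le_div_iff₀ ht0 hs0]
  have h3 : s / t * t = s := by field_simp
  have h4 : (1 - s / t + s / t * Real.exp (-(t * f))) * t = t - s + s * Real.exp (-(t * f)) := by
    have : (1 - s / t + s / t * Real.exp (-(t * f))) * t
      = t - s / t * t + s / t * t * Real.exp (-(t * f)) := by ring
    rw [this, h3]
  have h5 := mul_le_mul_of_nonneg_right hconv ht0.le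
  rw [h4] at h5
  nlinarith

theorem arc_univ : arc Set.univ = ENNReal.ofReal (2 * Real.pi) := by
  unfold arc
  rw [Measure.map_apply (by fun_prop) MeasurableSet.univ]
  simp

instance : IsFiniteMeasure arc := ⟨by rw [arc_univ]; exact ENNReal.ofReal_lt_top⟩

theorem arc_circle : ∀ᵐ ξ ∂arc, ‖ξ‖ = 1 := by
  unfold arc
  rw [ae_map_iff (by fun_prop) (by
    exact measurableSet_eq_fun (by fun_prop) (by fun_prop))]
  exact Filter.Eventually.of_forall fun θ => by simp [circleMap]

end Pool.Agent.H96.BB
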