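import Pool.Agent.H96.BB.Fin1
import Pool.Agent.H96.BB.Conv

/-! # Assembly -/

namespace Pool.Agent.H96.BB

open MeasureTheory ProbabilityTheory Filter Topology
open scoped ENNReal NNReal

variable {E : Type*} [MeasurableSpace E]

/-- the integrand -/
theorem tr_meas (f : Smp E → ℂ → ℝ≥0∞) (hf : Measurable (Function.uncurry f)) :
    Measurable fun p : (ℝ × Smp E) × ℂ => ENNReal.ofReal
      ((1 - Real.exp (-(Real.exp p.1.1 * (f p.1.2 p.2).toReal))) * Real.exp (-p.1.1)) := by
  have h1 : Measurable fun p : (ℝ × Smp E) × ℂ => f p.1.2 p.2 :=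
    hf.comp ((measurable_snd.comp measurable_fst).prodMk measurable_snd)
  have h2 : Measurable fun p : (ℝ × Smp E) × ℂ => (f p.1.2 p.2).toReal := h1.ennreal_toReal
  have h3 : Measurable fun p : (ℝ × Smp E) × ℂ => p.1.1 := measurable_fst.comp measurable_fst
  exact (((measurable_const.sub (Real.measurable_exp.comp
    ((Real.measurable_exp.comp h3).mul h2).neg)).mul
      (Real.measurable_exp.comp h3.neg))).ennreal_ofReal

theorem vanish (Q : Measure E) [IsProbabilityMeasure Q]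
    (f : Smp E → ℂ → ℝ≥0∞) (hf : Measurable (Function.uncurry f))
    (hfin : ∀ᵐ ω ∂(law Q), ∀ᵐ ξ ∂arc, f ω ξ < ⊤)
    (hmass : ∫⁻ ω, ∫⁻ ξ, f ω ξ ∂arc ∂(law Q) ≤ 1)
    (hineq : ∀ x : ℝ,
      ∫⁻ ω, ∫⁻ ξ, ENNReal.ofReal ((1 - Real.exp (-(Real.exp x * (f ω ξ).toReal))) * Real.exp (-x))
        ∂arc ∂(law Q) ≤
      ∫⁻ y, (∫⁻ ω, ∫⁻ ξ, ENNReal.ofReal
        ((1 - Real.exp (-(Real.exp (x + y) * (f ω ξ).toReal))) * Real.exp (-(x + y)))
          ∂arc ∂(law Q)) ∂Lap) :
    ∀ᵐ ω ∂(law Q), ∀ᵐ ξ ∂arc, f ω ξ = 0 := by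
  set Φ : ℝ → ℝ≥0∞ := fun x => ∫⁻ ω, ∫⁻ ξ, ENNReal.ofReal
    ((1 - Real.exp (-(Real.exp x * (f ω ξ).toReal))) * Real.exp (-x)) ∂arc ∂(law Q) with hΦ
  have hΦm : Measurable Φ := by
    have h := tr_meas f hf
    have h2 : Measurable fun p : ℝ × Smp E => ∫⁻ ξ, ENNReal.ofReal
      ((1 - Real.exp (-(Real.exp p.1 * (f p.2 ξ).toReal))) * Real.exp (-p.1)) ∂arc :=
      h.lintegral_prod_right'
    exact h2.lintegral_prod_right'
  have hΦ1 : ∀ x, Φ x ≤ 1 := by
    intro x
    refine le_trans ?_ hmass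
    refine lintegral_mono_ae ?_
    filter_upwards [hfin] with ω hω
    refine lintegral_mono_ae ?_
    filter_upwards [hω] with ξ hξ
    calc ENNReal.ofReal _ ≤ ENNReal.ofReal (f ω ξ).toReal := ENNReal.ofReal_le_ofReal (tr_le x _)
      _ ≤ f ω ξ := ENNReal.ofReal_toReal_le
  have hΦ2 : ∀ x, Φ x ≤ ENNReal.ofReal (2 * Real.pi) * ENNReal.ofReal (Real.exp (-x)) := by
    intro x
    calc Φ x ≤ ∫⁻ _ω : Smp E, ∫⁻ _ξ : ℂ, ENNReal.ofReal (Real.exp (-x)) ∂arc ∂(law Q) :=
          lintegral_mono fun ω => lintegral_mono fun ξ =>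
            ENNReal.ofReal_le_ofReal (tr_le_exp x _)
      _ = ENNReal.ofReal (2 * Real.pi) * ENNReal.ofReal (Real.exp (-x)) := by
          simp only [lintegral_const, measure_univ, mul_one, arc_univ]
          rw [mul_comm]
  have hanti : Antitone Φ := by
    intro x y hxy
    exact lintegral_mono fun ω => lintegral_mono fun ξ =>
      ENNReal.ofReal_le_ofReal (tr_anti _ ENNReal.toReal_nonneg hxy)
  have hne : ∀ x, Φ x ≠ ⊤ := fun x => ne_top_of_le_ne_top ENNReal.one_ne_top (hΦ1 x)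
  have key := conv_zero (fun x => (Φ x).toReal) 1 (fun x => ENNReal.toReal_nonneg)
    (fun x => by
      have := ENNReal.toReal_mono ENNReal.one_ne_top (hΦ1 x)
      simpa using this)
    (fun x y hxy => ENNReal.toReal_mono (hne x) (hanti hxy))
    (by
      have h1 : Tendsto (fun x : ℝ => 2 * Real.pi * Real.exp (-x)) atTop (𝓝 0) := by
        have := (Real.tendsto_exp_neg_atTop_nhds_zero).const_mul (2 * Real.pi)
        simpa using this
      refine squeeze_zero (fun x => ENNReal.toReal_nonneg) (fun x => ?_) h1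
      have h2 := ENNReal.toReal_mono (ENNReal.mul_ne_top ENNReal.ofReal_ne_top
        ENNReal.ofReal_ne_top) (hΦ2 x)
      rw [ENNReal.toReal_mul, ENNReal.toReal_ofReal (by positivity),
        ENNReal.toReal_ofReal (Real.exp_pos _).le] at h2
      exact h2)
    (by
      intro x
      have h3 : ∫ y, (Φ (x + y)).toReal ∂Lap = (∫⁻ y, Φ (x + y) ∂Lap).toReal := by
        refine integral_toReal ?_ ?_
        · exact (hΦm.comp (measurable_const.add measurable_id)).aemeasurable
        · exact Filter.Eventually.of_forall fun y => lt_top_iff_ne_top.mpr (hne _)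
      rw [h3]
      by_cases htop : ∫⁻ y, Φ (x + y) ∂Lap = ⊤
      · exfalso
        have h4 : ∫⁻ y, Φ (x + y) ∂Lap ≤ Lap Set.univ := by
          calc ∫⁻ y, Φ (x + y) ∂Lap ≤ ∫⁻ _y, 1 ∂Lap := lintegral_mono fun y => hΦ1 _
            _ = Lap Set.univ := by simp
        rw [htop] at h4
        exact absurd h4 (not_le.mpr (measure_lt_top Lap Set.univ))
      · exact ENNReal.toReal_mono htop (hineq x))
  have h0 : Φ 0 = 0 := by
    have := key 0
    rcases (ENNReal.toReal_eq_zero_iff _).mp this with h | h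
    · exact h
    · exact absurd h (hne 0)
  rw [hΦ] at h0
  simp only at h0
  have hm0 : Measurable fun p : Smp E × ℂ => ENNReal.ofReal
      ((1 - Real.exp (-(Real.exp 0 * (f p.1 p.2).toReal))) * Real.exp (-0)) := by
    have := (tr_meas f hf).comp (((measurable_const (a := (0 : ℝ))).prodMk
      (measurable_fst (α := Smp E) (β := ℂ))).prodMk measurable_snd)
    exact this
  rw [lintegral_eq_zero_iff hm0.lintegral_prod_right'] at h0
  filter_upwards [h0, hfin] with ω hω hω2
  have hω' : ∫⁻ ξ, ENNReal.ofReal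
      ((1 - Real.exp (-(Real.exp 0 * (f ω ξ).toReal))) * Real.exp (-0)) ∂arc = 0 := hω
  have hm1 : Measurable fun ξ : ℂ => ENNReal.ofReal
      ((1 - Real.exp (-(Real.exp 0 * (f ω ξ).toReal))) * Real.exp (-0)) :=
    hm0.comp ((measurable_const (a := ω)).prodMk measurable_id)
  rw [lintegral_eq_zero_iff hm1] at hω'
  filter_upwards [hω', hω2] with ξ h1 h2
  have h3 : ENNReal.ofReal
      ((1 - Real.exp (-(Real.exp 0 * (f ω ξ).toReal))) * Real.exp (-0)) = 0 := h1
  rw [ENNReal.ofReal_eq_zero] at h3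
  simp only [Real.exp_zero, one_mul, neg_zero, mul_one] at h3
  have h4 : Real.exp (-(f ω ξ).toReal) ≥ 1 := by linarith
  have h5 : -(f ω ξ).toReal ≥ 0 := by
    by_contra hcon
    push Not at hcon
    have := Real.exp_lt_exp.mpr hcon
    rw [Real.exp_zero] at this
    linarith
  have h6 : (f ω ξ).toReal = 0 := le_antisymm (by linarith) ENNReal.toReal_nonneg
  rcases (ENNReal.toReal_eq_zero_iff _).mp h6 with h | h
  · exact h
  · exact absurd h h2.ne

end Pool.Agent.H96.BB
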