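import Pool.Agent.H96.BB.Split

/-!
# Hyperbolic branching Brownian motion: the limit of the generation martingale (B2)
-/

namespace Pool.Agent.H96.BB

open MeasureTheory ProbabilityTheory Filter Topology
open scoped ENNReal NNReal

variable {E : Type*} [MeasurableSpace E]

theorem gen_exp_lint (a : ℝ) (ha : 0 ≤ a) :
    ∫⁻ x, ENNReal.ofReal (Real.exp (-(a * x))) ∂(expMeasure (1 / 2)) =
      ENNReal.ofReal (1 / 2 / (1 / 2 + a)) := by
  have h1 : expMeasure (1 / 2) = volume.withDensity (exponentialPDF (1 / 2)) := rfl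
  have hm : ∀ r, Measurable (exponentialPDF r) := fun r =>
    (measurable_exponentialPDFReal r).ennreal_ofReal
  rw [h1, lintegral_withDensity_eq_lintegral_mul _ (hm _) (by fun_prop)]
  have h2 : ∀ x, (exponentialPDF (1 / 2) * fun x => ENNReal.ofReal (Real.exp (-(a * x)))) x =
      ENNReal.ofReal (1 / 2 / (1 / 2 + a)) * exponentialPDF (1 / 2 + a) x := by
    intro x
    rw [Pi.mul_apply]
    rcases lt_or_ge x 0 with hx | hx
    · rw [exponentialPDF_of_neg hx, exponentialPDF_of_neg hx, zero_mul, mul_zero]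
    · rw [exponentialPDF_of_nonneg hx, exponentialPDF_of_nonneg hx,
        ← ENNReal.ofReal_mul (by positivity), ← ENNReal.ofReal_mul (by positivity)]
      congr 1
      have h3 : Real.exp (-((1 / 2 + a) * x)) = Real.exp (-(1 / 2 * x)) * Real.exp (-(a * x)) := by
        rw [← Real.exp_add]
        ring_nf
      rw [h3]
      field_simp
  rw [lintegral_congr h2, lintegral_const_mul _ (hm _),
    lintegral_exponentialPDF_eq_one (by positivity), mul_one]

theorem gen_exp_int (a : ℝ) (ha : 0 ≤ a) :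
    Integrable (fun x => Real.exp (-(a * x))) (expMeasure (1 / 2)) ∧
      ∫ x, Real.exp (-(a * x)) ∂(expMeasure (1 / 2)) = 1 / 2 / (1 / 2 + a) := by
  have h0 : ∀ x, 0 ≤ Real.exp (-(a * x)) := fun x => (Real.exp_pos _).le
  have hm : Measurable fun x => Real.exp (-(a * x)) := by fun_prop
  constructor
  · refine ⟨hm.aestronglyMeasurable, ?_⟩
    rw [hasFiniteIntegral_iff_ofReal (Eventually.of_forall h0), gen_exp_lint a ha]
    exact ENNReal.ofReal_lt_top
  · rw [integral_eq_lintegral_of_nonneg_ae (Eventually.of_forall h0) hm.aestronglyMeasurable,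
      gen_exp_lint a ha, ENNReal.toReal_ofReal (by positivity)]

theorem gen_one_int (Q : Measure E) [IsProbabilityMeasure Q] (a : ℝ) (ha : 0 ≤ a) :
    Integrable (fun x : ℝ × E => Real.exp (-(a * x.1))) (one Q) ∧
      ∫ x : ℝ × E, Real.exp (-(a * x.1)) ∂(one Q) = 1 / 2 / (1 / 2 + a) := by
  have : IsProbabilityMeasure (expMeasure (1 / 2)) := isProbabilityMeasure_expMeasure (by norm_num)
  obtain ⟨h1, h2⟩ := gen_exp_int a ha
  unfold one
  refine ⟨h1.comp_fst Q, ?_⟩
  rw [integral_fun_fst (fun x => Real.exp (-(a * x))), h2]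
  simp

/-- One step of the recursion. -/
noncomputable def genT (f : Smp E → ℝ) (ω : Smp E) : ℝ :=
  Real.exp (-(ω []).1 / 2) * (f (shift false ω) + f (shift true ω))

theorem genT_meas {f : Smp E → ℝ} (hf : Measurable f) : Measurable (genT f) := by
  unfold genT
  have h1 : Measurable fun ω : Smp E => ω [] := measurable_pi_apply _
  exact ((h1.fst.neg.div_const 2).exp).mul
    ((hf.comp (shift_meas false)).add (hf.comp (shift_meas true)))

theorem genT_moments (Q : Measure E) [IsProbabilityMeasure Q] {f : Smp E → ℝ} (hf : Measurable f)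
    (h2 : Integrable (fun ω => f ω ^ 2) (law Q)) :
    Integrable (fun ω => genT f ω ^ 2) (law Q) ∧ ∫ ω, genT f ω ∂(law Q) = ∫ ω, f ω ∂(law Q) ∧
      ∫ ω, genT f ω ^ 2 ∂(law Q) =
        2 / 3 * (∫ ω, f ω ^ 2 ∂(law Q) + (∫ ω, f ω ∂(law Q)) ^ 2) := by
  have hI : Integrable f (law Q) :=
    ((memLp_two_iff_integrable_sq hf.aestronglyMeasurable).mpr h2).integrable one_le_two
  have hS : Measurable fun p : (ℝ × E) × (Smp E × Smp E) =>
      Real.exp (-p.1.1 / 2) * (f p.2.1 + f p.2.2) := by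
    have : Measurable fun p : (ℝ × E) × (Smp E × Smp E) => p.1.1 := measurable_fst.fst
    exact ((this.neg.div_const 2).exp).mul
      ((hf.comp measurable_snd.fst).add (hf.comp measurable_snd.snd))
  have hmp := mp_split (E := E) Q
  have e1 : ∀ x : ℝ × E, Real.exp (-x.1 / 2) = Real.exp (-(1 / 2 * x.1)) := fun x => by
    congr 1; ring
  have e2 : ∀ x : ℝ × E, Real.exp (-x.1 / 2) ^ 2 = Real.exp (-(1 * x.1)) := fun x => by
    rw [← Real.exp_nat_mul]; congr 1; push_cast; ring
  obtain ⟨a1, a2⟩ := gen_one_int Q (1 / 2) (by norm_num)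
  obtain ⟨b1, b2⟩ := gen_one_int Q 1 (by norm_num)
  have hF : ∫ p : Smp E × Smp E, (f p.1 + f p.2) ∂((law Q).prod (law Q)) =
      2 * ∫ ω, f ω ∂(law Q) := by
    rw [integral_add (hI.comp_fst (law Q)) (hI.comp_snd (law Q)), integral_fun_fst,
      integral_fun_snd]
    simp
    ring
  have i1 : Integrable (fun p : Smp E × Smp E => f p.1 ^ 2) ((law Q).prod (law Q)) :=
    h2.comp_fst (law Q)
  have i2 : Integrable (fun p : Smp E × Smp E => f p.2 ^ 2) ((law Q).prod (law Q)) :=
    h2.comp_snd (law Q)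
  have i3 : Integrable (fun p : Smp E × Smp E => f p.1 * f p.2) ((law Q).prod (law Q)) :=
    hI.mul_prod hI
  have e3 : ∀ p : Smp E × Smp E, (f p.1 + f p.2) ^ 2 =
      (f p.1 ^ 2 + f p.2 ^ 2) + 2 * (f p.1 * f p.2) := fun p => by ring
  have i4 : Integrable (fun p : Smp E × Smp E => (f p.1 + f p.2) ^ 2)
      ((law Q).prod (law Q)) := by
    simp_rw [e3]
    exact (i1.add i2).add (i3.const_mul 2)
  have hF2 : ∫ p : Smp E × Smp E, (f p.1 + f p.2) ^ 2 ∂((law Q).prod (law Q)) =
      2 * (∫ ω, f ω ^ 2 ∂(law Q) + (∫ ω, f ω ∂(law Q)) ^ 2) := by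
    have i12 : Integrable (fun p : Smp E × Smp E => f p.1 ^ 2 + f p.2 ^ 2)
        ((law Q).prod (law Q)) := i1.add i2
    simp_rw [e3]
    rw [integral_add i12 (i3.const_mul 2), integral_add i1 i2, integral_const_mul,
      integral_fun_fst (fun ω => f ω ^ 2), integral_fun_snd (fun ω => f ω ^ 2),
      integral_prod_mul]
    simp
    ring
  refine ⟨?_, ?_, ?_⟩
  · have : Integrable (fun p : (ℝ × E) × (Smp E × Smp E) =>
        (Real.exp (-p.1.1 / 2) * (f p.2.1 + f p.2.2)) ^ 2)
        ((one Q).prod ((law Q).prod (law Q))) := by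
      simp_rw [mul_pow, e2]
      exact b1.mul_prod i4
    exact (hmp.integrable_comp (hS.pow_const 2).aestronglyMeasurable).mpr this
  · have : ∫ ω, genT f ω ∂(law Q) = ∫ p : (ℝ × E) × (Smp E × Smp E),
        Real.exp (-p.1.1 / 2) * (f p.2.1 + f p.2.2) ∂((one Q).prod ((law Q).prod (law Q))) := by
      rw [← hmp.map_eq, integral_map hmp.measurable.aemeasurable hS.aestronglyMeasurable]
      rfl
    rw [this]
    simp_rw [e1]
    rw [integral_prod_mul (fun x : ℝ × E => Real.exp (-(1 / 2 * x.1)))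
      (fun p : Smp E × Smp E => f p.1 + f p.2), a2, hF]
    ring
  · have : ∫ ω, genT f ω ^ 2 ∂(law Q) = ∫ p : (ℝ × E) × (Smp E × Smp E),
        (Real.exp (-p.1.1 / 2) * (f p.2.1 + f p.2.2)) ^ 2
          ∂((one Q).prod ((law Q).prod (law Q))) := by
      rw [← hmp.map_eq, integral_map hmp.measurable.aemeasurable
        (hS.pow_const 2).aestronglyMeasurable]
      rfl
    rw [this]
    simp_rw [mul_pow, e2]
    rw [integral_prod_mul (fun x : ℝ × E => Real.exp (-(1 * x.1)))
      (fun p : Smp E × Smp E => (f p.1 + f p.2) ^ 2), b2, hF2]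
    ring

/-- The generation martingale. -/
noncomputable def genW : ℕ → Smp E → ℝ
  | 0 => fun _ => 1
  | n + 1 => genT (genW n)

theorem genW_meas : ∀ n, Measurable (genW n : Smp E → ℝ)
  | 0 => measurable_const
  | n + 1 => genT_meas (genW_meas n)

theorem genW_nonneg : ∀ n (ω : Smp E), 0 ≤ genW n ω
  | 0, _ => zero_le_one
  | n + 1, ω => mul_nonneg (Real.exp_pos _).le (add_nonneg (genW_nonneg n _) (genW_nonneg n _))

theorem genW_moments (Q : Measure E) [IsProbabilityMeasure Q] (n : ℕ) :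
    Integrable (fun ω => genW n ω ^ 2) (law Q) ∧ ∫ ω, genW n ω ∂(law Q) = 1 ∧
      ∫ ω, genW n ω ^ 2 ∂(law Q) ≤ 2 := by
  induction n with
  | zero =>
    refine ⟨?_, ?_, ?_⟩
    · simp only [genW]
      exact integrable_const _
    · simp [genW]
    · simp [genW]
  | succ n ih =>
    obtain ⟨h1, h2, h3⟩ := genT_moments Q (genW_meas n) ih.1
    refine ⟨h1, h2.trans ih.2.1, ?_⟩
    have : ∫ ω, genW (n + 1) ω ^ 2 ∂(law Q) = ∫ ω, genT (genW n) ω ^ 2 ∂(law Q) := rfl
    rw [this, h3, ih.2.1]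
    linarith [ih.2.2]

/-- The increments. -/
noncomputable def genD : ℕ → Smp E → ℝ
  | 0 => fun ω => genW 1 ω - 1
  | n + 1 => genT (genD n)

theorem genD_eq : ∀ n (ω : Smp E), genD n ω = genW (n + 1) ω - genW n ω
  | 0, _ => rfl
  | n + 1, ω => by
    show genT (genD n) ω = genT (genW (n + 1)) ω - genT (genW n) ω
    unfold genT
    rw [genD_eq n, genD_eq n]
    ring

theorem genD_meas : ∀ n, Measurable (genD n : Smp E → ℝ)
  | 0 => (genW_meas 1).sub_const 1
  | n + 1 => genT_meas (genD_meas n)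

theorem genD_moments (Q : Measure E) [IsProbabilityMeasure Q] (n : ℕ) :
    Integrable (fun ω => genD n ω ^ 2) (law Q) ∧ ∫ ω, genD n ω ∂(law Q) = 0 ∧
      ∫ ω, genD n ω ^ 2 ∂(law Q) = (2 / 3) ^ n / 3 := by
  induction n with
  | zero =>
    obtain ⟨h1, h2, -⟩ := genW_moments (E := E) Q 1
    have h0 := genW_moments (E := E) Q 0
    have h3 := (genT_moments Q (genW_meas 0) h0.1).2.2
    have hI : Integrable (genW 1) (law Q) :=
      ((memLp_two_iff_integrable_sq (genW_meas 1).aestronglyMeasurable).mpr h1).integrable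
        one_le_two
    have e : ∀ ω : Smp E, genD 0 ω ^ 2 = (genW 1 ω ^ 2 - 2 * genW 1 ω) + 1 := fun ω => by
      simp only [genD]; ring
    have i12 : Integrable (fun ω => genW 1 ω ^ 2 - 2 * genW 1 ω) (law Q) :=
      h1.sub (hI.const_mul 2)
    refine ⟨?_, ?_, ?_⟩
    · simp_rw [e]
      exact i12.add (integrable_const _)
    · simp only [genD]
      rw [integral_sub hI (integrable_const _), h2]
      simp
    · simp_rw [e]
      rw [integral_add i12 (integrable_const _),
        integral_sub h1 (hI.const_mul 2), integral_const_mul, h2]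
      have h4 : ∫ ω, genW 1 ω ^ 2 ∂(law Q) = 4 / 3 := by
        have : ∫ ω, genW 1 ω ^ 2 ∂(law Q) = ∫ ω, genT (genW 0) ω ^ 2 ∂(law Q) := rfl
        rw [this, h3]
        simp only [genW]
        simp
        norm_num
      rw [h4]
      simp
      norm_num
  | succ n ih =>
    obtain ⟨h1, h2, h3⟩ := genT_moments Q (genD_meas n) ih.1
    refine ⟨h1, h2.trans ih.2.1, ?_⟩
    have : ∫ ω, genD (n + 1) ω ^ 2 ∂(law Q) = ∫ ω, genT (genD n) ω ^ 2 ∂(law Q) := rfl
    rw [this, h3, ih.2.1, ih.2.2]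
    ring

theorem genW_sum (n : ℕ) (ω : Smp E) : genW n ω = 1 + ∑ i ∈ Finset.range n, genD i ω := by
  have h : ∑ i ∈ Finset.range n, genD i ω = genW n ω - genW 0 ω := by
    rw [← Finset.sum_range_sub (fun i => genW i ω)]
    exact Finset.sum_congr rfl fun i _ => genD_eq i ω
  rw [h]
  simp only [genW]
  ring

/-- The weighted sum of the squares of the increments. -/
noncomputable def genS (ω : Smp E) : ℝ≥0∞ :=
  ∑' n : ℕ, ENNReal.ofReal ((6 / 5) ^ n * genD n ω ^ 2)

theorem genS_meas : Measurable (genS : Smp E → ℝ≥0∞) :=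
  Measurable.ennreal_tsum fun n => (((genD_meas n).pow_const 2).const_mul _).ennreal_ofReal

theorem genS_fin (Q : Measure E) [IsProbabilityMeasure Q] : ∫⁻ ω, genS ω ∂(law Q) ≠ ⊤ := by
  unfold genS
  rw [lintegral_tsum fun n =>
    (((genD_meas n).pow_const 2).const_mul _).ennreal_ofReal.aemeasurable]
  have h : ∀ n : ℕ, ∫⁻ ω, ENNReal.ofReal ((6 / 5) ^ n * genD n ω ^ 2) ∂(law Q) =
      ENNReal.ofReal ((4 / 5) ^ n * (1 / 3)) := by
    intro n
    obtain ⟨h1, -, h3⟩ := genD_moments (E := E) Q n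
    rw [← ofReal_integral_eq_lintegral_ofReal (h1.const_mul _)
      (Eventually.of_forall fun ω => by positivity), integral_const_mul, h3]
    congr 1
    rw [div_eq_mul_one_div ((2 / 3 : ℝ) ^ n) 3, ← mul_assoc, ← mul_pow]
    norm_num
  simp_rw [h]
  rw [← ENNReal.ofReal_tsum_of_nonneg (fun n => by positivity)
    ((summable_geometric_of_lt_one (by norm_num) (by norm_num)).mul_right _)]
  exact ENNReal.ofReal_ne_top

theorem gen_term (n : ℕ) (x : ℝ) : |x| ≤ ((5 / 6) ^ n + (6 / 5) ^ n * x ^ 2) / 2 := by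
  have h0 : (0 : ℝ) < (5 / 6) ^ n := by positivity
  have h1 : (6 / 5 : ℝ) ^ n * (5 / 6) ^ n = 1 := by
    rw [← mul_pow]; norm_num
  have h2 : (6 / 5 : ℝ) ^ n * x ^ 2 = (6 / 5 : ℝ) ^ n * |x| ^ 2 := by rw [sq_abs]
  have h3 : 0 ≤ (6 / 5 : ℝ) ^ n * ((5 / 6) ^ n - |x|) ^ 2 := by positivity
  have h4 : (6 / 5 : ℝ) ^ n * ((5 / 6) ^ n - |x|) ^ 2 =
      (5 / 6) ^ n + (6 / 5) ^ n * |x| ^ 2 - 2 * |x| := by
    have : (6 / 5 : ℝ) ^ n * ((5 / 6) ^ n - |x|) ^ 2 =
        ((6 / 5 : ℝ) ^ n * (5 / 6) ^ n) * (5 / 6) ^ n -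
          2 * ((6 / 5 : ℝ) ^ n * (5 / 6) ^ n) * |x| + (6 / 5) ^ n * |x| ^ 2 := by ring
    rw [this, h1]
    ring
  rw [h2]
  linarith

theorem gen_conv {ω : Smp E} (h : genS ω ≠ ⊤) :
    (∃ L, Tendsto (fun n => genW n ω) atTop (𝓝 L)) ∧
      ∀ n, |genW n ω| ≤ 1 + (6 + (genS ω).toReal) / 2 := by
  have hs0 : ∀ n : ℕ, (0 : ℝ) ≤ (6 / 5) ^ n * genD n ω ^ 2 := fun n => by positivity
  have hs : Summable fun n : ℕ => (6 / 5 : ℝ) ^ n * genD n ω ^ 2 := by
    have := ENNReal.summable_toReal h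
    refine this.congr fun n => ?_
    rw [ENNReal.toReal_ofReal (hs0 n)]
  have hS : (genS ω).toReal = ∑' n : ℕ, (6 / 5 : ℝ) ^ n * genD n ω ^ 2 := by
    unfold genS
    rw [ENNReal.tsum_toReal_eq fun n => ENNReal.ofReal_ne_top]
    exact tsum_congr fun n => ENNReal.toReal_ofReal (hs0 n)
  have hg : Summable fun n : ℕ => (5 / 6 : ℝ) ^ n :=
    summable_geometric_of_lt_one (by norm_num) (by norm_num)
  have hgs : ∑' n : ℕ, (5 / 6 : ℝ) ^ n = 6 := by
    rw [tsum_geometric_of_lt_one (by norm_num) (by norm_num)]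
    norm_num
  have hb : Summable fun n : ℕ => ((5 / 6 : ℝ) ^ n + (6 / 5 : ℝ) ^ n * genD n ω ^ 2) / 2 :=
    (hg.add hs).div_const 2
  have hbs : ∑' n : ℕ, ((5 / 6 : ℝ) ^ n + (6 / 5 : ℝ) ^ n * genD n ω ^ 2) / 2 =
      (6 + (genS ω).toReal) / 2 := by
    rw [tsum_div_const, hg.tsum_add hs, hgs, hS]
  have hD : Summable fun n => genD n ω :=
    Summable.of_norm_bounded hb fun n => by
      rw [Real.norm_eq_abs]
      exact gen_term n _
  constructor
  · refine ⟨1 + ∑' n, genD n ω, ?_⟩
    have := (hD.hasSum.tendsto_sum_nat).const_add 1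
    refine this.congr fun n => ?_
    rw [genW_sum]
  · intro n
    rw [genW_sum]
    calc |1 + ∑ i ∈ Finset.range n, genD i ω|
        ≤ |(1 : ℝ)| + |∑ i ∈ Finset.range n, genD i ω| := abs_add_le _ _
      _ ≤ 1 + ∑ i ∈ Finset.range n, |genD i ω| := by
          rw [abs_one]
          linarith [Finset.abs_sum_le_sum_abs (fun i => genD i ω) (Finset.range n)]
      _ ≤ 1 + ∑ i ∈ Finset.range n, ((5 / 6 : ℝ) ^ i + (6 / 5 : ℝ) ^ i * genD i ω ^ 2) / 2 := by
          have := Finset.sum_le_sum fun i (_ : i ∈ Finset.range n) => gen_term i (genD i ω)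
          linarith
      _ ≤ 1 + (6 + (genS ω).toReal) / 2 := by
          rw [← hbs]
          have := hb.sum_le_tsum (Finset.range n) fun i _ => by
            have := hs0 i
            positivity
          linarith

/-- The limit. -/
noncomputable def genLim (ω : Smp E) : ℝ := limsup (fun n => genW n ω) atTop

theorem genLim_meas : Measurable (genLim : Smp E → ℝ) := Measurable.limsup genW_meas

theorem genLim_tendsto {ω : Smp E} (h : genS ω ≠ ⊤) :
    Tendsto (fun n => genW n ω) atTop (𝓝 (genLim ω)) := by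
  obtain ⟨L, hL⟩ := (gen_conv h).1
  have : genLim ω = L := hL.limsup_eq
  rw [this]
  exact hL

theorem shift_mp (Q : Measure E) [IsProbabilityMeasure Q] (b : Bool) :
    MeasurePreserving (shift b : Smp E → Smp E) (law Q) (law Q) := by
  have hmp := mp_split (E := E) Q
  cases b
  · exact (measurePreserving_fst.comp measurePreserving_snd).comp hmp
  · exact (measurePreserving_snd.comp measurePreserving_snd).comp hmp

/-- B2 -/
theorem gen_lim (Q : Measure E) [IsProbabilityMeasure Q] :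
    ∃ W : Smp E → ℝ, Measurable W ∧ (∀ᵐ ω ∂(law Q), 0 < W ω) ∧ ∫ ω, W ω ∂(law Q) = 1 ∧
      MemLp W 2 (law Q) ∧
      ∀ᵐ ω ∂(law Q), W ω = Real.exp (-(ω []).1 / 2) * (W (shift false ω) + W (shift true ω)) := by
  have hfin : ∀ᵐ ω ∂(law Q), genS ω ≠ ⊤ := by
    filter_upwards [ae_lt_top genS_meas (genS_fin Q)] with ω h using h.ne
  have hsh : ∀ b, ∀ᵐ ω ∂(law Q), genS (shift b ω) ≠ ⊤ := fun b =>
    (shift_mp Q b).quasiMeasurePreserving.ae hfin
  have hrec : ∀ᵐ ω ∂(law Q), genLim ω =
      Real.exp (-(ω []).1 / 2) * (genLim (shift false ω) + genLim (shift true ω)) := by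
    filter_upwards [hfin, hsh false, hsh true] with ω h1 h2 h3
    have t1 := (genLim_tendsto h1).comp (tendsto_add_atTop_nat 1)
    have t2 : Tendsto (fun n => genW (n + 1) ω) atTop
        (𝓝 (Real.exp (-(ω []).1 / 2) * (genLim (shift false ω) + genLim (shift true ω)))) :=
      ((genLim_tendsto h2).add (genLim_tendsto h3)).const_mul _
    exact tendsto_nhds_unique t1 t2
  have hnn : ∀ᵐ ω ∂(law Q), 0 ≤ genLim ω := by
    filter_upwards [hfin] with ω h
    exact ge_of_tendsto' (genLim_tendsto h) fun n => genW_nonneg n ω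
  have hint : ∫ ω, genLim ω ∂(law Q) = 1 := by
    have hbd : Integrable (fun ω : Smp E => 1 + (6 + (genS ω).toReal) / 2) (law Q) := by
      have := integrable_toReal_of_lintegral_ne_top genS_meas.aemeasurable (genS_fin Q)
      exact (integrable_const _).add (((integrable_const _).add this).div_const 2)
    have h1 := tendsto_integral_of_dominated_convergence (μ := law Q)
      (F := fun n => genW n) (f := genLim) (fun ω => 1 + (6 + (genS ω).toReal) / 2)
      (fun n => (genW_meas n).aestronglyMeasurable) hbd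
      (fun n => by
        filter_upwards [hfin] with ω h
        exact (gen_conv h).2 n)
      (by
        filter_upwards [hfin] with ω h
        exact genLim_tendsto h)
    have h2 : (fun n => ∫ ω, genW n ω ∂(law Q)) = fun _ => (1 : ℝ) :=
      funext fun n => (genW_moments Q n).2.1
    rw [h2] at h1
    exact tendsto_nhds_unique h1 tendsto_const_nhds
  have hL2 : MemLp genLim 2 (law Q) := by
    rw [memLp_two_iff_integrable_sq genLim_meas.aestronglyMeasurable]
    refine ⟨(genLim_meas.pow_const 2).aestronglyMeasurable, ?_⟩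
    rw [hasFiniteIntegral_iff_ofReal (Eventually.of_forall fun ω => sq_nonneg _)]
    have h1 : ∫⁻ ω, ENNReal.ofReal (genLim ω ^ 2) ∂(law Q) =
        ∫⁻ ω, liminf (fun n => ENNReal.ofReal (genW n ω ^ 2)) atTop ∂(law Q) := by
      refine lintegral_congr_ae ?_
      filter_upwards [hfin] with ω h
      have := ((genLim_tendsto h).pow 2)
      exact ((ENNReal.tendsto_ofReal this).liminf_eq).symm
    rw [h1]
    refine (lintegral_liminf_le fun n => ((genW_meas n).pow_const 2).ennreal_ofReal).trans_lt ?_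
    have h2 : ∀ n, ∫⁻ ω, ENNReal.ofReal (genW n ω ^ 2) ∂(law Q) ≤ ENNReal.ofReal 2 := by
      intro n
      obtain ⟨g1, -, g3⟩ := genW_moments (E := E) Q n
      rw [← ofReal_integral_eq_lintegral_ofReal g1 (Eventually.of_forall fun ω => sq_nonneg _)]
      exact ENNReal.ofReal_le_ofReal g3
    refine lt_of_le_of_lt ?_ (ENNReal.ofReal_lt_top (r := 2))
    calc liminf (fun n => ∫⁻ ω, ENNReal.ofReal (genW n ω ^ 2) ∂(law Q)) atTop
        ≤ liminf (fun _ : ℕ => ENNReal.ofReal 2) atTop :=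
          liminf_le_liminf (Eventually.of_forall h2)
      _ = ENNReal.ofReal 2 := liminf_const _
  refine ⟨genLim, genLim_meas, ?_, hint, hL2, hrec⟩
  -- positivity
  have hmp := mp_split (E := E) Q
  have hZ : MeasurableSet {ω : Smp E | genLim ω = 0} := genLim_meas (measurableSet_singleton 0)
  have hp : law Q {ω : Smp E | genLim ω = 0} =
      law Q {ω : Smp E | genLim ω = 0} * law Q {ω : Smp E | genLim ω = 0} := by
    have h1 : law Q {ω : Smp E | genLim ω = 0} =
        law Q ((fun ω : Smp E => (ω [], (shift false ω, shift true ω))) ⁻¹'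
          (Set.univ ×ˢ ({ω : Smp E | genLim ω = 0} ×ˢ {ω : Smp E | genLim ω = 0}))) := by
      refine measure_congr ?_
      filter_upwards [hrec, (shift_mp Q false).quasiMeasurePreserving.ae hnn,
        (shift_mp Q true).quasiMeasurePreserving.ae hnn] with ω h1 h2 h3
      refine propext ?_
      show genLim ω = 0 ↔ True ∧ genLim (shift false ω) = 0 ∧ genLim (shift true ω) = 0
      rw [h1]
      constructor
      · intro h
        have h4 := (mul_eq_zero.mp h).resolve_left (Real.exp_pos _).ne'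
        exact ⟨trivial, by linarith, by linarith⟩
      · rintro ⟨-, h4, h5⟩
        rw [h4, h5]
        ring
    conv_lhs => rw [h1]
    rw [hmp.measure_preimage (MeasurableSet.univ.prod (hZ.prod hZ)).nullMeasurableSet,
      Measure.prod_prod, Measure.prod_prod, measure_univ, one_mul]
  have hp0 : law Q {ω : Smp E | genLim ω = 0} = 0 := by
    by_contra hne
    have h1 : law Q {ω : Smp E | genLim ω = 0} = 1 := by
      have hf : law Q {ω : Smp E | genLim ω = 0} ≠ ⊤ := measure_ne_top _ _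
      have := hp
      conv_lhs at this => rw [← mul_one (law Q {ω : Smp E | genLim ω = 0})]
      exact ((ENNReal.mul_right_inj hne hf).mp this).symm
    have h2 : ∀ᵐ ω ∂(law Q), genLim ω = 0 := by
      rw [← prob_compl_eq_zero_iff hZ] at h1
      exact h1
    have h3 : ∫ ω, genLim ω ∂(law Q) = 0 := by
      rw [integral_congr_ae h2]
      simp
    rw [hint] at h3
    exact one_ne_zero h3
  have hne : ∀ᵐ ω ∂(law Q), genLim ω ≠ 0 := by
    rw [ae_iff]
    simpa using hp0
  filter_upwards [hnn, hne] with ω h1 h2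
  exact lt_of_le_of_ne h1 (Ne.symm h2)

end Pool.Agent.H96.BB
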