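import Pool.Agent.H96.BB.Defs

/-! (D): change of variables on the circle. -/

set_option autoImplicit false

namespace Pool.Agent.H96.BB

open MeasureTheory ProbabilityTheory Filter Topology
open scoped ENNReal NNReal

lemma dd_den_ne (z : ℂ) (hz : ‖z‖ < 1) (w : ℂ) (hw : ‖w‖ ≤ 1) : 1 + (starRingEnd ℂ) z * w ≠ 0 := by
  intro h
  have h1 : ‖(starRingEnd ℂ) z * w‖ = 1 := by
    have : (starRingEnd ℂ) z * w = -1 := by linear_combination h
    rw [this]; simp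
  rw [norm_mul, RCLike.norm_conj] at h1
  have h2 : ‖z‖ * ‖w‖ ≤ ‖z‖ * 1 := by gcongr
  linarith

lemma dd_conj_mul_eq (z : ℂ) : (starRingEnd ℂ) z * z = ((‖z‖ ^ 2 : ℝ) : ℂ) := by
  rw [mul_comm, Complex.mul_conj, Complex.normSq_eq_norm_sq]

lemma dd_one_sub_ne (z : ℂ) (hz : ‖z‖ < 1) : 1 - (starRingEnd ℂ) z * z ≠ 0 := by
  rw [dd_conj_mul_eq]
  have h1 : ‖z‖ ^ 2 < 1 := by nlinarith [norm_nonneg z]
  intro h
  have h2 : ((1 - ‖z‖ ^ 2 : ℝ) : ℂ) = 0 := by push_cast; push_cast at h; exact h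
  have h3 : 1 - ‖z‖ ^ 2 = 0 := by exact_mod_cast h2
  linarith

/-- on the circle `1 + conj z * w = w * conj (w + z)` -/
lemma dd_den_eq (z w : ℂ) (hw : ‖w‖ = 1) :
    1 + (starRingEnd ℂ) z * w = w * (starRingEnd ℂ) (w + z) := by
  have h1 : (starRingEnd ℂ) w * w = 1 := by rw [dd_conj_mul_eq, hw]; norm_num
  rw [map_add]
  linear_combination -h1

lemma dd_norm_den (z w : ℂ) (hw : ‖w‖ = 1) : ‖1 + (starRingEnd ℂ) z * w‖ = ‖w + z‖ := by
  rw [dd_den_eq z w hw, norm_mul, RCLike.norm_conj, hw, one_mul]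

lemma dd_add_ne (z : ℂ) (hz : ‖z‖ < 1) (w : ℂ) (hw : ‖w‖ = 1) : w + z ≠ 0 := by
  rw [← norm_ne_zero_iff, ← dd_norm_den z w hw, norm_ne_zero_iff]
  exact dd_den_ne z hz w hw.le

lemma dd_mob_sub (z : ℂ) (hz : ‖z‖ < 1) (w : ℂ) (hw : ‖w‖ ≤ 1) :
    mob z w - z = w * (1 - (starRingEnd ℂ) z * z) / (1 + (starRingEnd ℂ) z * w) := by
  have h1 := dd_den_ne z hz w hw
  unfold mob
  rw [eq_div_iff h1, sub_mul, div_mul_cancel₀ _ h1]
  ring

theorem mob_inv (z : ℂ) (hz : ‖z‖ < 1) (w : ℂ) (hw : ‖w‖ ≤ 1) : mob (-z) (mob z w) = w := by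
  have h1 := dd_den_ne z hz w hw
  have h2 := dd_one_sub_ne z hz
  have h3 := dd_mob_sub z hz w hw
  have h4 : 1 + (starRingEnd ℂ) (-z) * mob z w =
      (1 - (starRingEnd ℂ) z * z) / (1 + (starRingEnd ℂ) z * w) := by
    unfold mob
    rw [map_neg, eq_div_iff h1, add_mul, mul_assoc, div_mul_cancel₀ _ h1]
    ring
  have h5 : mob (-z) (mob z w) = (mob z w - z) / (1 + (starRingEnd ℂ) (-z) * mob z w) := by
    rw [mob, sub_eq_add_neg]
  rw [h5, h3, h4, div_div_div_cancel_right₀ h1, mul_div_cancel_right₀ _ h2]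

theorem mob_circle (z : ℂ) (hz : ‖z‖ < 1) (w : ℂ) (hw : ‖w‖ = 1) : ‖mob z w‖ = 1 := by
  unfold mob
  rw [norm_div, dd_norm_den z w hw, div_self]
  exact norm_ne_zero_iff.2 (dd_add_ne z hz w hw)

theorem mob_disk (z : ℂ) (hz : ‖z‖ < 1) (w : ℂ) (hw : ‖w‖ < 1) : ‖mob z w‖ < 1 := by
  have h1 := dd_den_ne z hz w hw.le
  have h2 : 0 < ‖1 + (starRingEnd ℂ) z * w‖ := norm_pos_iff.2 h1
  unfold mob
  rw [norm_div, div_lt_one h2]
  apply lt_of_pow_lt_pow_left₀ 2 h2.le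
  rw [← Complex.normSq_eq_norm_sq, ← Complex.normSq_eq_norm_sq]
  have h3 : Complex.normSq (1 + (starRingEnd ℂ) z * w) - Complex.normSq (w + z) =
      (1 - Complex.normSq z) * (1 - Complex.normSq w) := by
    simp only [Complex.normSq_apply, Complex.add_re, Complex.add_im, Complex.mul_re,
      Complex.mul_im, Complex.conj_re, Complex.conj_im, Complex.one_re, Complex.one_im]
    ring
  have h4 : 0 < 1 - Complex.normSq z := by
    rw [Complex.normSq_eq_norm_sq]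
    nlinarith [norm_nonneg z]
  have h5 : 0 < 1 - Complex.normSq w := by
    rw [Complex.normSq_eq_norm_sq]
    nlinarith [norm_nonneg w]
  have h6 := mul_pos h4 h5
  linarith

theorem mob_meas (z : ℂ) : Measurable (mob z) := by
  unfold mob
  fun_prop

theorem pk_mob (z : ℂ) (hz : ‖z‖ < 1) (w : ℂ) (hw : ‖w‖ = 1) :
    pk z (mob z w) * pk (-z) w = 1 := by
  have h1 : ‖z‖ ^ 2 < 1 := by nlinarith [norm_nonneg z]
  have h2 : 0 < ‖w + z‖ := norm_pos_iff.2 (dd_add_ne z hz w hw)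
  have h3 : ‖mob z w - z‖ = (1 - ‖z‖ ^ 2) / ‖w + z‖ := by
    rw [dd_mob_sub z hz w hw.le, norm_div, norm_mul, hw, one_mul, dd_norm_den z w hw, dd_conj_mul_eq]
    congr 1
    have h4 : (1 : ℂ) - ((‖z‖ ^ 2 : ℝ) : ℂ) = ((1 - ‖z‖ ^ 2 : ℝ) : ℂ) := by push_cast; ring
    rw [h4, Complex.norm_real, Real.norm_of_nonneg (by linarith)]
  unfold pk
  rw [h3, sub_neg_eq_add, norm_neg]
  have h5 : 1 - ‖z‖ ^ 2 ≠ 0 := by linarith
  field_simp

section arc

variable (z : ℂ)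

/-- the Jacobian -/
noncomputable def dd_kk (θ : ℝ) : ℝ := pk (-z) (circleMap 0 1 θ)

lemma dd_norm_cm (θ : ℝ) : ‖circleMap 0 1 θ‖ = 1 := by simp

lemma dd_kk_pos (hz : ‖z‖ < 1) (θ : ℝ) : 0 < dd_kk z θ := by
  unfold dd_kk pk
  have h1 : ‖z‖ ^ 2 < 1 := by nlinarith [norm_nonneg z]
  have h2 : 0 < ‖circleMap 0 1 θ + z‖ := norm_pos_iff.2 (dd_add_ne z hz _ (dd_norm_cm θ))
  rw [sub_neg_eq_add, norm_neg]
  have h3 : 0 < 1 - ‖z‖ ^ 2 := by linarith
  positivity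

lemma dd_kk_cont (hz : ‖z‖ < 1) : Continuous (dd_kk z) := by
  unfold dd_kk pk
  refine Continuous.div (by fun_prop) (by fun_prop) fun θ => ?_
  have h2 : 0 < ‖circleMap 0 1 θ + z‖ := norm_pos_iff.2 (dd_add_ne z hz _ (dd_norm_cm θ))
  rw [sub_neg_eq_add]
  positivity

lemma dd_pk_eq (w : ℂ) (hw : ‖w‖ = 1) : (pk (-z) w : ℂ) =
    (1 - (starRingEnd ℂ) z * z) * w / ((w + z) * (1 + (starRingEnd ℂ) z * w)) := by
  have hw0 : w ≠ 0 := by
    rintro rfl
    simp at hw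
  have h1 : (w + z) * (starRingEnd ℂ) (w + z) = ((‖w + z‖ ^ 2 : ℝ) : ℂ) := by
    rw [Complex.mul_conj, Complex.normSq_eq_norm_sq]
  have h3 : (w + z) * (w * (starRingEnd ℂ) (w + z)) = ((‖w + z‖ ^ 2 : ℝ) : ℂ) * w := by
    rw [← h1]
    ring
  rw [dd_den_eq z w hw, dd_conj_mul_eq, h3, mul_div_mul_right _ _ hw0]
  unfold pk
  rw [sub_neg_eq_add, norm_neg]
  push_cast
  ring

lemma dd_hasDeriv_m (hz : ‖z‖ < 1) (θ : ℝ) : HasDerivAt (fun θ : ℝ => mob z (circleMap 0 1 θ))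
    (mob z (circleMap 0 1 θ) * (Complex.I * dd_kk z θ)) θ := by
  have hc := hasDerivAt_circleMap 0 1 θ
  have hd := dd_den_ne z hz _ (dd_norm_cm θ).le
  have h1 : HasDerivAt (fun θ : ℝ => circleMap 0 1 θ + z) (circleMap 0 1 θ * Complex.I) θ :=
    hc.add_const z
  have h2 : HasDerivAt (fun θ : ℝ => 1 + (starRingEnd ℂ) z * circleMap 0 1 θ)
      ((starRingEnd ℂ) z * (circleMap 0 1 θ * Complex.I)) θ := (hc.const_mul _).const_add 1
  have h3 := h1.div h2 hd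
  refine HasDerivAt.congr_deriv (f := fun θ : ℝ => mob z (circleMap 0 1 θ)) h3 ?_
  unfold dd_kk
  rw [dd_pk_eq z _ (dd_norm_cm θ)]
  have ha := dd_add_ne z hz _ (dd_norm_cm θ)
  unfold mob
  generalize circleMap 0 1 θ = w at *
  field_simp
  ring

lemma dd_int_kk (hz : ‖z‖ < 1) : ∫ s in (0 : ℝ)..2 * Real.pi, dd_kk z s = 2 * Real.pi := by
  have hd : DiffContOnCl ℂ (fun _ : ℂ => (1 : ℂ)) (Metric.ball 0 1) := diffContOnCl_const
  have hw : -z ∈ Metric.ball (0 : ℂ) 1 := by simpa using hz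
  have h1 := hd.circleAverage_poissonKernel_smul hw
  rw [Real.circleAverage_def] at h1
  have h2 : ∀ θ, (poissonKernel 0 (-z) • fun _ : ℂ => (1 : ℂ)) (circleMap 0 1 θ) =
      ((dd_kk z θ : ℝ) : ℂ) := by
    intro θ
    simp [poissonKernel, dd_kk, pk]
  simp only [h2] at h1
  rw [intervalIntegral.integral_ofReal] at h1
  have h3 : (2 * Real.pi)⁻¹ * ∫ s in (0 : ℝ)..2 * Real.pi, dd_kk z s = 1 := by
    have h4 := congrArg Complex.re h1
    simpa using h4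
  have hp : (2 * Real.pi) ≠ 0 := Real.two_pi_pos.ne'
  rw [inv_mul_eq_one₀ hp] at h3
  exact h3.symm

end arc

theorem arc_mob (z : ℂ) (hz : ‖z‖ < 1) (h : ℂ → ℝ≥0∞) (hh : Measurable h) :
    ∫⁻ ξ, h ξ ∂arc = ∫⁻ ξ, h (mob z ξ) * ENNReal.ofReal (pk (-z) ξ) ∂arc := by
  have hcm : Measurable (circleMap 0 1) := (continuous_circleMap 0 1).measurable
  have hpk : Measurable (pk (-z)) := by unfold pk; fun_prop
  have hm : Measurable fun ξ => h (mob z ξ) * ENNReal.ofReal (pk (-z) ξ) :=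
    (hh.comp (mob_meas z)).mul hpk.ennreal_ofReal
  unfold arc
  rw [lintegral_map hh hcm, lintegral_map hm hcm]
  obtain ⟨c, hc⟩ : ∃ c, c = (mob z (circleMap 0 1 0)).arg := ⟨_, rfl⟩
  obtain ⟨ψ, hψdef⟩ : ∃ ψ : ℝ → ℝ, ψ = fun θ => c + ∫ s in (0 : ℝ)..θ, dd_kk z s := ⟨_, rfl⟩
  have hkc := dd_kk_cont z hz
  have hψ : ∀ θ, HasDerivAt ψ (dd_kk z θ) θ := fun θ => by
    rw [hψdef]
    exact ((hkc.integral_hasStrictDerivAt 0 θ).hasDerivAt).const_add c
  have hψ0 : ψ 0 = c := by rw [hψdef]; simp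
  have hψ1 : ψ (2 * Real.pi) = c + 2 * Real.pi := by
    rw [hψdef]
    simp only [dd_int_kk z hz]
  have hmono : StrictMono ψ := strictMono_of_deriv_pos fun θ => by
    rw [(hψ θ).deriv]
    exact dd_kk_pos z hz θ
  have hexp : ∀ θ, mob z (circleMap 0 1 θ) = circleMap 0 1 (ψ θ) := by
    have hF : ∀ θ, HasDerivAt (fun θ : ℝ => mob z (circleMap 0 1 θ) *
        Complex.exp (-(ψ θ : ℂ) * Complex.I)) 0 θ := by
      intro θ
      have h1 := dd_hasDeriv_m z hz θ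
      have h2 : HasDerivAt (fun θ : ℝ => (ψ θ : ℂ)) (dd_kk z θ : ℂ) θ := (hψ θ).ofReal_comp
      have h3 : HasDerivAt (fun θ : ℝ => Complex.exp (-(ψ θ : ℂ) * Complex.I))
          (Complex.exp (-(ψ θ : ℂ) * Complex.I) * (-(dd_kk z θ : ℂ) * Complex.I)) θ :=
        (h2.neg.mul_const Complex.I).cexp
      have h4 := h1.mul h3
      refine HasDerivAt.congr_deriv (f := fun θ : ℝ => mob z (circleMap 0 1 θ) *
        Complex.exp (-(ψ θ : ℂ) * Complex.I)) h4 ?_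
      ring
    have h6 : mob z (circleMap 0 1 0) = Complex.exp (c * Complex.I) := by
      have h7 := Complex.norm_mul_exp_arg_mul_I (mob z (circleMap 0 1 0))
      rw [mob_circle z hz _ (dd_norm_cm 0), ← hc] at h7
      rw [← h7]
      push_cast
      ring
    intro θ
    have h5 : mob z (circleMap 0 1 θ) * Complex.exp (-(ψ θ : ℂ) * Complex.I) = 1 := by
      have h8 := is_const_of_deriv_eq_zero (fun θ => (hF θ).differentiableAt)
        (fun θ => (hF θ).deriv) θ 0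
      refine h8.trans ?_
      simp only [hψ0, h6, ← Complex.exp_add]
      rw [show (c : ℂ) * Complex.I + -(c : ℂ) * Complex.I = 0 by ring, Complex.exp_zero]
    have h9 : mob z (circleMap 0 1 θ) = Complex.exp (ψ θ * Complex.I) := by
      calc mob z (circleMap 0 1 θ) = (mob z (circleMap 0 1 θ) *
            Complex.exp (-(ψ θ : ℂ) * Complex.I)) * Complex.exp (ψ θ * Complex.I) := by
            rw [mul_assoc, ← Complex.exp_add,
              show -(ψ θ : ℂ) * Complex.I + (ψ θ : ℂ) * Complex.I = 0 by ring, Complex.exp_zero,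
              mul_one]
        _ = _ := by rw [h5, one_mul]
    rw [h9, circleMap_zero]
    push_cast
    ring
  have himg : ψ '' Set.Ioc 0 (2 * Real.pi) = Set.Ioc c (c + 2 * Real.pi) := by
    apply Set.Subset.antisymm
    · rintro _ ⟨θ, hθ, rfl⟩
      rw [← hψ1]
      refine ⟨?_, hmono.monotone hθ.2⟩
      rw [← hψ0]
      exact hmono hθ.1
    · have h1 : ContinuousOn ψ (Set.Icc 0 (2 * Real.pi)) :=
        fun θ _ => (hψ θ).continuousAt.continuousWithinAt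
      have h2 := intermediate_value_Ioc Real.two_pi_pos.le h1
      rwa [hψ0, hψ1] at h2
  have : Fact (0 < 2 * Real.pi) := ⟨Real.two_pi_pos⟩
  have hper : Function.Periodic (fun u => h (circleMap 0 1 u)) (2 * Real.pi) := fun u => by
    simp only [periodic_circleMap 0 1 u]
  have hshift : ∫⁻ u in Set.Ioc 0 (2 * Real.pi), h (circleMap 0 1 u) =
      ∫⁻ u in Set.Ioc c (c + 2 * Real.pi), h (circleMap 0 1 u) := by
    have h1 := AddCircle.lintegral_preimage (2 * Real.pi) c hper.lift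
    have h2 := AddCircle.lintegral_preimage (2 * Real.pi) 0 hper.lift
    simp only [zero_add] at h2
    exact h2.trans h1.symm
  rw [hshift, ← himg, lintegral_image_eq_lintegral_abs_deriv_mul measurableSet_Ioc
    (fun θ _ => (hψ θ).hasDerivWithinAt) hmono.injective.injOn]
  refine lintegral_congr fun θ => ?_
  rw [← hexp, abs_of_pos (dd_kk_pos z hz θ), mul_comm]
  rfl

end Pool.Agent.H96.BB
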