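import Pool.Agent.H96.BB.Defs

set_option autoImplicit false

/-!
# (A) The first label and the two subtrees are independent
-/

namespace Pool.Agent.H96.BB

open MeasureTheory ProbabilityTheory Filter Topology
open scoped ENNReal NNReal

section

variable {E : Type*}

/-- the sample with the given first label and subtrees -/
def join (p : (ℝ × E) × (Smp E × Smp E)) : Smp E := fun u =>
  match u with
  | [] => p.1
  | false :: u => p.2.1 u
  | true :: u => p.2.2 u

theorem join_split (ω : Smp E) : join (ω [], (shift false ω, shift true ω)) = ω := by
  funext u
  match u with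
  | [] => rfl
  | false :: u => rfl
  | true :: u => rfl

theorem split_join (p : (ℝ × E) × (Smp E × Smp E)) :
    ((join p) [], (shift false (join p), shift true (join p))) = p := rfl

variable [MeasurableSpace E]

theorem shift_meas (b : Bool) : Measurable (shift b : Smp E → Smp E) :=
  measurable_pi_lambda _ fun u => measurable_pi_apply (b :: u)

theorem split_meas :
    Measurable (fun ω : Smp E => (ω [], (shift false ω, shift true ω))) :=
  (measurable_pi_apply []).prodMk ((shift_meas false).prodMk (shift_meas true))

theorem join_meas : Measurable (join : (ℝ × E) × (Smp E × Smp E) → Smp E) := by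
  refine measurable_pi_lambda _ fun u => ?_
  match u with
  | [] => exact measurable_fst
  | false :: u => exact (measurable_pi_apply u).comp (measurable_fst.comp measurable_snd)
  | true :: u => exact (measurable_pi_apply u).comp (measurable_snd.comp measurable_snd)

theorem prod_list (s : Finset (List Bool)) (g : List Bool → ℝ≥0∞) :
    ∏ u ∈ s, g u = (if ([] : List Bool) ∈ s then g [] else 1) *
      ((∏ u ∈ s.preimage (List.cons false) (List.cons_injective.injOn), g (false :: u)) *
        ∏ u ∈ s.preimage (List.cons true) (List.cons_injective.injOn), g (true :: u)) := by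
  classical
  have h1 : (if ([] : List Bool) ∈ s then g [] else 1) = ∏ u ∈ s, if u = [] then g u else 1 := by
    rw [Finset.prod_ite_eq' s [] g]
  rw [h1, Finset.prod_preimage' (List.cons false) s (List.cons_injective.injOn) g,
    Finset.prod_preimage' (List.cons true) s (List.cons_injective.injOn) g, Finset.prod_filter,
    Finset.prod_filter, ← Finset.prod_mul_distrib, ← Finset.prod_mul_distrib]
  refine Finset.prod_congr rfl fun u _ => ?_
  match u with
  | [] => simp
  | false :: u => simp
  | true :: u => simp

theorem join_mp (Q : Measure E) [IsProbabilityMeasure Q] :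
    MeasurePreserving (join : (ℝ × E) × (Smp E × Smp E) → Smp E)
      ((one Q).prod ((law Q).prod (law Q))) (law Q) := by
  classical
  refine ⟨join_meas, ?_⟩
  refine Measure.eq_infinitePi _ fun s t ht => ?_
  have hs0 : ∀ b : Bool, ∀ u ∈ s.preimage (List.cons b) (List.cons_injective.injOn),
      MeasurableSet (t (b :: u)) := by
    intro b u hu
    exact ht _
  have hms : MeasurableSet (Set.pi (s : Set (List Bool)) t) :=
    MeasurableSet.pi s.countable_toSet fun i _ => ht i
  have hpre : (join : (ℝ × E) × (Smp E × Smp E) → Smp E) ⁻¹' (Set.pi (s : Set (List Bool)) t) =
      (if ([] : List Bool) ∈ s then t [] else Set.univ) ×ˢ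
        ((Set.pi ((s.preimage (List.cons false) (List.cons_injective.injOn) :
            Finset (List Bool)) : Set (List Bool)) fun u => t (false :: u)) ×ˢ
          (Set.pi ((s.preimage (List.cons true) (List.cons_injective.injOn) :
            Finset (List Bool)) : Set (List Bool)) fun u => t (true :: u))) := by
    ext p
    simp only [Set.mem_preimage, Set.mem_pi, Finset.mem_coe, Set.mem_prod, Finset.mem_preimage]
    constructor
    · intro h
      refine ⟨?_, fun u hu => h _ hu, fun u hu => h _ hu⟩
      split_ifs with h0
      · exact h _ h0
      · exact Set.mem_univ _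
    · rintro ⟨h0, h1, h2⟩ u hu
      match u, hu with
      | [], hu =>
        rw [if_pos hu] at h0
        exact h0
      | false :: u, hu => exact h1 u hu
      | true :: u, hu => exact h2 u hu
  rw [Measure.map_apply join_meas hms, hpre, Measure.prod_prod, Measure.prod_prod,
    prod_list s fun u => one Q (t u)]
  congr 1
  · split_ifs with h0
    · rfl
    · exact measure_univ
  · congr 1
    · exact Measure.infinitePi_pi _ fun u hu => hs0 false u hu
    · exact Measure.infinitePi_pi _ fun u hu => hs0 true u hu

/-- The first label and the two subtrees are independent. -/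
theorem mp_split (Q : Measure E) [IsProbabilityMeasure Q] :
    MeasurePreserving (fun ω : Smp E => (ω [], (shift false ω, shift true ω)))
      (law Q) ((one Q).prod ((law Q).prod (law Q))) := by
  refine ⟨split_meas, ?_⟩
  have h1 := (join_mp Q).map_eq
  rw [← h1, Measure.map_map split_meas join_meas, h1]
  have h2 : ((fun ω : Smp E => (ω [], (shift false ω, shift true ω))) ∘ join) = id := by
    funext p
    exact split_join p
  rw [h2, Measure.map_id]

end

end Pool.Agent.H96.BB
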