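import Pool.Agent.H96.BB.Defs
import Pool.Agent.H96.BB.Split
import Pool.Agent.H96.BB.Mob

/-!
# The main inequality (G2)
-/

namespace Pool.Agent.H96.BB

open MeasureTheory ProbabilityTheory Filter Topology
open scoped ENNReal NNReal

variable {E : Type*} [MeasurableSpace E]

namespace Ineq

noncomputable def Psi (x v : ℝ) : ℝ≥0∞ :=
  ENNReal.ofReal ((1 - Real.exp (-(Real.exp x * v))) * Real.exp (-x))

theorem Psi_meas : Measurable (fun p : ℝ × ℝ => Psi p.1 p.2) := by
  unfold Psi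
  fun_prop

theorem Psi_comp {α : Type*} [MeasurableSpace α] {u v : α → ℝ} (hu : Measurable u)
    (hv : Measurable v) : Measurable (fun a => Psi (u a) (v a)) := Psi_meas.comp (hu.prodMk hv)

theorem Psi_zero (x : ℝ) : Psi x 0 = 0 := by simp [Psi]

theorem fin_arc : IsFiniteMeasure arc := by
  unfold arc
  infer_instance

theorem arc_circle : ∀ᵐ ξ ∂arc, ‖ξ‖ = 1 := by
  unfold arc
  rw [ae_map_iff (measurable_circleMap 0 1).aemeasurable (measurableSet_eq_fun (by fun_prop) (by fun_prop))]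
  exact Eventually.of_forall fun θ => by simp

theorem pk_meas : Measurable (fun p : ℂ × ℂ => pk p.1 p.2) := by
  unfold pk
  fun_prop

theorem pk_pos (z ξ : ℂ) (hz : ‖z‖ < 1) (hξ : ‖ξ‖ = 1) : 0 < pk z ξ := by
  unfold pk
  have h1 : 0 < 1 - ‖z‖ ^ 2 := by nlinarith [norm_nonneg z]
  have h2 : ξ - z ≠ 0 := by
    intro h
    rw [sub_eq_zero] at h
    rw [h] at hξ
    linarith
  have h3 : 0 < ‖ξ - z‖ := norm_pos_iff.mpr h2
  positivity

theorem pk_neg (z ξ : ℂ) : pk (-z) ξ = pk z (-ξ) := by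
  unfold pk
  rw [norm_neg, sub_neg_eq_add, ← norm_neg (ξ + z)]
  congr 3
  ring

theorem point (x τ p v0 v1 : ℝ) (hp : 0 < p) (h0 : 0 ≤ v0) (h1 : 0 ≤ v1) :
    Psi x (Real.exp (-τ / 2) * (v0 + v1) / p) * ENNReal.ofReal p ≤
      ENNReal.ofReal (Real.exp (-τ / 2)) * Psi (x + (-τ / 2 - Real.log p)) v0 +
        ENNReal.ofReal (Real.exp (-τ / 2)) * Psi (x + (-τ / 2 - Real.log p)) v1 := by
  unfold Psi
  set y := -τ / 2 - Real.log p with hy
  have ey : Real.exp y = Real.exp (-τ / 2) / p := by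
    rw [hy, Real.exp_sub, Real.exp_log hp]
  have e1 : Real.exp x * (Real.exp (-τ / 2) * (v0 + v1) / p) =
      Real.exp (x + y) * v0 + Real.exp (x + y) * v1 := by
    rw [Real.exp_add, ey]; field_simp
  have e2 : Real.exp (-x) * p = Real.exp (-(x + y)) * Real.exp (-τ / 2) := by
    rw [Real.exp_neg (x + y), Real.exp_add, ey, Real.exp_neg x]
    have := (Real.exp_pos x).ne'
    have := (Real.exp_pos (-τ / 2)).ne'
    field_simp
  set a0 := Real.exp (x + y) * v0 with ha0
  set a1 := Real.exp (x + y) * v1 with ha1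
  have pa0 : 0 ≤ a0 := by positivity
  have pa1 : 0 ≤ a1 := by positivity
  have q0 : 0 ≤ 1 - Real.exp (-a0) := by
    have : Real.exp (-a0) ≤ 1 := Real.exp_le_one_iff.mpr (by linarith)
    linarith
  have q1 : 0 ≤ 1 - Real.exp (-a1) := by
    have : Real.exp (-a1) ≤ 1 := Real.exp_le_one_iff.mpr (by linarith)
    linarith
  have q01 : 0 ≤ 1 - Real.exp (-(a0 + a1)) := by
    have : Real.exp (-(a0 + a1)) ≤ 1 := Real.exp_le_one_iff.mpr (by linarith)
    linarith
  rw [e1, ← ENNReal.ofReal_mul (by positivity), ← ENNReal.ofReal_mul (by positivity),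
    ← ENNReal.ofReal_mul (by positivity), ← ENNReal.ofReal_add (by positivity) (by positivity)]
  apply ENNReal.ofReal_le_ofReal
  have e3 : (1 - Real.exp (-(a0 + a1))) * Real.exp (-x) * p =
      (1 - Real.exp (-(a0 + a1))) * (Real.exp (-(x + y)) * Real.exp (-τ / 2)) := by
    rw [← e2]; ring
  rw [e3]
  have e4 : Real.exp (-(a0 + a1)) = Real.exp (-a0) * Real.exp (-a1) := by
    rw [← Real.exp_add]; congr 1; ring
  rw [e4]
  have c0 : 0 ≤ Real.exp (-(x + y)) * Real.exp (-τ / 2) := by positivity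
  nlinarith [mul_nonneg c0 (mul_nonneg q0 q1)]

theorem mp_b (Q : Measure E) [IsProbabilityMeasure Q] (b : Bool) :
    MeasurePreserving (fun ω : Smp E => (ω [], shift b ω)) (law Q) ((one Q).prod (law Q)) := by
  cases b
  · exact ((MeasurePreserving.id (one Q)).prod
      (measurePreserving_fst (μ := law Q) (ν := law Q))).comp (mp_split Q)
  · exact ((MeasurePreserving.id (one Q)).prod
      (measurePreserving_snd (μ := law Q) (ν := law Q))).comp (mp_split Q)

noncomputable def yy (B : ℝ≥0 → E → ℂ) (q : ℝ × E) (ξ : ℂ) : ℝ :=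
  -q.1 / 2 - Real.log (pk (-(B q.1.toNNReal q.2)) ξ)

noncomputable def KK (B : ℝ≥0 → E → ℂ) (f : Smp E → ℂ → ℝ≥0∞) (x : ℝ) (q : ℝ × E) (ω : Smp E)
    (ξ : ℂ) : ℝ≥0∞ :=
  ENNReal.ofReal (Real.exp (-q.1 / 2)) * Psi (x + yy B q ξ) (f ω ξ).toReal

theorem yy_comp {Q : Measure E} {B : ℝ≥0 → E → ℂ} (hB : IsHypBM Q B) {α : Type*}
    [MeasurableSpace α] {q : α → ℝ × E} {z : α → ℂ} (hq : Measurable q) (hz : Measurable z) :
    Measurable (fun a => yy B (q a) (z a)) := by
  have h1 : Measurable (Function.uncurry B) :=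
    measurable_uncurry_of_continuous_of_measurable (fun e => hB.cont e) (fun t => hB.meas t)
  have h2 : Measurable (fun a => B (q a).1.toNNReal (q a).2) :=
    h1.comp (f := fun a => ((q a).1.toNNReal, (q a).2)) (by fun_prop)
  have h3 : Measurable (fun a => pk (-(B (q a).1.toNNReal (q a).2)) (z a)) :=
    pk_meas.comp (f := fun a => (-(B (q a).1.toNNReal (q a).2), z a)) (h2.neg.prodMk hz)
  unfold yy
  exact (by fun_prop : Measurable fun a => -(q a).1 / 2).sub (Real.measurable_log.comp h3)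

theorem KK_comp {Q : Measure E} {B : ℝ≥0 → E → ℂ} (hB : IsHypBM Q B) {f : Smp E → ℂ → ℝ≥0∞}
    (hf : Measurable (Function.uncurry f)) (x : ℝ) {α : Type*}
    [MeasurableSpace α] {q : α → ℝ × E} {w : α → Smp E} {z : α → ℂ} (hq : Measurable q)
    (hw : Measurable w) (hz : Measurable z) :
    Measurable (fun a => KK B f x (q a) (w a) (z a)) := by
  unfold KK
  have h1 : Measurable (fun a => ENNReal.ofReal (Real.exp (-(q a).1 / 2))) := by fun_prop
  have h2 : Measurable (fun a => (f (w a) (z a)).toReal) :=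
    (hf.comp (f := fun a => (w a, z a)) (hw.prodMk hz)).ennreal_toReal
  exact h1.mul (Psi_comp (measurable_const.add (yy_comp hB hq hz)) h2)

theorem main_aux (Q : Measure E) [IsProbabilityMeasure Q] (B : ℝ≥0 → E → ℂ) (hB : IsHypBM Q B)
    (hstep : ∀ η : ℂ, ‖η‖ = 1 →
      ((one Q).withDensity fun p => ENNReal.ofReal (2 * Real.exp (-p.1 / 2))).map
        (fun p => -p.1 / 2 - Real.log (pk (B p.1.toNNReal p.2) η)) = Lap)
    (f : Smp E → ℂ → ℝ≥0∞) (hf : Measurable (Function.uncurry f))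
    (hrec : ∀ᵐ ω ∂(law Q), ∀ᵐ ξ ∂arc,
      f ω (mob (B (ω []).1.toNNReal (ω []).2) ξ) *
          ENNReal.ofReal (pk (-(B (ω []).1.toNNReal (ω []).2)) ξ) =
        ENNReal.ofReal (Real.exp (-(ω []).1 / 2)) * (f (shift false ω) ξ + f (shift true ω) ξ))
    (x : ℝ) :
    ∫⁻ ω, ∫⁻ ξ, ENNReal.ofReal ((1 - Real.exp (-(Real.exp x * (f ω ξ).toReal))) * Real.exp (-x))
        ∂arc ∂(law Q) ≤
      ∫⁻ y, (∫⁻ ω, ∫⁻ ξ, ENNReal.ofReal
        ((1 - Real.exp (-(Real.exp (x + y) * (f ω ξ).toReal))) * Real.exp (-(x + y)))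
          ∂arc ∂(law Q)) ∂Lap := by
  have := fin_arc
  change ∫⁻ ω, ∫⁻ ξ, Psi x (f ω ξ).toReal ∂arc ∂(law Q) ≤
    ∫⁻ y, (∫⁻ ω, ∫⁻ ξ, Psi (x + y) (f ω ξ).toReal ∂arc ∂(law Q)) ∂Lap
  -- measurability
  have hfc : ∀ m : Smp E, Measurable (fun ξ => (f m ξ).toReal) := fun m =>
    (hf.comp (f := fun ξ => (m, ξ)) (by fun_prop)).ennreal_toReal
  have hft : Measurable (fun m : Smp E × ℂ => (f m.1 m.2).toReal) := hf.ennreal_toReal
  -- step 1: pointwise
  have s1 : ∀ᵐ ω ∂(law Q), ∫⁻ ξ, Psi x (f ω ξ).toReal ∂arc ≤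
      ∫⁻ ξ, KK B f x (ω []) (shift false ω) ξ ∂arc + ∫⁻ ξ, KK B f x (ω []) (shift true ω) ξ ∂arc := by
    filter_upwards [hrec] with ω hω
    set Z := B (ω []).1.toNNReal (ω []).2 with hZ
    have hZ1 : ‖Z‖ < 1 := hB.disk _ _
    have hm : Measurable (fun ξ => Psi x (f ω ξ).toReal) :=
      Psi_comp measurable_const (hfc ω)
    rw [arc_mob Z hZ1 _ hm]
    have hKm : Measurable (fun ξ => KK B f x (ω []) (shift false ω) ξ) :=
      KK_comp hB hf x measurable_const measurable_const measurable_id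
    rw [← lintegral_add_left hKm]
    apply lintegral_mono_ae
    filter_upwards [hω, arc_circle] with ξ hξ hc
    have hp : 0 < pk (-Z) ξ := pk_pos _ _ (by rwa [norm_neg]) hc
    by_cases h0 : f (shift false ω) ξ = ⊤
    · have : f ω (mob Z ξ) = ⊤ := by
        by_contra hne
        have h2 : f ω (mob Z ξ) * ENNReal.ofReal (pk (-Z) ξ) ≠ ⊤ :=
          ENNReal.mul_ne_top hne ENNReal.ofReal_ne_top
        apply h2
        rw [hξ, h0, top_add, ENNReal.mul_top]
        simp [Real.exp_pos]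
      rw [this]
      simp [Psi_zero]
    by_cases h1 : f (shift true ω) ξ = ⊤
    · have : f ω (mob Z ξ) = ⊤ := by
        by_contra hne
        have h2 : f ω (mob Z ξ) * ENNReal.ofReal (pk (-Z) ξ) ≠ ⊤ :=
          ENNReal.mul_ne_top hne ENNReal.ofReal_ne_top
        apply h2
        rw [hξ, h1, add_top, ENNReal.mul_top]
        simp [Real.exp_pos]
      rw [this]
      simp [Psi_zero]
    have e : (f ω (mob Z ξ)).toReal = Real.exp (-(ω []).1 / 2) *
        ((f (shift false ω) ξ).toReal + (f (shift true ω) ξ).toReal) / pk (-Z) ξ := by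
      have := congrArg ENNReal.toReal hξ
      rw [ENNReal.toReal_mul, ENNReal.toReal_mul, ENNReal.toReal_ofReal hp.le,
        ENNReal.toReal_ofReal (Real.exp_pos _).le, ENNReal.toReal_add h0 h1] at this
      rw [eq_div_iff hp.ne', this]
    rw [e]
    exact point x (ω []).1 (pk (-Z) ξ) _ _ hp ENNReal.toReal_nonneg ENNReal.toReal_nonneg
  -- step 2: integrate with the splitting
  have hG : Measurable (fun p : (ℝ × E) × Smp E => ∫⁻ ξ, KK B f x p.1 p.2 ξ ∂arc) :=
    (KK_comp hB hf x (α := ((ℝ × E) × Smp E) × ℂ) (q := fun p => p.1.1) (w := fun p => p.1.2)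
      (z := fun p => p.2) (by fun_prop) (by fun_prop) (by fun_prop)).lintegral_prod_right'
  have s2 : ∀ b : Bool, ∫⁻ ω, (∫⁻ ξ, KK B f x (ω []) (shift b ω) ξ ∂arc) ∂(law Q) =
      ∫⁻ q, ∫⁻ m, KK B f x q m.1 m.2 ∂((law Q).prod arc) ∂(one Q) := by
    intro b
    have h1 := (mp_b Q b).lintegral_comp hG
    rw [h1, lintegral_prod _ hG.aemeasurable]
    refine lintegral_congr fun q => ?_
    have hq : Measurable (fun m : Smp E × ℂ => KK B f x q m.1 m.2) :=
      KK_comp hB hf x measurable_const measurable_fst measurable_snd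
    rw [lintegral_prod _ hq.aemeasurable]
  have hm2 : Measurable (fun ω : Smp E => ∫⁻ ξ, KK B f x (ω []) (shift false ω) ξ ∂arc) :=
    hG.comp (mp_b Q false).measurable
  have s3 : ∫⁻ ω, ∫⁻ ξ, Psi x (f ω ξ).toReal ∂arc ∂(law Q) ≤
      2 * ∫⁻ q, ∫⁻ m, KK B f x q m.1 m.2 ∂((law Q).prod arc) ∂(one Q) := by
    refine (lintegral_mono_ae s1).trans ?_
    rw [lintegral_add_left hm2, s2, s2, two_mul]
  refine s3.trans ?_
  -- step 3: swap and use the step law
  have hKs : Measurable (Function.uncurry fun (q : ℝ × E) (m : Smp E × ℂ) => KK B f x q m.1 m.2) :=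
    KK_comp hB hf x measurable_fst measurable_snd.fst measurable_snd.snd
  rw [lintegral_lintegral_swap hKs.aemeasurable]
  have hKq : ∀ m : Smp E × ℂ, Measurable (fun q : ℝ × E => KK B f x q m.1 m.2) := fun m =>
    KK_comp hB hf x measurable_id measurable_const measurable_const
  have hIn : Measurable (fun m : Smp E × ℂ => ∫⁻ q, KK B f x q m.1 m.2 ∂(one Q)) :=
    Measurable.lintegral_prod_left' hKs
  rw [← lintegral_const_mul _ hIn]
  have hcirc : ∀ᵐ m : Smp E × ℂ ∂((law Q).prod arc), ‖m.2‖ = 1 := by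
    have := (Measure.quasiMeasurePreserving_snd (μ := law Q) (ν := arc)).ae arc_circle
    exact this
  have s4 : ∀ᵐ m : Smp E × ℂ ∂((law Q).prod arc), 2 * ∫⁻ q, KK B f x q m.1 m.2 ∂(one Q) =
      ∫⁻ y, Psi (x + y) (f m.1 m.2).toReal ∂Lap := by
    filter_upwards [hcirc] with m hm
    have hym : Measurable (fun q : ℝ × E => yy B q m.2) :=
      yy_comp hB measurable_id measurable_const
    have hyeq : (fun p : ℝ × E => -p.1 / 2 - Real.log (pk (B p.1.toNNReal p.2) (-m.2))) =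
        fun q => yy B q m.2 := by
      funext q
      simp only [yy, pk_neg]
    have hst := hstep (-m.2) (by rw [norm_neg]; exact hm)
    rw [hyeq] at hst
    have hPm : Measurable (fun y : ℝ => Psi (x + y) (f m.1 m.2).toReal) :=
      Psi_comp (by fun_prop) measurable_const
    rw [← hst, lintegral_map hPm hym]
    have hPy : Measurable (fun q : ℝ × E => Psi (x + yy B q m.2) (f m.1 m.2).toReal) :=
      Psi_comp (measurable_const.add hym) measurable_const
    rw [lintegral_withDensity_eq_lintegral_mul (one Q)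
      (f := fun p : ℝ × E => ENNReal.ofReal (2 * Real.exp (-p.1 / 2))) (by fun_prop) hPy]
    rw [← lintegral_const_mul _ (hKq m)]
    refine lintegral_congr fun q => ?_
    simp only [KK, Pi.mul_apply]
    rw [ENNReal.ofReal_mul (by norm_num : (0:ℝ) ≤ 2), ← mul_assoc]
    norm_num
  rw [lintegral_congr_ae s4]
  have hL : Measurable (Function.uncurry fun (m : Smp E × ℂ) (y : ℝ) => Psi (x + y) (f m.1 m.2).toReal) :=
    Psi_comp (by fun_prop) (hft.comp measurable_fst)
  have : SFinite Lap := by unfold Lap; infer_instance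
  rw [lintegral_lintegral_swap hL.aemeasurable]
  refine le_of_eq (lintegral_congr fun y => ?_)
  have hLy : Measurable (fun m : Smp E × ℂ => Psi (x + y) (f m.1 m.2).toReal) :=
    Psi_comp measurable_const hft
  rw [lintegral_prod _ hLy.aemeasurable]

end Ineq

/-- G2: the main inequality. -/
theorem main_ineq (Q : Measure E) [IsProbabilityMeasure Q] (B : ℝ≥0 → E → ℂ) (hB : IsHypBM Q B)
    (hstep : ∀ η : ℂ, ‖η‖ = 1 →
      ((one Q).withDensity fun p => ENNReal.ofReal (2 * Real.exp (-p.1 / 2))).map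
        (fun p => -p.1 / 2 - Real.log (pk (B p.1.toNNReal p.2) η)) = Lap)
    (f : Smp E → ℂ → ℝ≥0∞) (hf : Measurable (Function.uncurry f))
    (hfin : ∀ᵐ ω ∂(law Q), ∀ᵐ ξ ∂arc, f ω ξ < ⊤)
    (hrec : ∀ᵐ ω ∂(law Q), ∀ᵐ ξ ∂arc,
      f ω (mob (B (ω []).1.toNNReal (ω []).2) ξ) *
          ENNReal.ofReal (pk (-(B (ω []).1.toNNReal (ω []).2)) ξ) =
        ENNReal.ofReal (Real.exp (-(ω []).1 / 2)) * (f (shift false ω) ξ + f (shift true ω) ξ))
    (x : ℝ) :
    ∫⁻ ω, ∫⁻ ξ, ENNReal.ofReal ((1 - Real.exp (-(Real.exp x * (f ω ξ).toReal))) * Real.exp (-x))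
        ∂arc ∂(law Q) ≤
      ∫⁻ y, (∫⁻ ω, ∫⁻ ξ, ENNReal.ofReal
        ((1 - Real.exp (-(Real.exp (x + y) * (f ω ξ).toReal))) * Real.exp (-(x + y)))
          ∂arc ∂(law Q)) ∂Lap :=
  Ineq.main_aux Q B hB hstep f hf hrec x

end Pool.Agent.H96.BB
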