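import Pool.Agent.H96.BB.Split
import Pool.Agent.H96.BB.Det

/-! (C2) The recursion of the limit measure. -/

namespace Pool.Agent.H96.BB

open MeasureTheory ProbabilityTheory Filter Topology
open scoped ENNReal NNReal

variable {E : Type*} [MeasurableSpace E]

/-- The shifts preserve the law. -/
theorem Rec.shift_mp (Q : Measure E) [IsProbabilityMeasure Q] (b : Bool) :
    MeasurePreserving (shift b : Smp E → Smp E) (law Q) (law Q) := by
  have h := mp_split Q
  cases b with
  | false =>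
    have h1 : MeasurePreserving (Prod.fst : Smp E × Smp E → Smp E)
        ((law Q).prod (law Q)) (law Q) := measurePreserving_fst
    have h2 : MeasurePreserving (Prod.snd : (ℝ × E) × (Smp E × Smp E) → Smp E × Smp E)
        ((one Q).prod ((law Q).prod (law Q))) ((law Q).prod (law Q)) := measurePreserving_snd
    exact (h1.comp h2).comp h
  | true =>
    have h1 : MeasurePreserving (Prod.snd : Smp E × Smp E → Smp E)
        ((law Q).prod (law Q)) (law Q) := measurePreserving_snd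
    have h2 : MeasurePreserving (Prod.snd : (ℝ × E) × (Smp E × Smp E) → Smp E × Smp E)
        ((one Q).prod ((law Q).prod (law Q))) ((law Q).prod (law Q)) := measurePreserving_snd
    exact (h1.comp h2).comp h

omit [MeasurableSpace E] in
/-- Integrals against the raw measures converge along good sequences. -/
theorem Rec.key (B : ℝ≥0 → E → ℂ) (ω : Smp E) (u : ℕ → ℝ) (hu : Tendsto u atTop atTop)
    (m : Measure ℂ) (hlim : WeakLim (emp B ω) m) (w : ℝ) (hw : 0 < w)
    (hc : Tendsto (fun k => Real.exp (-(u k) / 2) * (cnt ω (u k)).toReal) atTop (𝓝 w))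
    (φ : ℂ → ℝ) (hφ : Continuous φ) (hb : ∃ C, ∀ z, |φ z| ≤ C) :
    (∀ᶠ k in atTop, cnt ω (u k) ≠ ⊤) ∧
    Tendsto (fun k => Real.exp (-(u k) / 2) * ∫ z, φ z ∂(raw B ω (u k))) atTop
      (𝓝 (w * ∫ z, φ z ∂m)) := by
  have hpos : ∀ᶠ k in atTop, 0 < Real.exp (-(u k) / 2) * (cnt ω (u k)).toReal :=
    hc.eventually (lt_mem_nhds hw)
  have hne : ∀ᶠ k in atTop, (cnt ω (u k)).toReal ≠ 0 := by
    filter_upwards [hpos] with k hk h0
    rw [h0, mul_zero] at hk
    exact lt_irrefl _ hk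
  refine ⟨?_, ?_⟩
  · filter_upwards [hne] with k hk h0
    rw [h0] at hk
    simp at hk
  · have h1 : Tendsto (fun k => ∫ z, φ z ∂(emp B ω (u k))) atTop (𝓝 (∫ z, φ z ∂m)) :=
      (hlim φ hφ hb).comp hu
    have h2 := hc.mul h1
    refine h2.congr' ?_
    filter_upwards [hne] with k hk
    unfold emp
    rw [integral_smul_measure, ENNReal.toReal_inv, smul_eq_mul]
    field_simp

/-- The retraction of the plane onto the closed unit disk. -/
noncomputable def Rec.ret (w : ℂ) : ℂ := ((max 1 ‖w‖ : ℝ) : ℂ)⁻¹ * w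

theorem Rec.ret_cont : Continuous Rec.ret := by
  unfold Rec.ret
  refine Continuous.mul (Continuous.inv₀ ?_ ?_) continuous_id
  · exact Complex.continuous_ofReal.comp (continuous_const.max continuous_norm)
  · intro w h
    have h1 : (1 : ℝ) ≤ max 1 ‖w‖ := le_max_left _ _
    have h2 : (max 1 ‖w‖ : ℝ) = 0 := by exact_mod_cast h
    linarith

theorem Rec.ret_norm (w : ℂ) : ‖Rec.ret w‖ ≤ 1 := by
  unfold Rec.ret
  have h1 : (1 : ℝ) ≤ max 1 ‖w‖ := le_max_left _ _
  rw [norm_mul, norm_inv, Complex.norm_real, Real.norm_eq_abs, abs_of_pos (by linarith),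
    inv_mul_le_iff₀ (by linarith), mul_one]
  exact le_max_right _ _

theorem Rec.ret_eq {w : ℂ} (hw : ‖w‖ ≤ 1) : Rec.ret w = w := by
  unfold Rec.ret
  rw [max_eq_left hw]
  simp

theorem Rec.den_ne {z w : ℂ} (hz : ‖z‖ < 1) (hw : ‖w‖ ≤ 1) : 1 + (starRingEnd ℂ) z * w ≠ 0 := by
  intro h
  have h1 : (starRingEnd ℂ) z * w = -1 := by linear_combination h
  have h2 : ‖(starRingEnd ℂ) z * w‖ = 1 := by rw [h1]; simp
  rw [norm_mul, RCLike.norm_conj] at h2
  have h3 : ‖z‖ * ‖w‖ ≤ ‖z‖ * 1 := mul_le_mul_of_nonneg_left hw (norm_nonneg _)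
  linarith

theorem Rec.comp_cont {z : ℂ} (hz : ‖z‖ < 1) : Continuous fun w => mob z (Rec.ret w) := by
  unfold mob
  refine Continuous.div ?_ ?_ ?_
  · exact Rec.ret_cont.add continuous_const
  · exact continuous_const.add (continuous_const.mul Rec.ret_cont)
  · exact fun w => Rec.den_ne hz (Rec.ret_norm w)

theorem nu_rec (Q : Measure E) [IsProbabilityMeasure Q] (B : ℝ≥0 → E → ℂ) (hB : IsHypBM Q B)
    (μ : Smp E → Measure ℂ) (_hμm : Measurable μ)
    (hμ : ∀ᵐ ω ∂(law Q), IsProbabilityMeasure (μ ω) ∧ μ ω (Metric.sphere 0 1)ᶜ = 0 ∧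
      WeakLim (emp B ω) (μ ω))
    (W : Smp E → ℝ) (_hm : Measurable W) (hW0 : ∀ᵐ ω ∂(law Q), 0 < W ω)
    (s : ℕ → ℝ) (hs : Tendsto s atTop atTop)
    (hsub : ∀ᵐ ω ∂(law Q),
      Tendsto (fun k => Real.exp (-(s k) / 2) * (cnt ω (s k)).toReal) atTop (𝓝 (W ω)) ∧
      ∀ b : Bool, Tendsto (fun k => Real.exp (-(s k - (ω []).1) / 2) *
        (cnt (shift b ω) (s k - (ω []).1)).toReal) atTop (𝓝 (W (shift b ω)))) :
    ∀ᵐ ω ∂(law Q), ENNReal.ofReal (W ω) • μ ω =
      ENNReal.ofReal (Real.exp (-(ω []).1 / 2)) •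
        ((ENNReal.ofReal (W (shift false ω)) • μ (shift false ω)
          + ENNReal.ofReal (W (shift true ω)) • μ (shift true ω)).map
            (mob (B (ω []).1.toNNReal (ω []).2))) := by
  have hμ' : ∀ b, ∀ᵐ ω ∂(law Q), IsProbabilityMeasure (μ (shift b ω)) ∧
      μ (shift b ω) (Metric.sphere 0 1)ᶜ = 0 ∧ WeakLim (emp B (shift b ω)) (μ (shift b ω)) :=
    fun b => (Rec.shift_mp Q b).quasiMeasurePreserving.ae hμ
  have hW' : ∀ b, ∀ᵐ ω ∂(law Q), 0 < W (shift b ω) :=
    fun b => (Rec.shift_mp Q b).quasiMeasurePreserving.ae hW0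
  filter_upwards [hμ, hμ' false, hμ' true, hW0, hW' false, hW' true, hsub] with ω h1 h2 h3 w1 w2 w3
    hω
  obtain ⟨p1, -, l1⟩ := h1
  obtain ⟨p2, c2, l2⟩ := h2
  obtain ⟨p3, c3, l3⟩ := h3
  obtain ⟨q1, q2⟩ := hω
  set τ := (ω []).1 with hτ
  set z := B τ.toNNReal (ω []).2 with hz
  have hz1 : ‖z‖ < 1 := hB.disk _ _
  have hu : Tendsto (fun k => s k - τ) atTop atTop := tendsto_atTop_add_const_right _ _ hs
  have i1 : IsFiniteMeasure (ENNReal.ofReal (W ω) • μ ω) :=
    Measure.smul_finite _ ENNReal.ofReal_ne_top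
  have i2 : IsFiniteMeasure (ENNReal.ofReal (W (shift false ω)) • μ (shift false ω)) :=
    Measure.smul_finite _ ENNReal.ofReal_ne_top
  have i3 : IsFiniteMeasure (ENNReal.ofReal (W (shift true ω)) • μ (shift true ω)) :=
    Measure.smul_finite _ ENNReal.ofReal_ne_top
  have i4 : IsFiniteMeasure (ENNReal.ofReal (Real.exp (-τ / 2)) •
      (ENNReal.ofReal (W (shift false ω)) • μ (shift false ω)
        + ENNReal.ofReal (W (shift true ω)) • μ (shift true ω)).map (mob z)) :=
    Measure.smul_finite _ ENNReal.ofReal_ne_top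
  apply ext_of_forall_integral_eq_of_IsFiniteMeasure
  intro φ
  set ψ : ℂ → ℝ := fun w => φ (mob z (Rec.ret w)) with hψ
  have hψc : Continuous ψ := φ.continuous.comp (Rec.comp_cont hz1)
  have hφb : ∃ C, ∀ w, |φ w| ≤ C := ⟨‖φ‖, fun w => by
    rw [← Real.norm_eq_abs]; exact φ.norm_coe_le_norm w⟩
  have hψb : ∃ C, ∀ w, |ψ w| ≤ C := ⟨‖φ‖, fun w => by
    rw [← Real.norm_eq_abs]; exact φ.norm_coe_le_norm _⟩
  obtain ⟨f1, k1⟩ := Rec.key B ω s hs (μ ω) l1 (W ω) w1 q1 φ φ.continuous hφb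
  obtain ⟨f2, k2⟩ := Rec.key B (shift false ω) (fun k => s k - τ) hu (μ (shift false ω)) l2
    (W (shift false ω)) w2 (q2 false) ψ hψc hψb
  obtain ⟨f3, k3⟩ := Rec.key B (shift true ω) (fun k => s k - τ) hu (μ (shift true ω)) l3
    (W (shift true ω)) w3 (q2 true) ψ hψc hψb
  -- integrals of the composition
  have hcomp : ∀ (m : Measure ℂ), m (Metric.closedBall 0 1)ᶜ = 0 →
      ∫ w, φ (mob z w) ∂m = ∫ w, ψ w ∂m := by
    intro m hm
    apply integral_congr_ae
    have : ∀ᵐ w ∂m, w ∈ Metric.closedBall (0 : ℂ) 1 := by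
      rw [ae_iff]; exact hm
    filter_upwards [this] with w hw
    rw [mem_closedBall_zero_iff] at hw
    simp only [hψ, Rec.ret_eq hw]
  have hint : ∀ (m : Measure ℂ), m Set.univ ≠ ⊤ → Integrable ψ m := by
    intro m hm
    have : IsFiniteMeasure m := ⟨hm.lt_top⟩
    obtain ⟨C, hC⟩ := hψb
    exact Integrable.of_bound hψc.aestronglyMeasurable C
      (Filter.Eventually.of_forall fun w => by rw [Real.norm_eq_abs]; exact hC w)
  -- the identity for the raw measures
  have hev : ∀ᶠ k in atTop, Real.exp (-(s k) / 2) * ∫ w, φ w ∂(raw B ω (s k)) =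
      Real.exp (-τ / 2) * (Real.exp (-(s k - τ) / 2) *
          ∫ w, ψ w ∂(raw B (shift false ω) (s k - τ)) +
        Real.exp (-(s k - τ) / 2) * ∫ w, ψ w ∂(raw B (shift true ω) (s k - τ))) := by
    filter_upwards [f2, f3, hs.eventually (eventually_ge_atTop τ)] with k g2 g3 g4
    have e1 : ∫ w, φ w ∂(raw B ω (s k)) = ∫ w, ψ w ∂(raw B (shift false ω) (s k - τ)) +
        ∫ w, ψ w ∂(raw B (shift true ω) (s k - τ)) := by
      rw [raw_split B ω (s k) g4, integral_map (mob_measurable _).aemeasurable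
        φ.continuous.aestronglyMeasurable, hcomp, integral_add_measure]
      · exact hint _ (by rw [raw_univ]; exact g2)
      · exact hint _ (by rw [raw_univ]; exact g3)
      · have hsub' : (Metric.closedBall (0 : ℂ) 1)ᶜ ⊆ (Metric.ball (0 : ℂ) 1)ᶜ :=
          Set.compl_subset_compl.mpr Metric.ball_subset_closedBall
        rw [Measure.add_apply]
        rw [measure_mono_null hsub' (raw_disk B hB.disk _ _),
          measure_mono_null hsub' (raw_disk B hB.disk _ _), add_zero]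
    rw [e1]
    have e2 : Real.exp (-(s k) / 2) = Real.exp (-τ / 2) * Real.exp (-(s k - τ) / 2) := by
      rw [← Real.exp_add]; congr 1; ring
    rw [e2]
    ring
  have hlim2 : Tendsto (fun k => Real.exp (-(s k) / 2) * ∫ w, φ w ∂(raw B ω (s k))) atTop
      (𝓝 (Real.exp (-τ / 2) * (W (shift false ω) * ∫ w, ψ w ∂(μ (shift false ω)) +
        W (shift true ω) * ∫ w, ψ w ∂(μ (shift true ω))))) :=
    ((k2.add k3).const_mul (Real.exp (-τ / 2))).congr' (hev.mono fun k hk => hk.symm)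
  have hfin := tendsto_nhds_unique k1 hlim2
  have hcb : ∀ m : Measure ℂ, m (Metric.sphere 0 1)ᶜ = 0 → m (Metric.closedBall 0 1)ᶜ = 0 :=
    fun m hm => measure_mono_null (Set.compl_subset_compl.mpr Metric.sphere_subset_closedBall) hm
  rw [integral_smul_measure, integral_smul_measure, ENNReal.toReal_ofReal w1.le,
    ENNReal.toReal_ofReal (Real.exp_nonneg _), smul_eq_mul, smul_eq_mul, hfin,
    integral_map (mob_measurable _).aemeasurable φ.continuous.aestronglyMeasurable, hcomp,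
    integral_add_measure, integral_smul_measure, integral_smul_measure,
    ENNReal.toReal_ofReal w2.le, ENNReal.toReal_ofReal w3.le, smul_eq_mul, smul_eq_mul]
  · exact (hint _ (measure_ne_top _ _)).smul_measure ENNReal.ofReal_ne_top
  · exact (hint _ (measure_ne_top _ _)).smul_measure ENNReal.ofReal_ne_top
  · rw [Measure.add_apply, Measure.smul_apply, Measure.smul_apply, hcb _ c2, hcb _ c3]
    simp

end Pool.Agent.H96.BB
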