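import Pool.Agent.H96.BB.Defs

/-!
# The law of the step of the spine
-/

namespace Pool.Agent.H96.BB

open MeasureTheory ProbabilityTheory Filter Topology
open scoped ENNReal NNReal

variable {E : Type*} [MeasurableSpace E]

private theorem exp_tilt :
    (expMeasure (1 / 2)).withDensity (fun τ => ENNReal.ofReal (2 * Real.exp (-τ / 2))) =
      expMeasure 1 := by
  have h1 : ∀ r : ℝ, expMeasure r = volume.withDensity (exponentialPDF r) := fun _ => rfl
  rw [h1, h1, ← withDensity_mul]
  · congr 1
    funext x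
    simp only [Pi.mul_apply, exponentialPDF_eq]
    split_ifs with hx
    · rw [← ENNReal.ofReal_mul (by positivity)]
      congr 1
      have : Real.exp (-(1 * x)) = Real.exp (-(1 / 2 * x)) * Real.exp (-x / 2) := by
        rw [← Real.exp_add]; congr 1; ring
      rw [this]; ring
    · simp
  · unfold exponentialPDF
    fun_prop
  · fun_prop

private theorem one_tilt (Q : Measure E) [IsProbabilityMeasure Q] :
    ((one Q).withDensity fun p => ENNReal.ofReal (2 * Real.exp (-p.1 / 2))) =
      (expMeasure 1).prod Q := by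
  have : IsProbabilityMeasure (expMeasure (1 / 2)) :=
    isProbabilityMeasure_expMeasure (by norm_num)
  rw [← exp_tilt, prod_withDensity_left (by fun_prop)]
  rfl

private theorem exp_char (F : ℝ → ℂ) (θ : ℝ)
    (hF : ∀ τ : ℝ, 0 ≤ τ → F τ = Complex.exp (-(θ ^ 2 / 2) * τ)) :
    ∫ τ, F τ ∂(expMeasure 1) = 2 / (2 + θ ^ 2) := by
  have h1 : expMeasure 1 = volume.withDensity (exponentialPDF 1) := rfl
  have hm : Measurable (exponentialPDF 1) := by unfold exponentialPDF; fun_prop
  rw [h1, integral_withDensity_eq_integral_toReal_smul hm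
    (ae_of_all _ fun x => by simp [exponentialPDF])]
  have h2 : (fun τ : ℝ => (exponentialPDF 1 τ).toReal • F τ) =
      (Set.Ici (0 : ℝ)).indicator
        (fun τ : ℝ => Complex.exp ((-(1 + θ ^ 2 / 2) : ℂ) * τ)) := by
    funext τ
    by_cases hτ : 0 ≤ τ
    · rw [Set.indicator_of_mem (Set.mem_Ici.2 hτ), hF τ hτ, exponentialPDF_eq, if_pos hτ,
        ENNReal.toReal_ofReal (by positivity), Complex.real_smul]
      push_cast
      rw [one_mul, ← Complex.exp_add]
      congr 1
      ring
    · rw [Set.indicator_of_notMem (by simpa using hτ), exponentialPDF_eq, if_neg hτ]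
      simp
  rw [h2, integral_indicator measurableSet_Ici, integral_Ici_eq_integral_Ioi,
    integral_exp_mul_complex_Ioi]
  · simp only [Complex.ofReal_zero, mul_zero, Complex.exp_zero]
    have h3 : (2 + (θ : ℂ) ^ 2) ≠ 0 := by
      have : (0 : ℝ) < 2 + θ ^ 2 := by positivity
      exact_mod_cast this.ne'
    have h4 : (1 + (θ : ℂ) ^ 2 / 2) ≠ 0 := by
      have : (0 : ℝ) < 1 + θ ^ 2 / 2 := by positivity
      exact_mod_cast this.ne'
    field_simp
  · have : (-(1 + (θ : ℂ) ^ 2 / 2)) = ((-(1 + θ ^ 2 / 2) : ℝ) : ℂ) := by push_cast; ring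
    rw [this, Complex.ofReal_re]
    have : (0 : ℝ) < 1 + θ ^ 2 / 2 := by positivity
    linarith

private theorem sq2 : (Real.sqrt 2 : ℂ) ^ 2 = 2 := by
  rw [← Complex.ofReal_pow, Real.sq_sqrt (by norm_num)]
  norm_num

private theorem sq2_pos : 0 < Real.sqrt 2 := Real.sqrt_pos.2 (by norm_num)

private theorem lap_intble :
    Integrable (fun y : ℝ => Real.sqrt 2 / 2 * Real.exp (-(Real.sqrt 2 * |y|))) := by
  rw [← integrableOn_univ, ← Set.Iic_union_Ioi (a := (0 : ℝ)), integrableOn_union]
  constructor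
  · refine IntegrableOn.congr_fun ((integrableOn_exp_mul_Iic sq2_pos 0).const_mul
      (Real.sqrt 2 / 2)) ?_ measurableSet_Iic
    intro y hy
    have hy' : y ≤ 0 := hy
    simp only [abs_of_nonpos hy']
    congr 2
    ring
  · refine IntegrableOn.congr_fun ((integrableOn_exp_mul_Ioi (a := -Real.sqrt 2)
      (by linarith [sq2_pos]) 0).const_mul (Real.sqrt 2 / 2)) ?_ measurableSet_Ioi
    intro y hy
    have hy' : 0 < y := hy
    simp only [abs_of_pos hy']
    congr 2
    ring

private theorem lap_fin : IsFiniteMeasure Lap := by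
  unfold Lap
  exact isFiniteMeasure_withDensity_ofReal lap_intble.2

private theorem lap_char (θ : ℝ) : charFun Lap θ = 2 / (2 + θ ^ 2) := by
  rw [charFun_apply_real]
  unfold Lap
  rw [integral_withDensity_eq_integral_toReal_smul (by fun_prop)
    (ae_of_all _ fun x => by simp)]
  have hl : ∀ y ∈ Set.Iic (0 : ℝ),
      (ENNReal.ofReal (Real.sqrt 2 / 2 * Real.exp (-(Real.sqrt 2 * |y|)))).toReal •
        Complex.exp (θ * y * Complex.I) =
      (Real.sqrt 2 / 2 : ℂ) * Complex.exp ((Real.sqrt 2 + θ * Complex.I : ℂ) * y) := by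
    intro y hy
    have hy' : y ≤ 0 := hy
    rw [ENNReal.toReal_ofReal (by positivity), abs_of_nonpos hy', Complex.real_smul]
    push_cast
    rw [mul_assoc, ← Complex.exp_add]
    congr 2
    ring
  have hr : ∀ y ∈ Set.Ioi (0 : ℝ),
      (ENNReal.ofReal (Real.sqrt 2 / 2 * Real.exp (-(Real.sqrt 2 * |y|)))).toReal •
        Complex.exp (θ * y * Complex.I) =
      (Real.sqrt 2 / 2 : ℂ) * Complex.exp ((-Real.sqrt 2 + θ * Complex.I : ℂ) * y) := by
    intro y hy
    have hy' : 0 < y := hy
    rw [ENNReal.toReal_ofReal (by positivity), abs_of_pos hy', Complex.real_smul]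
    push_cast
    rw [mul_assoc, ← Complex.exp_add]
    congr 2
    ring
  have hal : 0 < ((Real.sqrt 2 + θ * Complex.I : ℂ)).re := by
    simp
  have har : ((-Real.sqrt 2 + θ * Complex.I : ℂ)).re < 0 := by
    simp
  rw [← intervalIntegral.integral_Iic_add_Ioi (b := (0 : ℝ)),
    setIntegral_congr_fun measurableSet_Iic hl, setIntegral_congr_fun measurableSet_Ioi hr,
    integral_const_mul, integral_const_mul, integral_exp_mul_complex_Iic hal,
    integral_exp_mul_complex_Ioi har]
  · simp only [Complex.ofReal_zero, mul_zero, Complex.exp_zero]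
    have h3 : (2 + (θ : ℂ) ^ 2) ≠ 0 := by
      have : (0 : ℝ) < 2 + θ ^ 2 := by positivity
      exact_mod_cast this.ne'
    have h4 : (Real.sqrt 2 + θ * Complex.I : ℂ) ≠ 0 := by
      intro h
      rw [h] at hal
      simp at hal
    have h5 : (-Real.sqrt 2 + θ * Complex.I : ℂ) ≠ 0 := by
      intro h
      rw [h] at har
      simp at har
    have h6 : (Real.sqrt 2 + θ * Complex.I : ℂ) * (-Real.sqrt 2 + θ * Complex.I : ℂ) =
        -(2 + (θ : ℂ) ^ 2) := by
      linear_combination (-1 : ℂ) * sq2 + (θ : ℂ) ^ 2 * Complex.I_sq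
    rw [← mul_add, div_add_div _ _ h4 h5, h6]
    field_simp
    linear_combination (2 : ℂ) * sq2
  · exact IntegrableOn.congr_fun ((integrableOn_exp_mul_complex_Iic hal 0).const_mul
      (Real.sqrt 2 / 2 : ℂ)) (fun y hy => (hl y hy).symm) measurableSet_Iic
  · exact IntegrableOn.congr_fun ((integrableOn_exp_mul_complex_Ioi har 0).const_mul
      (Real.sqrt 2 / 2 : ℂ)) (fun y hy => (hr y hy).symm) measurableSet_Ioi

private theorem meas_pk {Q : Measure E} {B : ℝ≥0 → E → ℂ} (hB : IsHypBM Q B) (η : ℂ) :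
    Measurable (fun p : ℝ × E => Real.log (pk (B p.1.toNNReal p.2) η)) := by
  have h1 : Measurable (Function.uncurry B) :=
    measurable_uncurry_of_continuous_of_measurable hB.cont hB.meas
  have h2 : Measurable (fun p : ℝ × E => B p.1.toNNReal p.2) := by
    have : (fun p : ℝ × E => B p.1.toNNReal p.2) =
        Function.uncurry B ∘ (fun p : ℝ × E => (p.1.toNNReal, p.2)) := rfl
    rw [this]
    exact h1.comp (by fun_prop)
  unfold pk
  fun_prop

/-- The law of the step of the spine. -/
theorem step_law (Q : Measure E) [IsProbabilityMeasure Q] (B : ℝ≥0 → E → ℂ) (hB : IsHypBM Q B)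
    (hchar : ∀ η : ℂ, ‖η‖ = 1 → ∀ (t : ℝ≥0) (θ : ℝ),
      ∫ e, Complex.exp (Complex.I * (θ * Real.log (pk (B t e) η) : ℝ)) ∂Q =
        Complex.exp (-(Complex.I * θ + θ ^ 2) * t / 2))
    (η : ℂ) (hη : ‖η‖ = 1) :
    ((one Q).withDensity fun p => ENNReal.ofReal (2 * Real.exp (-p.1 / 2))).map
      (fun p => -p.1 / 2 - Real.log (pk (B p.1.toNNReal p.2) η)) = Lap := by
  have := lap_fin
  have : IsProbabilityMeasure (expMeasure 1) := isProbabilityMeasure_expMeasure (by norm_num)
  have hg : Measurable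
      (fun p : ℝ × E => -p.1 / 2 - Real.log (pk (B p.1.toNNReal p.2) η)) :=
    (by fun_prop : Measurable fun p : ℝ × E => -p.1 / 2).sub (meas_pk hB η)
  rw [one_tilt]
  have : IsFiniteMeasure (((expMeasure 1).prod Q).map
      (fun p => -p.1 / 2 - Real.log (pk (B p.1.toNNReal p.2) η))) := by
    have := Measure.isProbabilityMeasure_map (μ := (expMeasure 1).prod Q) hg.aemeasurable
    infer_instance
  refine Measure.ext_of_charFun ?_
  funext θ
  rw [lap_char, charFun_apply_real, integral_map hg.aemeasurable (by fun_prop),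
    integral_prod]
  · refine exp_char _ θ ?_
    intro τ hτ
    have h1 : ∀ e : E, Complex.exp (θ * ((-(τ, e).1 / 2 -
        Real.log (pk (B (τ, e).1.toNNReal (τ, e).2) η) : ℝ) : ℂ) * Complex.I) =
        Complex.exp (-(θ * τ / 2) * Complex.I) *
          Complex.exp (Complex.I * ((-θ) * Real.log (pk (B τ.toNNReal e) η) : ℝ)) := by
      intro e
      rw [← Complex.exp_add]
      congr 1
      push_cast
      ring
    simp_rw [h1]
    rw [integral_const_mul, hchar η hη, ← Complex.exp_add]
    congr 1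
    have h2 : ((τ.toNNReal : ℝ≥0) : ℂ) = (τ : ℂ) := by
      have : ((τ.toNNReal : ℝ≥0) : ℝ) = τ := Real.coe_toNNReal τ hτ
      exact_mod_cast this
    rw [h2]
    push_cast
    ring
  · refine Integrable.of_bound (C := 1) ?_ (ae_of_all _ fun p => ?_)
    · refine Measurable.aestronglyMeasurable ?_
      refine Complex.measurable_exp.comp ?_
      exact ((Complex.measurable_ofReal.comp hg).const_mul _).mul_const _
    · rw [← Complex.ofReal_mul, Complex.norm_exp_ofReal_mul_I]

end Pool.Agent.H96.BB
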