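import Pool.Agent.H96.BB.Split
import Pool.Agent.H96.BB.Det

/-! C1: a common subsequence with almost everywhere convergence. -/

set_option autoImplicit false

namespace Pool.Agent.H96.BB

open MeasureTheory ProbabilityTheory Filter Topology
open scoped ENNReal NNReal

variable {E : Type*} [MeasurableSpace E]

namespace SubL

/-- the normalised number of particles -/
noncomputable def X (t : ℝ) (ω : Smp E) : ℝ := Real.exp (-t / 2) * (cnt ω t).toReal

theorem X_meas : Measurable fun p : Smp E × ℝ => X p.2 p.1 := by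
  unfold X
  have h1 : Measurable fun p : Smp E × ℝ => (cnt p.1 p.2).toReal := cnt_meas.ennreal_toReal
  have h2 : Measurable fun p : Smp E × ℝ => Real.exp (-p.2 / 2) := by fun_prop
  exact h2.mul h1

theorem X_meas' (t : ℝ) : Measurable fun ω : Smp E => X t ω :=
  X_meas.comp (measurable_id.prodMk measurable_const)

/-- the mean square distance -/
noncomputable def D (Q : Measure E) [IsProbabilityMeasure Q] (W : Smp E → ℝ) (t : ℝ) : ℝ≥0∞ :=
  ∫⁻ ω, ENNReal.ofReal ((X t ω - W ω) ^ 2) ∂(law Q)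

theorem core (Q : Measure E) [IsProbabilityMeasure Q] (W : Smp E → ℝ) (hm : Measurable W)
    (s : ℕ → ℝ) (hs : ∀ k : ℕ, ∀ t, s k - k ≤ t → D Q W t ≤ (2⁻¹ : ℝ≥0∞) ^ k) (τ : ℝ) :
    ∀ᵐ ω ∂(law Q), Tendsto (fun k => X (s k - τ) ω) atTop (𝓝 (W ω)) := by
  set K : ℕ := ⌈τ⌉₊ with hK
  have hτ : τ ≤ K := Nat.le_ceil τ
  have hme : ∀ k : ℕ, Measurable fun ω : Smp E =>
      ENNReal.ofReal ((X (s (k + K) - τ) ω - W ω) ^ 2) := fun k =>
    (((X_meas' _).sub hm).pow_const 2).ennreal_ofReal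
  have h1 : ∫⁻ ω, ∑' k : ℕ, ENNReal.ofReal ((X (s (k + K) - τ) ω - W ω) ^ 2) ∂(law Q) ≠ ⊤ := by
    rw [lintegral_tsum fun k => (hme k).aemeasurable]
    have h2 : ∑' k : ℕ, ∫⁻ ω, ENNReal.ofReal ((X (s (k + K) - τ) ω - W ω) ^ 2) ∂(law Q) ≤
        ∑' k : ℕ, (2⁻¹ : ℝ≥0∞) ^ k := by
      refine ENNReal.tsum_le_tsum fun k => ?_
      have h3 : D Q W (s (k + K) - τ) ≤ (2⁻¹ : ℝ≥0∞) ^ (k + K) := by
        refine hs (k + K) _ ?_
        push_cast
        have : (0:ℝ) ≤ k := Nat.cast_nonneg k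
        linarith
      refine h3.trans ?_
      exact pow_le_pow_right_of_le_one' (by simp) (Nat.le_add_right k K)
    refine ne_top_of_le_ne_top ?_ h2
    rw [ENNReal.tsum_geometric, ENNReal.one_sub_inv_two]
    simp
  have h4 := ae_lt_top (Measurable.tsum hme) h1
  filter_upwards [h4] with ω hω
  have h5 := ENNReal.tendsto_atTop_zero_of_tsum_ne_top hω.ne
  have h6 : Tendsto (fun k => (X (s (k + K) - τ) ω - W ω) ^ 2) atTop (𝓝 0) := by
    have h7 := (ENNReal.tendsto_toReal ENNReal.zero_ne_top).comp h5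
    simp only [ENNReal.toReal_zero] at h7
    refine h7.congr fun k => ?_
    simp only [Function.comp]
    rw [ENNReal.toReal_ofReal (sq_nonneg _)]
  have h8 : Tendsto (fun k => X (s (k + K) - τ) ω - W ω) atTop (𝓝 0) := by
    have h9 := (Real.continuous_sqrt.tendsto 0).comp h6
    rw [Real.sqrt_zero] at h9
    refine (tendsto_zero_iff_abs_tendsto_zero _).2 ?_
    refine h9.congr fun k => ?_
    simp only [Function.comp]
    rw [Real.sqrt_sq_eq_abs]
  have h10 : Tendsto (fun k => X (s (k + K) - τ) ω) atTop (𝓝 (W ω)) := by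
    have := h8.add_const (W ω)
    simpa using this
  exact (tendsto_add_atTop_iff_nat (f := fun k => X (s k - τ) ω) K).1 h10

/-- the choice of a component -/
def sel (b : Bool) (y : Smp E × Smp E) : Smp E := if b then y.2 else y.1

theorem sel_meas (b : Bool) : Measurable (sel (E := E) b) := by
  cases b
  · exact measurable_fst
  · exact measurable_snd

theorem sel_ae (Q : Measure E) [IsProbabilityMeasure Q] (b : Bool) (p : Smp E → Prop)
    (h : ∀ᵐ ω ∂(law Q), p ω) : ∀ᵐ y ∂((law Q).prod (law Q)), p (sel b y) := by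
  cases b
  · exact Measure.quasiMeasurePreserving_fst.ae h
  · exact Measure.quasiMeasurePreserving_snd.ae h

theorem shifted (Q : Measure E) [IsProbabilityMeasure Q] (W : Smp E → ℝ) (hm : Measurable W)
    (s : ℕ → ℝ) (hs : ∀ k : ℕ, ∀ t, s k - k ≤ t → D Q W t ≤ (2⁻¹ : ℝ≥0∞) ^ k) (b : Bool) :
    ∀ᵐ ω ∂(law Q), Tendsto (fun k => X (s k - (ω []).1) (shift b ω)) atTop
      (𝓝 (W (shift b ω))) := by
  have hms : MeasurableSet {x : (ℝ × E) × (Smp E × Smp E) |
      Tendsto (fun k => X (s k - x.1.1) (sel b x.2)) atTop (𝓝 (W (sel b x.2)))} := by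
    refine measurableSet_tendsto_fun (fun k => ?_) (hm.comp ((sel_meas b).comp measurable_snd))
    have h1 : Measurable fun x : (ℝ × E) × (Smp E × Smp E) => (sel b x.2, s k - x.1.1) :=
      ((sel_meas b).comp measurable_snd).prodMk (measurable_const.sub
        (measurable_fst.comp measurable_fst))
    exact X_meas.comp h1
  have h2 : ∀ᵐ x ∂((one Q).prod ((law Q).prod (law Q))),
      Tendsto (fun k => X (s k - x.1.1) (sel b x.2)) atTop (𝓝 (W (sel b x.2))) := by
    rw [Measure.ae_prod_iff_ae_ae hms]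
    refine Eventually.of_forall fun p => ?_
    exact sel_ae Q b (fun ω => Tendsto (fun k => X (s k - p.1) ω) atTop (𝓝 (W ω)))
      (core Q W hm s hs p.1)
  have h3 := (mp_split Q).quasiMeasurePreserving.ae h2
  filter_upwards [h3] with ω hω
  cases b
  · exact hω
  · exact hω

end SubL

open SubL in
theorem subseq (Q : Measure E) [IsProbabilityMeasure Q] (W : Smp E → ℝ) (hm : Measurable W)
    (_hW : MemLp W 2 (law Q))
    (h : Tendsto (fun t : ℝ => ∫⁻ ω, ENNReal.ofReal
      ((Real.exp (-t / 2) * (cnt ω t).toReal - W ω) ^ 2) ∂(law Q)) atTop (𝓝 0)) :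
    ∃ s : ℕ → ℝ, Tendsto s atTop atTop ∧ ∀ᵐ ω ∂(law Q),
      Tendsto (fun k => Real.exp (-(s k) / 2) * (cnt ω (s k)).toReal) atTop (𝓝 (W ω)) ∧
      ∀ b : Bool, Tendsto (fun k => Real.exp (-(s k - (ω []).1) / 2) *
        (cnt (shift b ω) (s k - (ω []).1)).toReal) atTop (𝓝 (W (shift b ω))) := by
  have h1 : ∀ k : ℕ, ∃ T : ℝ, ∀ t, T ≤ t → D Q W t ≤ (2⁻¹ : ℝ≥0∞) ^ k := by
    intro k
    have hp : (0 : ℝ≥0∞) < (2⁻¹ : ℝ≥0∞) ^ k := ENNReal.pow_pos (by simp) k
    have h2 := h.eventually_le_const hp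
    obtain ⟨T, hT⟩ := eventually_atTop.1 h2
    exact ⟨T, fun t ht => hT t ht⟩
  choose T hT using h1
  set s : ℕ → ℝ := fun k => max (T k) 0 + 2 * k with hsdef
  have hs : ∀ k : ℕ, ∀ t, s k - k ≤ t → D Q W t ≤ (2⁻¹ : ℝ≥0∞) ^ k := by
    intro k t ht
    refine hT k t ?_
    have h3 : (0:ℝ) ≤ k := Nat.cast_nonneg k
    have h4 := le_max_left (T k) 0
    simp only [hsdef] at ht
    linarith
  refine ⟨s, ?_, ?_⟩
  · refine tendsto_atTop_mono (fun k => ?_) tendsto_natCast_atTop_atTop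
    have h3 : (0:ℝ) ≤ k := Nat.cast_nonneg k
    have h4 := le_max_right (T k) 0
    simp only [hsdef]
    linarith
  · have h5 := core Q W hm s hs 0
    have h6 := fun b => shifted Q W hm s hs b
    filter_upwards [h5, h6 false, h6 true] with ω h7 h8 h9
    refine ⟨?_, fun b => ?_⟩
    · simpa [X] using h7
    · cases b
      · exact h8
      · exact h9

end Pool.Agent.H96.BB
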