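import Pool.Agent.H96.BB.Split

/-!
B1: the moments of the number of particles.
-/

namespace Pool.Agent.H96.BB

open MeasureTheory ProbabilityTheory Filter Topology
open scoped ENNReal NNReal

namespace Mom

/-- the words of length at most `n` -/
def wd : ℕ → Finset (List Bool)
  | 0 => {[]}
  | n + 1 => insert [] ((wd n).image (List.cons false) ∪ (wd n).image (List.cons true))

theorem mem_wd (n : ℕ) (u : List Bool) : u ∈ wd n ↔ u.length ≤ n := by
  induction n generalizing u with
  | zero => simp [wd]
  | succ n ih =>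
    cases u with
    | nil => simp [wd]
    | cons b u =>
      cases b <;> simp [wd, ih]

theorem sum_wd {f : List Bool → ℝ≥0∞} (n : ℕ) :
    ∑ u ∈ wd (n + 1), f u = f [] + (∑ u ∈ wd n, f (false :: u) + ∑ u ∈ wd n, f (true :: u)) := by
  rw [wd, Finset.sum_insert, Finset.sum_union, Finset.sum_image, Finset.sum_image]
  · intro a _ b _ h
    simpa using h
  · intro a _ b _ h
    simpa using h
  · rw [Finset.disjoint_left]
    intro u h1 h2
    rw [Finset.mem_image] at h1 h2
    obtain ⟨a, -, rfl⟩ := h1
    obtain ⟨b, -, h⟩ := h2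
    simp at h
  · simp

variable {E : Type*}

open Classical in
/-- the number of the particles of generation at most `n` alive at time `t` -/
noncomputable def N (n : ℕ) (ω : Smp E) (t : ℝ) : ℝ≥0∞ :=
  ∑ u ∈ wd n, if Alive u ω t then 1 else 0

open Classical in
/-- the first particle -/
noncomputable def ind (t s : ℝ) : ℝ≥0∞ := if 0 ≤ t ∧ t < s then 1 else 0

open Classical in
theorem ite_nil (ω : Smp E) (t : ℝ) :
    (if Alive [] ω t then (1 : ℝ≥0∞) else 0) = ind t (ω []).1 := by
  unfold ind
  by_cases h : Alive [] ω t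
  · rw [if_pos h, if_pos]
    rw [Alive] at h
    exact h
  · rw [if_neg h, if_neg]
    rw [Alive] at h
    exact h

open Classical in
theorem ite_cons (b : Bool) (u : List Bool) (ω : Smp E) (t : ℝ) :
    (if Alive (b :: u) ω t then (1 : ℝ≥0∞) else 0) =
      if Alive u (shift b ω) (t - (ω []).1) then 1 else 0 := by
  by_cases h : Alive (b :: u) ω t
  · rw [if_pos h, if_pos]
    rw [Alive] at h
    exact h
  · rw [if_neg h, if_neg]
    rw [Alive] at h
    exact h

theorem N_zero (ω : Smp E) (t : ℝ) : N 0 ω t = ind t (ω []).1 := by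
  rw [N, wd, Finset.sum_singleton, ite_nil]

theorem N_succ (n : ℕ) (ω : Smp E) (t : ℝ) : N (n + 1) ω t = ind t (ω []).1 +
    (N n (shift false ω) (t - (ω []).1) + N n (shift true ω) (t - (ω []).1)) := by
  rw [N, sum_wd, ite_nil]
  simp only [ite_cons]
  rfl

theorem N_mono (ω : Smp E) (t : ℝ) : Monotone fun n => N n ω t := by
  intro m n hmn
  apply Finset.sum_le_sum_of_subset
  intro u hu
  rw [mem_wd] at hu ⊢
  omega

theorem cnt_eq (ω : Smp E) (t : ℝ) : cnt ω t = ⨆ n, N n ω t := by
  apply ENNReal.tsum_eq_iSup_sum'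
  intro s
  refine ⟨s.sup List.length, fun u hu => ?_⟩
  rw [mem_wd]
  exact Finset.le_sup (f := List.length) hu

theorem cnt_lim (ω : Smp E) (t : ℝ) : Tendsto (fun n => N n ω t) atTop (𝓝 (cnt ω t)) := by
  rw [cnt_eq]
  exact tendsto_atTop_iSup (N_mono ω t)

variable [MeasurableSpace E]

theorem shift_meas (b : Bool) : Measurable (shift (E := E) b) :=
  measurable_pi_lambda _ fun u => measurable_pi_apply (b :: u)

theorem alive_meas (u : List Bool) : MeasurableSet {p : Smp E × ℝ | Alive u p.1 p.2} := by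
  induction u with
  | nil =>
    have h1 : Measurable fun p : Smp E × ℝ => (p.1 []).1 :=
      measurable_fst.comp ((measurable_pi_apply []).comp measurable_fst)
    exact (measurableSet_le measurable_const measurable_snd).inter
      (measurableSet_lt measurable_snd h1)
  | cons b u ih =>
    have h1 : Measurable fun p : Smp E × ℝ => (p.1 []).1 :=
      measurable_fst.comp ((measurable_pi_apply []).comp measurable_fst)
    have h2 : Measurable fun p : Smp E × ℝ => (shift b p.1, p.2 - (p.1 []).1) :=
      ((shift_meas b).comp measurable_fst).prodMk (measurable_snd.sub h1)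
    exact h2 ih

theorem N_meas (n : ℕ) : Measurable fun p : Smp E × ℝ => N n p.1 p.2 := by
  classical
  unfold N
  refine Finset.measurable_fun_sum _ fun u _ => ?_
  exact Measurable.ite (alive_meas u) measurable_const measurable_const

theorem ind_meas (t : ℝ) : Measurable (ind t) := by
  classical
  unfold ind
  refine Measurable.ite ?_ measurable_const measurable_const
  exact (MeasurableSet.const (0 ≤ t)).inter (measurableSet_lt measurable_const measurable_id)

theorem N_meas_t (n : ℕ) (t : ℝ) : Measurable fun ω : Smp E => N n ω t :=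
  (N_meas n).comp (measurable_id.prodMk measurable_const)

variable (Q : Measure E) [IsProbabilityMeasure Q]

/-- first moment -/
noncomputable def M (n : ℕ) (t : ℝ) : ℝ≥0∞ := ∫⁻ ω, N n ω t ∂(law Q)

/-- second moment -/
noncomputable def S (n : ℕ) (t : ℝ) : ℝ≥0∞ := ∫⁻ ω, N n ω t ^ 2 ∂(law Q)

theorem M_meas (n : ℕ) : Measurable (M Q n) := by
  unfold M
  exact (N_meas n).lintegral_prod_left'

theorem S_meas (n : ℕ) : Measurable (S Q n) := by
  unfold S
  exact ((N_meas n).pow_const 2).lintegral_prod_left'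

theorem one_fst {g : ℝ → ℝ≥0∞} (hg : Measurable g) :
    ∫⁻ p, g p.1 ∂(one Q) = ∫⁻ s, g s ∂(expMeasure (1 / 2)) := by
  have : IsProbabilityMeasure (expMeasure (1 / 2)) := isProbabilityMeasure_expMeasure (by norm_num)
  unfold one
  exact (measurePreserving_fst (μ := expMeasure (1 / 2)) (ν := Q)).lintegral_comp hg

theorem split (F : (ℝ × E) × (Smp E × Smp E) → ℝ≥0∞) (hF : Measurable F) :
    ∫⁻ ω : Smp E, F (ω [], (shift false ω, shift true ω)) ∂(law Q) =
      ∫⁻ p, ∫⁻ ω₀, ∫⁻ ω₁, F (p, (ω₀, ω₁)) ∂(law Q) ∂(law Q) ∂(one Q) := by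
  rw [(mp_split Q).lintegral_comp hF, lintegral_prod _ hF.aemeasurable]
  refine lintegral_congr fun p => ?_
  exact lintegral_prod (fun r => F (p, r)) (hF.comp measurable_prodMk_left).aemeasurable

theorem M_zero_le (t : ℝ) : M Q 0 t ≤ 1 := by
  have h : M Q 0 t ≤ ∫⁻ _ω, 1 ∂(law Q) := by
    refine lintegral_mono fun ω => ?_
    rw [N_zero, ind]
    split_ifs
    · exact le_rfl
    · exact zero_le_one
  simpa using h

theorem S_zero_le (t : ℝ) : S Q 0 t ≤ 1 := by
  have h : S Q 0 t ≤ ∫⁻ _ω, 1 ∂(law Q) := by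
    refine lintegral_mono fun ω => ?_
    rw [N_zero, ind]
    split_ifs
    · simp
    · simp
  simpa using h

theorem M_succ (n : ℕ) (t : ℝ) : M Q (n + 1) t =
    ∫⁻ s, (ind t s + (M Q n (t - s) + M Q n (t - s))) ∂(expMeasure (1 / 2)) := by
  have hm : ∀ b : Bool, True := fun _ => trivial
  let F : (ℝ × E) × (Smp E × Smp E) → ℝ≥0∞ := fun q =>
    ind t q.1.1 + (N n q.2.1 (t - q.1.1) + N n q.2.2 (t - q.1.1))
  have hF : Measurable F := by
    have h0 : Measurable fun q : (ℝ × E) × (Smp E × Smp E) => q.1.1 :=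
      measurable_fst.comp measurable_fst
    have h1 : Measurable fun q : (ℝ × E) × (Smp E × Smp E) => t - q.1.1 :=
      measurable_const.sub h0
    refine ((ind_meas t).comp h0).add (Measurable.add ?_ ?_)
    · exact (N_meas n).comp ((measurable_fst.comp measurable_snd).prodMk h1)
    · exact (N_meas n).comp ((measurable_snd.comp measurable_snd).prodMk h1)
  have h1 : M Q (n + 1) t = ∫⁻ ω : Smp E, F (ω [], (shift false ω, shift true ω)) ∂(law Q) := by
    unfold M
    exact lintegral_congr fun ω => N_succ n ω t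
  rw [h1, split Q F hF]
  have h2 : ∀ p : ℝ × E, ∫⁻ ω₀, ∫⁻ ω₁, F (p, (ω₀, ω₁)) ∂(law Q) ∂(law Q) =
      ind t p.1 + (M Q n (t - p.1) + M Q n (t - p.1)) := by
    intro p
    have h3 : ∀ ω₀ : Smp E, ∫⁻ ω₁, F (p, (ω₀, ω₁)) ∂(law Q) =
        ind t p.1 + (N n ω₀ (t - p.1) + M Q n (t - p.1)) := by
      intro ω₀
      change ∫⁻ ω₁, (ind t p.1 + (N n ω₀ (t - p.1) + N n ω₁ (t - p.1))) ∂(law Q) = _
      rw [lintegral_add_left measurable_const, lintegral_add_left measurable_const,
        lintegral_const, lintegral_const, measure_univ, mul_one, mul_one]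
      rfl
    simp only [h3]
    rw [lintegral_add_left measurable_const, lintegral_add_right _ measurable_const,
      lintegral_const, lintegral_const, measure_univ, mul_one, mul_one]
    rfl
  simp only [h2]
  refine one_fst Q (g := fun s => ind t s + (M Q n (t - s) + M Q n (t - s))) ?_
  have h3 : Measurable fun s : ℝ => M Q n (t - s) :=
    (M_meas Q n).comp (measurable_const.sub measurable_id)
  exact (ind_meas t).add (h3.add h3)

theorem S_succ (n : ℕ) (t : ℝ) : S Q (n + 1) t =
    ∫⁻ s, (ind t s ^ 2 + 4 * ind t s * M Q n (t - s) + (2 * S Q n (t - s) + 2 * M Q n (t - s) ^ 2))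
      ∂(expMeasure (1 / 2)) := by
  let F : (ℝ × E) × (Smp E × Smp E) → ℝ≥0∞ := fun q =>
    (ind t q.1.1 + (N n q.2.1 (t - q.1.1) + N n q.2.2 (t - q.1.1))) ^ 2
  have hF : Measurable F := by
    have h0 : Measurable fun q : (ℝ × E) × (Smp E × Smp E) => q.1.1 :=
      measurable_fst.comp measurable_fst
    have h1 : Measurable fun q : (ℝ × E) × (Smp E × Smp E) => t - q.1.1 :=
      measurable_const.sub h0
    refine Measurable.pow_const (((ind_meas t).comp h0).add (Measurable.add ?_ ?_)) 2
    · exact (N_meas n).comp ((measurable_fst.comp measurable_snd).prodMk h1)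
    · exact (N_meas n).comp ((measurable_snd.comp measurable_snd).prodMk h1)
  have h1 : S Q (n + 1) t = ∫⁻ ω : Smp E, F (ω [], (shift false ω, shift true ω)) ∂(law Q) := by
    unfold S
    refine lintegral_congr fun ω => ?_
    rw [N_succ n ω t]
  rw [h1, split Q F hF]
  have h2 : ∀ p : ℝ × E, ∫⁻ ω₀, ∫⁻ ω₁, F (p, (ω₀, ω₁)) ∂(law Q) ∂(law Q) =
      ind t p.1 ^ 2 + 4 * ind t p.1 * M Q n (t - p.1) +
        (2 * S Q n (t - p.1) + 2 * M Q n (t - p.1) ^ 2) := by
    intro p
    have hmN : Measurable fun ω : Smp E => N n ω (t - p.1) := N_meas_t n _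
    have h3 : ∀ ω₀ : Smp E, ∫⁻ ω₁, F (p, (ω₀, ω₁)) ∂(law Q) =
        (ind t p.1 ^ 2 + 2 * ind t p.1 * M Q n (t - p.1) + S Q n (t - p.1)) +
          ((2 * ind t p.1 + 2 * M Q n (t - p.1)) * N n ω₀ (t - p.1) + N n ω₀ (t - p.1) ^ 2) := by
      intro ω₀
      have h4 : ∀ ω₁ : Smp E, F (p, (ω₀, ω₁)) =
          (ind t p.1 + N n ω₀ (t - p.1)) ^ 2 + (2 * (ind t p.1 + N n ω₀ (t - p.1)) *
            N n ω₁ (t - p.1) + N n ω₁ (t - p.1) ^ 2) := by
        intro ω₁
        change (ind t p.1 + (N n ω₀ (t - p.1) + N n ω₁ (t - p.1))) ^ 2 = _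
        ring
      simp only [h4]
      rw [lintegral_add_left measurable_const, lintegral_add_left (hmN.const_mul _),
        lintegral_const, lintegral_const_mul _ hmN, measure_univ, mul_one]
      change (ind t p.1 + N n ω₀ (t - p.1)) ^ 2 + (2 * (ind t p.1 + N n ω₀ (t - p.1)) *
        M Q n (t - p.1) + S Q n (t - p.1)) = _
      ring
    simp only [h3]
    rw [lintegral_add_left measurable_const, lintegral_add_left (hmN.const_mul _),
      lintegral_const, lintegral_const_mul _ hmN, measure_univ, mul_one]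
    change (ind t p.1 ^ 2 + 2 * ind t p.1 * M Q n (t - p.1) + S Q n (t - p.1)) +
      ((2 * ind t p.1 + 2 * M Q n (t - p.1)) * M Q n (t - p.1) + S Q n (t - p.1)) = _
    ring
  simp only [h2]
  refine one_fst Q (g := fun s => ind t s ^ 2 + 4 * ind t s * M Q n (t - s) +
    (2 * S Q n (t - s) + 2 * M Q n (t - s) ^ 2)) ?_
  have h3 : Measurable fun s : ℝ => M Q n (t - s) :=
    (M_meas Q n).comp (measurable_const.sub measurable_id)
  have h4 : Measurable fun s : ℝ => S Q n (t - s) :=
    (S_meas Q n).comp (measurable_const.sub measurable_id)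
  exact (((ind_meas t).pow_const 2).add (((ind_meas t).const_mul 4).mul h3)).add
    ((h4.const_mul 2).add ((h3.pow_const 2).const_mul 2))

theorem exp_nonneg_ae : ∀ᵐ s ∂(expMeasure (1 / 2)), 0 ≤ s := by
  rw [ae_iff]
  have h1 : {a : ℝ | ¬ 0 ≤ a} = Set.Iio 0 := by
    ext a
    simp
  rw [h1, expMeasure, gammaMeasure, withDensity_apply _ measurableSet_Iio]
  exact lintegral_gammaPDF_of_nonpos le_rfl

theorem M_neg (n : ℕ) {t : ℝ} (ht : t < 0) : M Q n t = 0 := by
  induction n generalizing t with
  | zero =>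
    unfold M
    have h : ∀ ω : Smp E, N 0 ω t = 0 := by
      intro ω
      rw [N_zero, ind, if_neg]
      intro h
      linarith [h.1]
    simp [h]
  | succ n ih =>
    rw [M_succ]
    have h : ∫⁻ _s, (0 : ℝ≥0∞) ∂(expMeasure (1 / 2)) = 0 := by simp
    rw [← h]
    refine lintegral_congr_ae ?_
    filter_upwards [exp_nonneg_ae] with s hs
    rw [ih (by linarith : t - s < 0), ind, if_neg]
    · simp
    · intro h
      linarith [h.1]

theorem S_neg (n : ℕ) {t : ℝ} (ht : t < 0) : S Q n t = 0 := by
  have h1 := M_neg Q n ht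
  unfold M at h1
  rw [lintegral_eq_zero_iff (N_meas_t n t)] at h1
  unfold S
  rw [lintegral_eq_zero_iff ((N_meas_t n t).pow_const 2)]
  filter_upwards [h1] with ω hω
  simp only [Pi.zero_apply] at hω ⊢
  rw [hω]
  simp

/-- the basic integral -/
theorem int_exp {K c t : ℝ} (hK : 0 ≤ K) (hc : 0 ≤ c) (ht : 0 ≤ t) :
    ∫⁻ s, (if t < s then 0 else ENNReal.ofReal (K * Real.exp (c * (t - s))))
      ∂(expMeasure (1 / 2)) =
      ENNReal.ofReal (K * (Real.exp (c * t) - Real.exp (-(t / 2))) / (2 * c + 1)) := by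
  have hm : Measurable fun s : ℝ =>
      (if t < s then 0 else ENNReal.ofReal (K * Real.exp (c * (t - s)))) := by
    refine Measurable.ite (measurableSet_lt measurable_const measurable_id) measurable_const ?_
    fun_prop
  have hpdf : Measurable (exponentialPDF (1 / 2)) := by
    unfold exponentialPDF
    exact (measurable_exponentialPDFReal _).ennreal_ofReal
  have hpdf' : Measurable (exponentialPDF (c + 1 / 2)) := by
    unfold exponentialPDF
    exact (measurable_exponentialPDFReal _).ennreal_ofReal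
  have h0 : expMeasure (1 / 2) = volume.withDensity (exponentialPDF (1 / 2)) := rfl
  rw [h0, lintegral_withDensity_eq_lintegral_mul _ hpdf hm]
  have h1 : ∀ s : ℝ, (exponentialPDF (1 / 2) * fun s : ℝ =>
      (if t < s then 0 else ENNReal.ofReal (K * Real.exp (c * (t - s))))) s =
      (Set.Iic t).indicator (fun s => ENNReal.ofReal (K * Real.exp (c * t) / (2 * c + 1)) *
        exponentialPDF (c + 1 / 2) s) s := by
    intro s
    rw [Pi.mul_apply]
    by_cases hs : t < s
    · rw [if_pos hs, mul_zero, Set.indicator_of_notMem]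
      intro h
      exact absurd hs (not_lt.2 h)
    · rw [if_neg hs, Set.indicator_of_mem (Set.mem_Iic.2 (not_lt.1 hs))]
      rcases lt_or_ge s 0 with h2 | h2
      · rw [exponentialPDF_of_neg h2, exponentialPDF_of_neg h2, zero_mul, mul_zero]
      · rw [exponentialPDF_of_nonneg h2, exponentialPDF_of_nonneg h2,
          ← ENNReal.ofReal_mul (by positivity), ← ENNReal.ofReal_mul (by positivity)]
        congr 1
        have h3 : Real.exp (c * (t - s)) = Real.exp (c * t) * Real.exp (-(c * s)) := by
          rw [← Real.exp_add]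
          congr 1
          ring
        have h4 : Real.exp (-((c + 1 / 2) * s)) = Real.exp (-(1 / 2 * s)) * Real.exp (-(c * s)) := by
          rw [← Real.exp_add]
          congr 1
          ring
        rw [h3, h4]
        have h5 : (2 * c + 1) ≠ 0 := by positivity
        field_simp
  rw [lintegral_congr h1, lintegral_indicator measurableSet_Iic, lintegral_const_mul _ hpdf',
    lintegral_exponentialPDF_eq_antiDeriv (by positivity), if_pos ht,
    ← ENNReal.ofReal_mul (by positivity)]
  congr 1
  have h6 : Real.exp (c * t) * Real.exp (-((c + 1 / 2) * t)) = Real.exp (-(t / 2)) := by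
    rw [← Real.exp_add]
    congr 1
    ring
  have h5 : (2 * c + 1) ≠ 0 := by positivity
  rw [div_mul_eq_mul_div, ← h6]
  congr 1
  ring

theorem int_one {t : ℝ} (ht : 0 ≤ t) :
    ∫⁻ s, (if t < s then 1 else 0) ∂(expMeasure (1 / 2)) = ENNReal.ofReal (Real.exp (-(t / 2))) := by
  have : IsProbabilityMeasure (expMeasure (1 / 2)) := isProbabilityMeasure_expMeasure (by norm_num)
  have h1 := int_exp (K := 1) (c := 0) zero_le_one le_rfl ht
  have hm : Measurable fun s : ℝ => (if t < s then (1 : ℝ≥0∞) else 0) :=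
    Measurable.ite (measurableSet_lt measurable_const measurable_id) measurable_const
      measurable_const
  have h2 : (∫⁻ s, (if t < s then 1 else 0) ∂(expMeasure (1 / 2))) +
      ∫⁻ s, (if t < s then 0 else ENNReal.ofReal (1 * Real.exp (0 * (t - s))))
        ∂(expMeasure (1 / 2)) = 1 := by
    rw [← lintegral_add_left hm]
    have h3 : ∀ s : ℝ, ((if t < s then (1 : ℝ≥0∞) else 0) +
        if t < s then 0 else ENNReal.ofReal (1 * Real.exp (0 * (t - s)))) = 1 := by
      intro s
      split_ifs <;> simp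
    rw [lintegral_congr h3, lintegral_const, measure_univ, one_mul]
  rw [h1] at h2
  have h4 : (1 : ℝ≥0∞) = ENNReal.ofReal (Real.exp (-(t / 2))) +
      ENNReal.ofReal (1 * (Real.exp (0 * t) - Real.exp (-(t / 2))) / (2 * 0 + 1)) := by
    have h5 : Real.exp (-(t / 2)) ≤ 1 := Real.exp_le_one_iff.2 (by linarith)
    rw [← ENNReal.ofReal_add (Real.exp_pos _).le (by simp [h5])]
    simp
  exact (ENNReal.add_left_inj ENNReal.ofReal_ne_top).1 (h2.trans h4)

theorem int_both {K c t : ℝ} (hK : 0 ≤ K) (hc : 0 ≤ c) (ht : 0 ≤ t) :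
    ∫⁻ s, (if t < s then 1 else ENNReal.ofReal (K * Real.exp (c * (t - s))))
      ∂(expMeasure (1 / 2)) =
      ENNReal.ofReal (Real.exp (-(t / 2)) +
        K * (Real.exp (c * t) - Real.exp (-(t / 2))) / (2 * c + 1)) := by
  have hm : Measurable fun s : ℝ => (if t < s then (1 : ℝ≥0∞) else 0) :=
    Measurable.ite (measurableSet_lt measurable_const measurable_id) measurable_const
      measurable_const
  have h3 : ∀ s : ℝ, (if t < s then (1 : ℝ≥0∞) else ENNReal.ofReal (K * Real.exp (c * (t - s)))) =
      (if t < s then 1 else 0) +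
        if t < s then 0 else ENNReal.ofReal (K * Real.exp (c * (t - s))) := by
    intro s
    split_ifs <;> simp
  rw [lintegral_congr h3, lintegral_add_left hm, int_one ht, int_exp hK hc ht,
    ← ENNReal.ofReal_add (Real.exp_pos _).le]
  have h5 : Real.exp (-(t / 2)) ≤ Real.exp (c * t) := by
    apply Real.exp_le_exp.2
    have : 0 ≤ c * t := by positivity
    linarith
  apply div_nonneg (mul_nonneg hK (by linarith)) (by positivity)

theorem M_le (n : ℕ) {t : ℝ} (ht : 0 ≤ t) : M Q n t ≤ ENNReal.ofReal (Real.exp (t / 2)) := by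
  induction n generalizing t with
  | zero =>
    refine (M_zero_le Q t).trans ?_
    rw [← ENNReal.ofReal_one]
    exact ENNReal.ofReal_le_ofReal (Real.one_le_exp (by linarith))
  | succ n ih =>
    rw [M_succ]
    have h1 : ENNReal.ofReal (Real.exp (t / 2)) =
        ∫⁻ s, (if t < s then 1 else ENNReal.ofReal (2 * Real.exp (1 / 2 * (t - s))))
          ∂(expMeasure (1 / 2)) := by
      rw [int_both (by norm_num) (by norm_num) ht]
      congr 1
      have : (1 / 2 : ℝ) * t = t / 2 := by ring
      rw [this]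
      ring
    rw [h1]
    refine lintegral_mono fun s => ?_
    by_cases hs : t < s
    · rw [if_pos hs, M_neg Q n (by linarith : t - s < 0), ind, if_pos ⟨ht, hs⟩]
      simp
    · rw [if_neg hs, ind, if_neg (fun h => hs h.2), zero_add]
      have h2 := ih (t := t - s) (by linarith [not_lt.1 hs])
      refine (add_le_add h2 h2).trans (le_of_eq ?_)
      rw [← ENNReal.ofReal_add (Real.exp_pos _).le (Real.exp_pos _).le]
      congr 1
      have : (1 / 2 : ℝ) * (t - s) = (t - s) / 2 := by ring
      rw [this]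
      ring

theorem M_ge (n : ℕ) {t : ℝ} (ht : 0 ≤ t) : ENNReal.ofReal (Real.exp (t / 2)) ≤
    M Q n t + ENNReal.ofReal ((2 / 3) ^ n * Real.exp t) := by
  induction n generalizing t with
  | zero =>
    refine le_add_left (ENNReal.ofReal_le_ofReal ?_)
    rw [pow_zero, one_mul]
    exact Real.exp_le_exp.2 (by linarith)
  | succ n ih =>
    have h1 : ENNReal.ofReal (Real.exp (t / 2)) =
        ∫⁻ s, (if t < s then 1 else ENNReal.ofReal (2 * Real.exp (1 / 2 * (t - s))))
          ∂(expMeasure (1 / 2)) := by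
      rw [int_both (by norm_num) (by norm_num) ht]
      congr 1
      have : (1 / 2 : ℝ) * t = t / 2 := by ring
      rw [this]
      ring
    have h2 := int_exp (K := 2 * (2 / 3) ^ n) (c := 1) (by positivity) (by norm_num) ht
    have h3 : (∫⁻ s, (if t < s then 0 else
        ENNReal.ofReal (2 * (2 / 3) ^ n * Real.exp (1 * (t - s)))) ∂(expMeasure (1 / 2))) ≤
        ENNReal.ofReal ((2 / 3) ^ (n + 1) * Real.exp t) := by
      rw [h2]
      apply ENNReal.ofReal_le_ofReal
      rw [one_mul, div_le_iff₀ (by norm_num), pow_succ]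
      have h4 : 0 < (2 / 3 : ℝ) ^ n := by positivity
      have h5 := mul_pos h4 (Real.exp_pos (-(t / 2)))
      nlinarith
    refine le_trans ?_ (add_le_add le_rfl h3)
    have hm : Measurable fun s : ℝ => (ind t s + (M Q n (t - s) + M Q n (t - s))) := by
      have h3 : Measurable fun s : ℝ => M Q n (t - s) :=
        (M_meas Q n).comp (measurable_const.sub measurable_id)
      exact (ind_meas t).add (h3.add h3)
    rw [h1, M_succ, ← lintegral_add_left hm]
    refine lintegral_mono fun s => ?_
    by_cases hs : t < s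
    · rw [if_pos hs, if_pos hs, ind, if_pos ⟨ht, hs⟩, add_zero]
      exact le_self_add
    · rw [if_neg hs, if_neg hs]
      have h4 := ih (t := t - s) (by linarith [not_lt.1 hs])
      have h5 := add_le_add h4 h4
      have h6 : ENNReal.ofReal (2 * Real.exp (1 / 2 * (t - s))) =
          ENNReal.ofReal (Real.exp ((t - s) / 2)) + ENNReal.ofReal (Real.exp ((t - s) / 2)) := by
        rw [← ENNReal.ofReal_add (Real.exp_pos _).le (Real.exp_pos _).le]
        congr 1
        have : (1 / 2 : ℝ) * (t - s) = (t - s) / 2 := by ring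
        rw [this]
        ring
      have h7 : ENNReal.ofReal (2 * (2 / 3) ^ n * Real.exp (1 * (t - s))) =
          ENNReal.ofReal ((2 / 3) ^ n * Real.exp (t - s)) +
            ENNReal.ofReal ((2 / 3) ^ n * Real.exp (t - s)) := by
        rw [← ENNReal.ofReal_add (by positivity) (by positivity)]
        congr 1
        rw [one_mul]
        ring
      rw [h6, h7]
      refine h5.trans ?_
      calc M Q n (t - s) + ENNReal.ofReal ((2 / 3) ^ n * Real.exp (t - s)) +
            (M Q n (t - s) + ENNReal.ofReal ((2 / 3) ^ n * Real.exp (t - s)))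
          = (M Q n (t - s) + M Q n (t - s)) + (ENNReal.ofReal ((2 / 3) ^ n * Real.exp (t - s)) +
              ENNReal.ofReal ((2 / 3) ^ n * Real.exp (t - s))) := by ring
        _ ≤ _ := add_le_add le_add_self le_rfl

theorem S_le (n : ℕ) {t : ℝ} (ht : 0 ≤ t) : S Q n t ≤ ENNReal.ofReal (5 * Real.exp t) := by
  induction n generalizing t with
  | zero =>
    refine (S_zero_le Q t).trans ?_
    rw [← ENNReal.ofReal_one]
    apply ENNReal.ofReal_le_ofReal
    have := Real.one_le_exp ht
    linarith
  | succ n ih =>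
    rw [S_succ]
    have h1 : ∫⁻ s, (if t < s then 1 else ENNReal.ofReal (12 * Real.exp (1 * (t - s))))
          ∂(expMeasure (1 / 2)) ≤ ENNReal.ofReal (5 * Real.exp t) := by
      rw [int_both (by norm_num) (by norm_num) ht]
      apply ENNReal.ofReal_le_ofReal
      rw [one_mul]
      have h2 := Real.exp_pos (-(t / 2))
      have h3 := Real.exp_pos t
      nlinarith
    refine le_trans (lintegral_mono fun s => ?_) h1
    by_cases hs : t < s
    · rw [if_pos hs, M_neg Q n (by linarith : t - s < 0), S_neg Q n (by linarith : t - s < 0),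
        ind, if_pos ⟨ht, hs⟩]
      simp
    · rw [if_neg hs, ind, if_neg (fun h => hs h.2)]
      have hts : 0 ≤ t - s := by linarith [not_lt.1 hs]
      have h2 := ih hts
      have h3 := M_le Q n hts
      have h4 : ENNReal.ofReal (12 * Real.exp (1 * (t - s))) =
          2 * ENNReal.ofReal (5 * Real.exp (t - s)) +
            2 * ENNReal.ofReal (Real.exp ((t - s) / 2)) ^ 2 := by
        rw [← ENNReal.ofReal_pow (Real.exp_pos _).le, ← Real.exp_nat_mul]
        have h5 : (2 : ℝ≥0∞) = ENNReal.ofReal 2 := by simp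
        rw [h5, ← ENNReal.ofReal_mul (by norm_num), ← ENNReal.ofReal_mul (by norm_num),
          ← ENNReal.ofReal_add (by positivity) (by positivity)]
        congr 1
        have h6 : ((2 : ℕ) : ℝ) * ((t - s) / 2) = t - s := by
          push_cast
          ring
        rw [h6, one_mul]
        ring
      rw [h4]
      simp only [ne_eq, OfNat.ofNat_ne_zero, not_false_eq_true, zero_pow, mul_zero, zero_mul,
        add_zero, zero_add]
      gcongr

end Mom

open Mom

theorem mom_one {E : Type*} [MeasurableSpace E] (Q : Measure E) [IsProbabilityMeasure Q] (t : ℝ)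
    (ht : 0 ≤ t) : ∫⁻ ω, cnt ω t ∂(law Q) = ENNReal.ofReal (Real.exp (t / 2)) := by
  have hlim : Tendsto (fun n => M Q n t) atTop (𝓝 (∫⁻ ω, cnt ω t ∂(law Q))) := by
    unfold M
    refine lintegral_tendsto_of_tendsto_of_monotone (fun n => (N_meas_t n t).aemeasurable) ?_ ?_
    · exact Eventually.of_forall fun ω => N_mono ω t
    · exact Eventually.of_forall fun ω => cnt_lim ω t
  apply le_antisymm
  · exact le_of_tendsto' hlim fun n => M_le Q n ht
  · have h1 : Tendsto (fun n : ℕ => ENNReal.ofReal ((2 / 3) ^ n * Real.exp t)) atTop (𝓝 0) := by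
      have h2 : Tendsto (fun n : ℕ => (2 / 3 : ℝ) ^ n * Real.exp t) atTop (𝓝 (0 * Real.exp t)) :=
        (tendsto_pow_atTop_nhds_zero_of_lt_one (by norm_num) (by norm_num)).mul_const _
      rw [zero_mul] at h2
      have h3 := ENNReal.tendsto_ofReal h2
      rwa [ENNReal.ofReal_zero] at h3
    have h2 := hlim.add h1
    rw [add_zero] at h2
    exact ge_of_tendsto' h2 fun n => M_ge Q n ht

theorem mom_two {E : Type*} [MeasurableSpace E] (Q : Measure E) [IsProbabilityMeasure Q] (t : ℝ)
    (ht : 0 ≤ t) : ∫⁻ ω, cnt ω t ^ 2 ∂(law Q) ≤ 5 * ENNReal.ofReal (Real.exp t) := by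
  have hlim : Tendsto (fun n => S Q n t) atTop (𝓝 (∫⁻ ω, cnt ω t ^ 2 ∂(law Q))) := by
    unfold S
    refine lintegral_tendsto_of_tendsto_of_monotone
      (fun n => ((N_meas_t n t).pow_const 2).aemeasurable) ?_ ?_
    · refine Eventually.of_forall fun ω m n hmn => ?_
      exact pow_le_pow_left₀ (by positivity) (N_mono ω t hmn) 2
    · exact Eventually.of_forall fun ω => ENNReal.Tendsto.pow (cnt_lim ω t)
  refine le_of_tendsto' hlim fun n => ?_
  refine (S_le Q n ht).trans (le_of_eq ?_)
  rw [ENNReal.ofReal_mul (by norm_num)]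
  simp

end Pool.Agent.H96.BB
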