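import Pool.Agent.H96.BB.Split
import Pool.Agent.H96.BB.Det
import Pool.Agent.H96.BB.Mom

/-!
# The normalised number of particles converges in `L^2` (piece B3)
-/

set_option autoImplicit false

namespace Pool.Agent.H96.BB

open MeasureTheory ProbabilityTheory Filter Topology
open scoped ENNReal NNReal

namespace Yl

theorem tendsto_Ioi (ν : Measure ℝ) [IsFiniteMeasure ν] :
    Tendsto (fun x => ν (Set.Ioi x)) atTop (𝓝 0) := by
  have h := tendsto_measure_iInter_atTop (μ := ν) (s := fun x : ℝ => Set.Ioi x)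
    (fun x => measurableSet_Ioi.nullMeasurableSet)
    (fun x y hxy => Set.Ioi_subset_Ioi hxy) ⟨0, measure_ne_top _ _⟩
  have h2 : (⋂ x : ℝ, Set.Ioi x) = ∅ := by
    ext y
    simp only [Set.mem_iInter, Set.mem_Ioi, Set.mem_empty_iff_false, iff_false, not_forall, not_lt]
    exact ⟨y, le_rfl⟩
  rw [h2, measure_empty] at h
  exact h

/-- A renewal inequality. -/
theorem renewal_zero (D ε : ℝ → ℝ≥0∞) (K : ℝ≥0∞) (hK : K ≠ ∞) (hD : ∀ t, 0 ≤ t → D t ≤ K)
    (hε : Tendsto ε atTop (𝓝 0)) (ν : Measure ℝ) [IsFiniteMeasure ν] (hν : ν Set.univ < 1)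
    (h : ∀ t, 0 ≤ t → D t ≤ ∫⁻ s in Set.Iic t, D (t - s) ∂ν + ε t) : Tendsto D atTop (𝓝 0) := by
  obtain ⟨L, hL⟩ : ∃ L, L = limsup D atTop := ⟨_, rfl⟩
  have hLK : L ≤ K := by
    rw [hL]
    refine limsup_le_of_le (by isBoundedDefault) ?_
    exact eventually_atTop.mpr ⟨0, hD⟩
  have hLt : L ≠ ∞ := ne_top_of_le_ne_top hK hLK
  have key : ∀ c, L < c → L ≤ c * ν Set.univ := by
    intro c hc
    rw [hL] at hc
    have hev := eventually_lt_of_limsup_lt hc
    obtain ⟨T, hT⟩ := eventually_atTop.mp hev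
    have hb : ∀ t, max T 0 ≤ t → D t ≤ c * ν Set.univ + K * ν (Set.Ioi (t - T)) + ε t := by
      intro t ht
      have ht0 : 0 ≤ t := le_trans (le_max_right _ _) ht
      refine (h t ht0).trans ?_
      gcongr
      calc ∫⁻ s in Set.Iic t, D (t - s) ∂ν
          ≤ ∫⁻ s in Set.Iic t, (c + (Set.Ioi (t - T)).indicator (fun _ => K) s) ∂ν := by
            refine setLIntegral_mono' measurableSet_Iic fun s hs => ?_
            rw [Set.mem_Iic] at hs
            by_cases hs2 : s ≤ t - T
            · exact le_add_right (hT (t - s) (by linarith)).le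
            · push Not at hs2
              rw [Set.indicator_of_mem (Set.mem_Ioi.mpr hs2)]
              exact le_add_left (hD _ (by linarith))
        _ ≤ ∫⁻ s, (c + (Set.Ioi (t - T)).indicator (fun _ => K) s) ∂ν := setLIntegral_le_lintegral _ _
        _ = c * ν Set.univ + K * ν (Set.Ioi (t - T)) := by
            rw [lintegral_add_left measurable_const, lintegral_const,
              lintegral_indicator measurableSet_Ioi, setLIntegral_const]
    have htend : Tendsto (fun t => c * ν Set.univ + K * ν (Set.Ioi (t - T)) + ε t) atTop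
        (𝓝 (c * ν Set.univ + K * 0 + 0)) := by
      refine Tendsto.add (Tendsto.add tendsto_const_nhds ?_) hε
      refine ENNReal.Tendsto.const_mul ?_ (Or.inr hK)
      exact (tendsto_Ioi ν).comp (tendsto_atTop_add_const_right atTop (-T) tendsto_id)
    rw [hL]
    calc limsup D atTop ≤ limsup (fun t => c * ν Set.univ + K * ν (Set.Ioi (t - T)) + ε t) atTop :=
          limsup_le_limsup (eventually_atTop.mpr ⟨max T 0, hb⟩)
      _ = c * ν Set.univ + K * 0 + 0 := htend.limsup_eq
      _ = c * ν Set.univ := by simp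
  have hL0 : L = 0 := by
    by_contra hne
    have h1 : L < L / ν Set.univ := by
      rw [ENNReal.lt_div_iff_mul_lt (Or.inr hLt) (Or.inr hne)]
      calc L * ν Set.univ < L * 1 := (ENNReal.mul_lt_mul_iff_right hne hLt).mpr hν
        _ = L := mul_one L
    obtain ⟨c, hc1, hc2⟩ := exists_between h1
    rw [ENNReal.lt_div_iff_mul_lt (Or.inr (ne_top_of_lt hc2)) (Or.inl (measure_ne_top ν _))] at hc2
    exact absurd (key c hc1) (not_le.mpr hc2)
  rw [ENNReal.tendsto_nhds_zero]
  intro δ hδ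
  have : limsup D atTop < δ := by rw [← hL, hL0]; exact hδ
  exact (eventually_lt_of_limsup_lt this).mono fun t ht => ht.le

/-- The second moment of the sum of two independent centred variables with the same law. -/
theorem lint_sq_add {Ω : Type*} [MeasurableSpace Ω] (μ : Measure Ω) [IsProbabilityMeasure μ]
    (X : Ω → ℝ) (hX : MemLp X 2 μ) (h0 : ∫ a, X a ∂μ = 0) :
    ∫⁻ p, ENNReal.ofReal ((X p.1 + X p.2) ^ 2) ∂(μ.prod μ) =
      2 * ∫⁻ a, ENNReal.ofReal (X a ^ 2) ∂μ := by
  have hi : Integrable X μ := hX.integrable one_le_two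
  have hi2 : Integrable (fun a => X a ^ 2) μ := hX.integrable_sq
  have h1 : Integrable (fun p : Ω × Ω => X p.1 ^ 2) (μ.prod μ) := hi2.comp_fst μ
  have h2 : Integrable (fun p : Ω × Ω => X p.2 ^ 2) (μ.prod μ) := hi2.comp_snd μ
  have h3 : Integrable (fun p : Ω × Ω => X p.1 * X p.2) (μ.prod μ) := hi.mul_prod hi
  have e : (fun p : Ω × Ω => (X p.1 + X p.2) ^ 2) =
      fun p => (X p.1 ^ 2 + 2 * (X p.1 * X p.2)) + X p.2 ^ 2 := by
    funext p; ring
  have h12 : Integrable (fun p : Ω × Ω => X p.1 ^ 2 + 2 * (X p.1 * X p.2)) (μ.prod μ) :=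
    h1.add (h3.const_mul 2)
  have h4 : Integrable (fun p : Ω × Ω => (X p.1 + X p.2) ^ 2) (μ.prod μ) := by
    rw [e]; exact h12.add h2
  have h5 : ∫ p, (X p.1 + X p.2) ^ 2 ∂(μ.prod μ) = 2 * ∫ a, X a ^ 2 ∂μ := by
    have i1 : ∫ p : Ω × Ω, X p.1 ^ 2 ∂(μ.prod μ) = ∫ a, X a ^ 2 ∂μ := by
      have := integral_prod_mul (μ := μ) (ν := μ) (fun a => X a ^ 2) (fun _ => (1 : ℝ))
      simpa using this
    have i2 : ∫ p : Ω × Ω, X p.2 ^ 2 ∂(μ.prod μ) = ∫ a, X a ^ 2 ∂μ := by
      have := integral_prod_mul (μ := μ) (ν := μ) (fun _ => (1 : ℝ)) (fun a => X a ^ 2)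
      simpa using this
    have i3 : ∫ p : Ω × Ω, X p.1 * X p.2 ∂(μ.prod μ) = 0 := by
      rw [integral_prod_mul, h0, zero_mul]
    rw [e, integral_add h12 h2, integral_add h1 (h3.const_mul 2),
      integral_const_mul, i1, i2, i3]
    ring
  rw [← ofReal_integral_eq_lintegral_ofReal h4 (ae_of_all _ fun p => sq_nonneg _),
    ← ofReal_integral_eq_lintegral_ofReal hi2 (ae_of_all _ fun a => sq_nonneg _), h5,
    ENNReal.ofReal_mul (by norm_num)]
  norm_num

/-- The total mass of `2 e^(-s)` against the exponential law with rate `1/2`. -/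
theorem mass : ∫⁻ s, 2 * ENNReal.ofReal (Real.exp (-s)) ∂(expMeasure (1 / 2)) < 1 := by
  have h1 : ∫⁻ s, 2 * ENNReal.ofReal (Real.exp (-s)) ∂(expMeasure (1 / 2)) =
      ∫⁻ s, ENNReal.ofReal (2 / 3) * exponentialPDF (3 / 2) s := by
    have hd : expMeasure (1 / 2) = volume.withDensity (exponentialPDF (1 / 2)) := rfl
    have hmp : Measurable (exponentialPDF (1 / 2)) :=
      (measurable_exponentialPDFReal (1 / 2)).ennreal_ofReal
    rw [hd, lintegral_withDensity_eq_lintegral_mul _ hmp (by fun_prop)]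
    refine lintegral_congr fun s => ?_
    simp only [Pi.mul_apply]
    rw [exponentialPDF_eq, exponentialPDF_eq]
    by_cases hs : 0 ≤ s
    · rw [if_pos hs, if_pos hs]
      have e2 : (2 : ℝ≥0∞) = ENNReal.ofReal 2 := by norm_num
      rw [e2, ← ENNReal.ofReal_mul (by norm_num), ← ENNReal.ofReal_mul (by positivity),
        ← ENNReal.ofReal_mul (by norm_num)]
      congr 1
      have : Real.exp (-(1 / 2 * s)) * Real.exp (-s) = Real.exp (-(3 / 2 * s)) := by
        rw [← Real.exp_add]; congr 1; ring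
      rw [← this]; ring
    · rw [if_neg hs, if_neg hs]; simp
  have hmp2 : Measurable (exponentialPDF (3 / 2)) :=
    (measurable_exponentialPDFReal (3 / 2)).ennreal_ofReal
  rw [h1, lintegral_const_mul _ hmp2,
    lintegral_exponentialPDF_eq_one (by norm_num), mul_one]
  exact ENNReal.ofReal_lt_one.mpr (by norm_num)

variable {E : Type*} [MeasurableSpace E]


/-- The normalised number of particles. -/
noncomputable def YY (t : ℝ) (ω : Smp E) : ℝ := Real.exp (-t / 2) * (cnt ω t).toReal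

theorem YY_meas : Measurable (fun p : Smp E × ℝ => YY p.2 p.1) := by
  unfold YY
  exact (by fun_prop : Measurable fun p : Smp E × ℝ => Real.exp (-p.2 / 2)).mul
    cnt_meas.ennreal_toReal

theorem YY_meas' (t : ℝ) : Measurable (fun ω : Smp E => YY t ω) :=
  YY_meas.comp (measurable_id.prodMk measurable_const)

theorem cnt_meas' (t : ℝ) : Measurable (fun ω : Smp E => cnt ω t) :=
  cnt_meas.comp (measurable_id.prodMk measurable_const)

theorem YY_sq_bound (Q : Measure E) [IsProbabilityMeasure Q] (t : ℝ) (ht : 0 ≤ t) :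
    ∫⁻ ω, ENNReal.ofReal (YY t ω ^ 2) ∂(law Q) ≤ 5 := by
  calc ∫⁻ ω, ENNReal.ofReal (YY t ω ^ 2) ∂(law Q)
      ≤ ∫⁻ ω, ENNReal.ofReal (Real.exp (-t)) * cnt ω t ^ 2 ∂(law Q) := by
        refine lintegral_mono fun ω => ?_
        have e : YY t ω ^ 2 = Real.exp (-t) * (cnt ω t).toReal ^ 2 := by
          unfold YY
          rw [mul_pow, ← Real.exp_nat_mul]
          congr 2
          push_cast
          ring
        simp only
        rw [e, ENNReal.ofReal_mul (Real.exp_pos _).le, ENNReal.ofReal_pow ENNReal.toReal_nonneg]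
        gcongr
        exact ENNReal.ofReal_toReal_le
    _ = ENNReal.ofReal (Real.exp (-t)) * ∫⁻ ω, cnt ω t ^ 2 ∂(law Q) :=
        lintegral_const_mul _ ((cnt_meas' t).pow_const 2)
    _ ≤ ENNReal.ofReal (Real.exp (-t)) * (5 * ENNReal.ofReal (Real.exp t)) := by
        gcongr
        exact mom_two Q t ht
    _ = 5 := by
        rw [mul_left_comm, ← ENNReal.ofReal_mul (Real.exp_pos _).le, ← Real.exp_add]
        simp

theorem YY_memLp (Q : Measure E) [IsProbabilityMeasure Q] (t : ℝ) (ht : 0 ≤ t) :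
    MemLp (fun ω : Smp E => YY t ω) 2 (law Q) := by
  rw [memLp_two_iff_integrable_sq (YY_meas' t).aestronglyMeasurable]
  refine ⟨((YY_meas' t).pow_const 2).aestronglyMeasurable, ?_⟩
  rw [hasFiniteIntegral_iff_ofReal (ae_of_all _ fun ω => sq_nonneg _)]
  exact lt_of_le_of_lt (YY_sq_bound Q t ht) (by norm_num)

theorem cnt_lt_top (Q : Measure E) [IsProbabilityMeasure Q] (t : ℝ) (ht : 0 ≤ t) :
    ∀ᵐ ω ∂(law Q), cnt ω t < ∞ := by
  refine ae_lt_top (cnt_meas' t) ?_
  rw [mom_one Q t ht]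
  exact ENNReal.ofReal_ne_top

theorem YY_mean (Q : Measure E) [IsProbabilityMeasure Q] (t : ℝ) (ht : 0 ≤ t) :
    ∫ ω, YY t ω ∂(law Q) = 1 := by
  unfold YY
  rw [integral_const_mul, integral_toReal (cnt_meas' t).aemeasurable (cnt_lt_top Q t ht),
    mom_one Q t ht, ENNReal.toReal_ofReal (Real.exp_pos _).le, ← Real.exp_add]
  rw [show -t / 2 + t / 2 = 0 by ring, Real.exp_zero]

theorem sq_sub_le (a b : ℝ) : ENNReal.ofReal ((a - b) ^ 2) ≤
    2 * ENNReal.ofReal (a ^ 2) + 2 * ENNReal.ofReal (b ^ 2) := by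
  have e2 : (2 : ℝ≥0∞) = ENNReal.ofReal 2 := by norm_num
  rw [e2, ← ENNReal.ofReal_mul (by norm_num), ← ENNReal.ofReal_mul (by norm_num),
    ← ENNReal.ofReal_add (by positivity) (by positivity)]
  refine ENNReal.ofReal_le_ofReal ?_
  nlinarith [sq_nonneg (a + b)]

/-- The mean square distance. -/
noncomputable def DD (Q : Measure E) [IsProbabilityMeasure Q] (W : Smp E → ℝ) (t : ℝ) : ℝ≥0∞ :=
  ∫⁻ ω, ENNReal.ofReal ((YY t ω - W ω) ^ 2) ∂(law Q)

theorem DD_meas (Q : Measure E) [IsProbabilityMeasure Q] {W : Smp E → ℝ} (hm : Measurable W) :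
    Measurable (DD Q W) := by
  unfold DD
  exact Measurable.lintegral_prod_left' (f := fun p : Smp E × ℝ =>
    ENNReal.ofReal ((YY p.2 p.1 - W p.1) ^ 2))
    (((YY_meas.sub (hm.comp measurable_fst)).pow_const 2).ennreal_ofReal)

/-- The part of the mean square where the first particle has split. -/
theorem part_split (Q : Measure E) [IsProbabilityMeasure Q] (W : Smp E → ℝ) (hm : Measurable W)
    (h1 : ∫ ω, W ω ∂(law Q) = 1) (h2 : MemLp W 2 (law Q))
    (hrec : ∀ᵐ ω ∂(law Q),
      W ω = Real.exp (-(ω []).1 / 2) * (W (shift false ω) + W (shift true ω)))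
    (t : ℝ) (ht : 0 ≤ t) :
    ∫⁻ ω in {ω : Smp E | (ω []).1 ≤ t}, ENNReal.ofReal ((YY t ω - W ω) ^ 2) ∂(law Q) =
      ∫⁻ s in Set.Iic t, DD Q W (t - s)
        ∂((expMeasure (1 / 2)).withDensity fun s => 2 * ENNReal.ofReal (Real.exp (-s))) := by
  classical
  have hA : MeasurableSet {ω : Smp E | (ω []).1 ≤ t} :=
    measurableSet_le (measurable_fst.comp (measurable_pi_apply [])) measurable_const
  let G : (ℝ × E) × (Smp E × Smp E) → ℝ≥0∞ := fun q =>
    if q.1.1 ≤ t then ENNReal.ofReal (Real.exp (-q.1.1)) *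
      ENNReal.ofReal (((YY (t - q.1.1) q.2.1 - W q.2.1) + (YY (t - q.1.1) q.2.2 - W q.2.2)) ^ 2)
    else 0
  have m1 : Measurable fun q : (ℝ × E) × (Smp E × Smp E) => q.1.1 :=
    measurable_fst.comp measurable_fst
  have hY1 : Measurable fun q : (ℝ × E) × (Smp E × Smp E) => YY (t - q.1.1) q.2.1 :=
    YY_meas.comp ((measurable_fst.comp measurable_snd).prodMk (measurable_const.sub m1))
  have hY2 : Measurable fun q : (ℝ × E) × (Smp E × Smp E) => YY (t - q.1.1) q.2.2 :=
    YY_meas.comp ((measurable_snd.comp measurable_snd).prodMk (measurable_const.sub m1))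
  have hG : Measurable G := by
    refine Measurable.ite (measurableSet_le m1 measurable_const) ?_ measurable_const
    refine (m1.neg.exp.ennreal_ofReal).mul ?_
    exact (((hY1.sub (hm.comp (measurable_fst.comp measurable_snd))).add
      (hY2.sub (hm.comp (measurable_snd.comp measurable_snd)))).pow_const 2).ennreal_ofReal
  have step1 : ∫⁻ ω in {ω : Smp E | (ω []).1 ≤ t}, ENNReal.ofReal ((YY t ω - W ω) ^ 2) ∂(law Q) =
      ∫⁻ ω, G (ω [], (shift false ω, shift true ω)) ∂(law Q) := by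
    rw [← lintegral_indicator hA]
    refine lintegral_congr_ae ?_
    filter_upwards [hrec, cnt_lt_top Q t ht] with ω hω hfin
    by_cases hs : (ω []).1 ≤ t
    · rw [Set.indicator_of_mem (show ω ∈ {ω : Smp E | (ω []).1 ≤ t} from hs)]
      simp only [G]
      rw [if_pos hs, ← ENNReal.ofReal_mul (Real.exp_pos _).le]
      congr 1
      have hc := cnt_split ω t hs
      rw [hc] at hfin
      have hf0 : cnt (shift false ω) (t - (ω []).1) ≠ ∞ := (lt_of_le_of_lt le_self_add hfin).ne
      have hf1 : cnt (shift true ω) (t - (ω []).1) ≠ ∞ := (lt_of_le_of_lt le_add_self hfin).ne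
      have e1 : YY t ω = Real.exp (-(ω []).1 / 2) * (YY (t - (ω []).1) (shift false ω) +
          YY (t - (ω []).1) (shift true ω)) := by
        unfold YY
        rw [hc, ENNReal.toReal_add hf0 hf1]
        have : Real.exp (-t / 2) = Real.exp (-(ω []).1 / 2) * Real.exp (-(t - (ω []).1) / 2) := by
          rw [← Real.exp_add]; congr 1; ring
        rw [this]; ring
      have e3 : Real.exp (-(ω []).1) = Real.exp (-(ω []).1 / 2) ^ 2 := by
        rw [← Real.exp_nat_mul]; congr 1; push_cast; ring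
      rw [hω, e1, e3]; ring
    · rw [Set.indicator_of_notMem (show ω ∉ {ω : Smp E | (ω []).1 ≤ t} from hs)]
      simp only [G]
      rw [if_neg hs]
  have step2 : ∫⁻ ω, G (ω [], (shift false ω, shift true ω)) ∂(law Q) =
      ∫⁻ q, G q ∂((one Q).prod ((law Q).prod (law Q))) := (mp_split Q).lintegral_comp hG
  have step3 : ∀ p : ℝ × E, ∫⁻ ab, G (p, ab) ∂((law Q).prod (law Q)) =
      (if p.1 ≤ t then ENNReal.ofReal (Real.exp (-p.1)) * (2 * DD Q W (t - p.1)) else 0) := by
    intro p
    by_cases hs : p.1 ≤ t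
    · simp only [G]
      rw [if_pos hs]
      simp only [if_pos hs]
      rw [lintegral_const_mul']
      · congr 1
        have hX : MemLp (fun a : Smp E => YY (t - p.1) a - W a) 2 (law Q) :=
          (YY_memLp Q (t - p.1) (by linarith)).sub h2
        have h0 : ∫ a, (YY (t - p.1) a - W a) ∂(law Q) = 0 := by
          rw [integral_sub ((YY_memLp Q (t - p.1) (by linarith)).integrable one_le_two)
            (h2.integrable one_le_two), YY_mean Q (t - p.1) (by linarith), h1, sub_self]
        exact lint_sq_add (law Q) (fun a => YY (t - p.1) a - W a) hX h0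
      · exact ENNReal.ofReal_ne_top
    · simp only [G]
      rw [if_neg hs]
      simp only [if_neg hs]
      simp
  have hDm := DD_meas Q hm
  have hH : Measurable fun s : ℝ => if s ≤ t then
      ENNReal.ofReal (Real.exp (-s)) * (2 * DD Q W (t - s)) else 0 := by
    refine Measurable.ite measurableSet_Iic ?_ measurable_const
    exact (measurable_neg.exp.ennreal_ofReal).mul
      (measurable_const.mul (hDm.comp (measurable_const.sub measurable_id)))
  have : IsProbabilityMeasure (expMeasure (1 / 2)) := isProbabilityMeasure_expMeasure (by norm_num)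
  rw [step1, step2, lintegral_prod _ hG.aemeasurable]
  simp only [step3]
  have step4 : ∫⁻ p : ℝ × E, (if p.1 ≤ t then
      ENNReal.ofReal (Real.exp (-p.1)) * (2 * DD Q W (t - p.1)) else 0) ∂(one Q) =
      ∫⁻ s, (if s ≤ t then ENNReal.ofReal (Real.exp (-s)) * (2 * DD Q W (t - s)) else 0)
        ∂(expMeasure (1 / 2)) := by
    have hH' : Measurable fun p : ℝ × E => if p.1 ≤ t then
        ENNReal.ofReal (Real.exp (-p.1)) * (2 * DD Q W (t - p.1)) else 0 := hH.comp measurable_fst
    unfold one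
    rw [lintegral_prod _ hH'.aemeasurable]
    simp only [lintegral_const, measure_univ, mul_one]
  have hDc : Measurable fun s : ℝ => DD Q W (t - s) :=
    hDm.comp (measurable_const.sub measurable_id)
  rw [step4, setLIntegral_withDensity_eq_setLIntegral_mul _ (by fun_prop) hDc measurableSet_Iic,
    ← lintegral_indicator measurableSet_Iic]
  refine lintegral_congr fun s => ?_
  by_cases hs : s ≤ t
  · rw [if_pos hs, Set.indicator_of_mem (Set.mem_Iic.mpr hs)]
    simp only [Pi.mul_apply]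
    ring
  · rw [if_neg hs, Set.indicator_of_notMem (fun h => hs (Set.mem_Iic.mp h))]

end Yl

variable {E : Type*} [MeasurableSpace E]

open Yl in
/-- `L²` convergence of the normalised number of particles. -/
theorem yule (Q : Measure E) [IsProbabilityMeasure Q] (W : Smp E → ℝ) (hm : Measurable W)
    (h1 : ∫ ω, W ω ∂(law Q) = 1) (h2 : MemLp W 2 (law Q))
    (hrec : ∀ᵐ ω ∂(law Q),
      W ω = Real.exp (-(ω []).1 / 2) * (W (shift false ω) + W (shift true ω))) :
    Tendsto (fun t : ℝ => ∫⁻ ω, ENNReal.ofReal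
      ((Real.exp (-t / 2) * (cnt ω t).toReal - W ω) ^ 2) ∂(law Q)) atTop (𝓝 0) := by
  change Tendsto (DD Q W) atTop (𝓝 0)
  have hW2 : ∫⁻ ω, ENNReal.ofReal (W ω ^ 2) ∂(law Q) ≠ ∞ := by
    have := h2.integrable_sq
    have h := this.2
    rw [hasFiniteIntegral_iff_ofReal (ae_of_all _ fun ω => sq_nonneg _)] at h
    exact h.ne
  have hWm : Measurable fun ω : Smp E => ENNReal.ofReal (W ω ^ 2) :=
    (hm.pow_const 2).ennreal_ofReal
  have hτ : Measurable fun ω : Smp E => (ω []).1 := measurable_fst.comp (measurable_pi_apply [])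
  let K : ℝ≥0∞ := 2 * 5 + 2 * ∫⁻ ω, ENNReal.ofReal (W ω ^ 2) ∂(law Q)
  have hK : K ≠ ∞ := by
    refine ENNReal.add_ne_top.mpr ⟨by norm_num, ENNReal.mul_ne_top (by norm_num) hW2⟩
  have hD : ∀ t, 0 ≤ t → DD Q W t ≤ K := by
    intro t ht
    calc DD Q W t ≤ ∫⁻ ω, (2 * ENNReal.ofReal (YY t ω ^ 2) + 2 * ENNReal.ofReal (W ω ^ 2))
          ∂(law Q) := lintegral_mono fun ω => sq_sub_le _ _
      _ = 2 * ∫⁻ ω, ENNReal.ofReal (YY t ω ^ 2) ∂(law Q) +
          2 * ∫⁻ ω, ENNReal.ofReal (W ω ^ 2) ∂(law Q) := by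
          rw [lintegral_add_left ((((YY_meas' t).pow_const 2).ennreal_ofReal).const_mul 2),
            lintegral_const_mul _ (((YY_meas' t).pow_const 2).ennreal_ofReal),
            lintegral_const_mul _ hWm]
      _ ≤ K := by
          simp only [K]
          gcongr
          exact YY_sq_bound Q t ht
  have : IsFiniteMeasure ((law Q).withDensity fun ω => ENNReal.ofReal (W ω ^ 2)) :=
    isFiniteMeasure_withDensity hW2
  let ρ : Measure ℝ := ((law Q).withDensity fun ω => ENNReal.ofReal (W ω ^ 2)).map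
    fun ω : Smp E => (ω []).1
  have : IsFiniteMeasure ρ := Measure.isFiniteMeasure_map _ _
  let ε : ℝ → ℝ≥0∞ := fun t => 2 * ENNReal.ofReal (Real.exp (-t)) + 2 * ρ (Set.Ioi t)
  have hε : Tendsto ε atTop (𝓝 0) := by
    have a1 : Tendsto (fun t : ℝ => 2 * ENNReal.ofReal (Real.exp (-t))) atTop (𝓝 (2 * 0)) := by
      refine ENNReal.Tendsto.const_mul ?_ (Or.inr (by norm_num))
      have := ENNReal.tendsto_ofReal (Real.tendsto_exp_neg_atTop_nhds_zero)
      rwa [ENNReal.ofReal_zero] at this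
    have a2 : Tendsto (fun t : ℝ => 2 * ρ (Set.Ioi t)) atTop (𝓝 (2 * 0)) :=
      ENNReal.Tendsto.const_mul (tendsto_Ioi ρ) (Or.inr (by norm_num))
    have := a1.add a2
    simpa using this
  have : IsProbabilityMeasure (expMeasure (1 / 2)) := isProbabilityMeasure_expMeasure (by norm_num)
  have hmass : ((expMeasure (1 / 2)).withDensity fun s => 2 * ENNReal.ofReal (Real.exp (-s)))
      Set.univ < 1 := by
    rw [withDensity_apply _ MeasurableSet.univ, setLIntegral_univ]
    exact mass
  have : IsFiniteMeasure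
      ((expMeasure (1 / 2)).withDensity fun s => 2 * ENNReal.ofReal (Real.exp (-s))) :=
    ⟨lt_trans hmass (by norm_num)⟩
  refine renewal_zero (DD Q W) ε K hK hD hε _ hmass fun t ht => ?_
  have hA : MeasurableSet {ω : Smp E | (ω []).1 ≤ t} := measurableSet_le hτ measurable_const
  have e0 : DD Q W t = ∫⁻ ω in {ω : Smp E | (ω []).1 ≤ t},
      ENNReal.ofReal ((YY t ω - W ω) ^ 2) ∂(law Q) +
      ∫⁻ ω in {ω : Smp E | (ω []).1 ≤ t}ᶜ, ENNReal.ofReal ((YY t ω - W ω) ^ 2) ∂(law Q) :=
    (lintegral_add_compl _ hA).symm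
  rw [e0, part_split Q W hm h1 h2 hrec t ht]
  gcongr
  calc ∫⁻ ω in {ω : Smp E | (ω []).1 ≤ t}ᶜ, ENNReal.ofReal ((YY t ω - W ω) ^ 2) ∂(law Q)
      ≤ ∫⁻ ω in {ω : Smp E | (ω []).1 ≤ t}ᶜ, (2 * ENNReal.ofReal (Real.exp (-t)) +
          2 * ENNReal.ofReal (W ω ^ 2)) ∂(law Q) := by
        refine setLIntegral_mono_ae' hA.compl ?_
        filter_upwards [life_pos Q] with ω hω hs
        have hs' : t < (ω []).1 := not_le.mp hs
        have hc := cnt_before ω t ht (fun u => (hω u).le) hs'
        have e1 : YY t ω = Real.exp (-t / 2) := by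
          unfold YY; rw [hc]; simp
        have e2 : YY t ω ^ 2 = Real.exp (-t) := by
          rw [e1, ← Real.exp_nat_mul]; congr 1; push_cast; ring
        rw [← e2]
        exact sq_sub_le _ _
    _ = 2 * ENNReal.ofReal (Real.exp (-t)) * (law Q) {ω : Smp E | (ω []).1 ≤ t}ᶜ +
          2 * ∫⁻ ω in {ω : Smp E | (ω []).1 ≤ t}ᶜ, ENNReal.ofReal (W ω ^ 2) ∂(law Q) := by
        rw [lintegral_add_left measurable_const, setLIntegral_const,
          lintegral_const_mul _ hWm]
    _ ≤ 2 * ENNReal.ofReal (Real.exp (-t)) * 1 + 2 * ρ (Set.Ioi t) := by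
        gcongr
        · exact prob_le_one
        · simp only [ρ]
          rw [Measure.map_apply hτ measurableSet_Ioi, withDensity_apply _ (hτ measurableSet_Ioi)]
          refine lintegral_mono_set ?_
          intro ω hω
          exact not_le.mp (show ¬ (ω []).1 ≤ t from hω)
    _ = ε t := by simp only [ε, mul_one]

end Pool.Agent.H96.BB
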