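import Pool.Agent.H96.BB.Fin2
import Pool.Agent.H96.BB.Split
import Pool.Agent.H96.BB.Det
import Pool.Agent.H96.BB.Gen
import Pool.Agent.H96.BB.Yule
import Pool.Agent.H96.BB.Sub
import Pool.Agent.H96.BB.Rec
import Pool.Agent.H96.BB.Mob
import Pool.Agent.H96.BB.Char
import Pool.Agent.H96.BB.Step
import Pool.Agent.H96.BB.Dens
import Pool.Agent.H96.BB.Ineq

/-! # The main theorem -/

namespace Pool.Agent.H96.BB

open MeasureTheory ProbabilityTheory Filter Topology
open scoped ENNReal NNReal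

variable {E : Type*} [MeasurableSpace E]

/-- images under the isometries preserve null sets -/
theorem ae_mob (z : ℂ) (hz : ‖z‖ < 1) (p : ℂ → Prop) (h : ∀ᵐ ξ ∂arc, p ξ) :
    ∀ᵐ ξ ∂arc, p (mob z ξ) := by
  rw [ae_iff] at h
  obtain ⟨N, hN, hNm, hN0⟩ := exists_measurable_superset_of_null h
  have h1 := arc_mob z hz (N.indicator fun _ => 1) (measurable_const.indicator hNm)
  rw [lintegral_indicator_const hNm, one_mul, hN0] at h1
  have h2 := h1.symm
  rw [lintegral_eq_zero_iff] at h2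
  · filter_upwards [h2, arc_circle] with ξ h3 h4
    by_contra hcon
    have h5 : mob z ξ ∈ N := hN hcon
    have h6 : N.indicator (fun _ => (1 : ℝ≥0∞)) (mob z ξ) * ENNReal.ofReal (pk (-z) ξ) = 0 := h3
    rw [Set.indicator_of_mem h5, one_mul, ENNReal.ofReal_eq_zero] at h6
    have h7 : 0 < pk (-z) ξ := by
      unfold pk
      refine div_pos ?_ ?_
      · rw [norm_neg]
        have := norm_nonneg z
        nlinarith
      · have : ξ - -z ≠ 0 := by
          intro h0
          have h8 : ξ = -z := by linear_combination h0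
          rw [h8, norm_neg] at h4
          linarith
        positivity
    linarith
  · refine ((measurable_const.indicator hNm).comp (mob_meas z)).mul ?_
    unfold pk
    fun_prop

theorem singular (Q : Measure E) [IsProbabilityMeasure Q] (B : ℝ≥0 → E → ℂ) (hB : IsHypBM Q B)
    (μ : Smp E → Measure ℂ) (hμm : Measurable μ)
    (hμ : ∀ᵐ ω ∂(law Q), IsProbabilityMeasure (μ ω) ∧ μ ω (Metric.sphere 0 1)ᶜ = 0 ∧
      WeakLim (emp B ω) (μ ω)) :
    ∀ᵐ ω ∂(law Q), μ ω ⟂ₘ arc := by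
  obtain ⟨W, hWm, hW0, hW1, hW2, hWrec⟩ := gen_lim Q
  have hy := yule Q W hWm hW1 hW2 hWrec
  obtain ⟨s, hs, hsub⟩ := subseq Q W hWm hW2 hy
  have hrec := nu_rec Q B hB μ hμm hμ W hWm hW0 s hs hsub
  have hchar := fun (η : ℂ) (hη : ‖η‖ = 1) (t : ℝ≥0) (θ : ℝ) => char_pk Q B hB η hη t θ
  have hstep := fun (η : ℂ) (hη : ‖η‖ = 1) => step_law Q B hB hchar η hη
  -- the shifts
  have hshift : ∀ b : Bool, Measure.QuasiMeasurePreserving (shift (E := E) b) (law Q) (law Q) := by
    intro b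
    have h1 := (mp_split Q).quasiMeasurePreserving
    have h2 : Measure.QuasiMeasurePreserving (fun p : (ℝ × E) × (Smp E × Smp E) => p.2)
      ((one Q).prod ((law Q).prod (law Q))) ((law Q).prod (law Q)) :=
      Measure.quasiMeasurePreserving_snd
    cases b
    · exact (Measure.quasiMeasurePreserving_fst.comp h2).comp h1
    · exact (Measure.quasiMeasurePreserving_snd.comp h2).comp h1
  -- the kernel
  have hGm : MeasurableSet {ω : Smp E | μ ω Set.univ = 1} :=
    (Measure.measurable_coe MeasurableSet.univ).comp hμm (measurableSet_singleton 1)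
  let κ : Kernel (Smp E) ℂ := ⟨fun ω => ({ω : Smp E | μ ω Set.univ = 1}.indicator μ) ω,
    hμm.indicator hGm⟩
  have hκ : ∀ ω, κ ω = ({ω : Smp E | μ ω Set.univ = 1}.indicator μ) ω := fun ω => rfl
  have hκ1 : ∀ ω, κ ω Set.univ ≤ 1 := by
    intro ω
    rw [hκ]
    by_cases h : ω ∈ {ω : Smp E | μ ω Set.univ = 1}
    · rw [Set.indicator_of_mem h]
      exact (show μ ω Set.univ = 1 from h).le
    · rw [Set.indicator_of_notMem h]
      simp
  have : IsFiniteKernel κ := ⟨1, ENNReal.one_lt_top, hκ1⟩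
  have hκμ : ∀ᵐ ω ∂(law Q), κ ω = μ ω := by
    filter_upwards [hμ] with ω h
    rw [hκ, Set.indicator_of_mem]
    have := h.1
    exact measure_univ
  let f₀ : Smp E → ℂ → ℝ≥0∞ := Kernel.rnDeriv κ (Kernel.const (Smp E) arc)
  have hf₀ : Measurable (Function.uncurry f₀) := Kernel.measurable_rnDeriv _ _
  have hf₀d : ∀ ω, f₀ ω =ᵐ[arc] (κ ω).rnDeriv arc := by
    intro ω
    have := Kernel.rnDeriv_eq_rnDeriv_measure (κ := κ) (η := Kernel.const (Smp E) arc) (a := ω)
    simpa using this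
  let f : Smp E → ℂ → ℝ≥0∞ := fun ω ξ => ENNReal.ofReal (W ω) * f₀ ω ξ
  have hfm : Measurable (Function.uncurry f) :=
    (hWm.ennreal_ofReal.comp measurable_fst).mul hf₀
  -- density of the measure with weight
  have hfd : ∀ᵐ ω ∂(law Q), f ω =ᵐ[arc] (ENNReal.ofReal (W ω) • μ ω).rnDeriv arc := by
    filter_upwards [hκμ, hμ] with ω h1 h2
    have := h2.1
    have h3 := Measure.rnDeriv_smul_left_of_ne_top (μ ω) arc
      (r := ENNReal.ofReal (W ω)) ENNReal.ofReal_ne_top
    have h4 := hf₀d ω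
    rw [h1] at h4
    filter_upwards [h3, h4] with ξ h5 h6
    rw [h5]
    simp only [Pi.smul_apply, smul_eq_mul]
    rw [← h6]
  have hfin : ∀ᵐ ω ∂(law Q), ∀ᵐ ξ ∂arc, f ω ξ < ⊤ := by
    refine Filter.Eventually.of_forall fun ω => ?_
    filter_upwards [hf₀d ω, Measure.rnDeriv_lt_top (κ ω) arc] with ξ h1 h2
    have h3 : f₀ ω ξ < ⊤ := by rw [h1]; exact h2
    exact ENNReal.mul_lt_top ENNReal.ofReal_lt_top h3
  have hmass : ∫⁻ ω, ∫⁻ ξ, f ω ξ ∂arc ∂(law Q) ≤ 1 := by
    calc ∫⁻ ω, ∫⁻ ξ, f ω ξ ∂arc ∂(law Q) ≤ ∫⁻ ω, ENNReal.ofReal (W ω) ∂(law Q) := by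
          refine lintegral_mono fun ω => ?_
          have h1 : ∫⁻ ξ, f ω ξ ∂arc = ENNReal.ofReal (W ω) * ∫⁻ ξ, f₀ ω ξ ∂arc :=
            lintegral_const_mul _ (hf₀.comp (measurable_const.prodMk measurable_id))
          have h2 : ∫⁻ ξ, f₀ ω ξ ∂arc ≤ 1 := by
            rw [lintegral_congr_ae (hf₀d ω)]
            exact (Measure.lintegral_rnDeriv_le).trans (hκ1 ω)
          show ∫⁻ ξ, f ω ξ ∂arc ≤ _
          rw [h1]
          calc ENNReal.ofReal (W ω) * ∫⁻ ξ, f₀ ω ξ ∂arc ≤ ENNReal.ofReal (W ω) * 1 := by gcongr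
            _ = _ := mul_one _
      _ = ENNReal.ofReal (∫ ω, W ω ∂(law Q)) := by
          rw [ofReal_integral_eq_lintegral_ofReal (hW2.integrable (by norm_num))]
          filter_upwards [hW0] with ω h using h.le
      _ = 1 := by rw [hW1]; simp
  have hfrec : ∀ᵐ ω ∂(law Q), ∀ᵐ ξ ∂arc,
      f ω (mob (B (ω []).1.toNNReal (ω []).2) ξ) *
          ENNReal.ofReal (pk (-(B (ω []).1.toNNReal (ω []).2)) ξ) =
        ENNReal.ofReal (Real.exp (-(ω []).1 / 2)) *
          (f (shift false ω) ξ + f (shift true ω) ξ) := by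
    filter_upwards [hrec, hfd, (hshift false).ae hfd, (hshift true).ae hfd,
      (hshift false).ae hμ, (hshift true).ae hμ] with ω h1 h2 h3 h4 h5 h6
    have hz : ‖B (ω []).1.toNNReal (ω []).2‖ < 1 := hB.disk _ _
    set z := B (ω []).1.toNNReal (ω []).2 with hzdef
    have := h5.1
    have := h6.1
    have i1 : IsFiniteMeasure (ENNReal.ofReal (W (shift false ω)) • μ (shift false ω)) :=
      ⟨by simp⟩
    have i2 : IsFiniteMeasure (ENNReal.ofReal (W (shift true ω)) • μ (shift true ω)) :=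
      ⟨by simp⟩
    have h7 := dens_rec z hz (Real.exp (-(ω []).1 / 2)) (Real.exp_pos _)
      (ENNReal.ofReal (W (shift false ω)) • μ (shift false ω))
      (ENNReal.ofReal (W (shift true ω)) • μ (shift true ω))
      (by rw [Measure.smul_apply, h5.2.1, smul_zero]) (by rw [Measure.smul_apply, h6.2.1, smul_zero])
    have h8 := ae_mob z hz _ h2
    filter_upwards [h7, h8, h3, h4] with ξ g1 g2 g3 g4
    rw [g2, h1, g1, g3, g4]
  have hineq := main_ineq Q B hB hstep f hfm hfin hfrec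
  have hzero := vanish Q f hfm hfin hmass hineq
  filter_upwards [hzero, hW0, hκμ, hμ] with ω h1 h2 h3 h4
  have := h4.1
  rw [← Measure.rnDeriv_eq_zero]
  have h5 := hf₀d ω
  rw [h3] at h5
  filter_upwards [h1, h5] with ξ g1 g2
  rw [← g2]
  have g3 : ENNReal.ofReal (W ω) * f₀ ω ξ = 0 := g1
  rcases mul_eq_zero.mp g3 with h | h
  · rw [ENNReal.ofReal_eq_zero] at h
    linarith
  · exact h

end Pool.Agent.H96.BB
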